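import Mathlib

open scoped ENNReal Topology Pointwise
open MeasureTheory Set

namespace Pool.Agent.H98.Gauss

lemma volume_affine_image {a : ℝ} (ha : 0 < a) (c : ℝ) (K : Set ℝ) :
    volume ((fun x => a * x + c) '' K) = ENNReal.ofReal a * volume K := by
  have h : (fun x => a * x + c) '' K = (fun x => x + (-c)) ⁻¹' (a • K) := by
    ext y
    simp only [mem_image, mem_preimage, mem_smul_set, smul_eq_mul]
    constructor
    · rintro ⟨x, hx, rfl⟩
      exact ⟨x, hx, by ring⟩
    · rintro ⟨x, hx, hxy⟩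
      exact ⟨x, hx, by linarith⟩
  rw [h, measure_preimage_add_right, Measure.addHaar_smul]
  simp [abs_of_pos ha]

/-- one-dimensional Brunn-Minkowski inequality, compact sets -/
lemma bm_compact {K L C : Set ℝ} (hK : IsCompact K) (hL : IsCompact L) 
    (hK0 : K.Nonempty) (hL0 : L.Nonempty) {a b : ℝ} (ha : 0 < a) (hb : 0 < b)
    (h : ∀ x ∈ K, ∀ y ∈ L, a * x + b * y ∈ C) :
    ENNReal.ofReal a * volume K + ENNReal.ofReal b * volume L ≤ volume C := by
  obtain ⟨k, hk⟩ := hK.exists_isGreatest hK0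
  obtain ⟨l, hl⟩ := hL.exists_isLeast hL0
  set s := a * k + b * l with hs
  have h1 : (fun x => a * x + b * l) '' K ⊆ C ∩ Iic s := by
    rintro _ ⟨x, hx, rfl⟩
    refine ⟨h x hx l hl.1, ?_⟩
    have := hk.2 hx
    simp only [mem_Iic]
    nlinarith
  have h2 : (fun y => b * y + a * k) '' L ⊆ (C ∩ Ici s) := by
    rintro _ ⟨y, hy, rfl⟩
    refine ⟨?_, ?_⟩
    · have := h k hk.1 y hy
      simp only
      rwa [add_comm]
    · have := hl.2 hy
      simp only [mem_Ici]
      nlinarith
  have h3 : ENNReal.ofReal a * volume K ≤ volume (C ∩ Iic s) := by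
    rw [← volume_affine_image ha (b * l)]
    exact measure_mono h1
  have h4 : ENNReal.ofReal b * volume L ≤ volume (C \ Iic s) := by
    rw [← volume_affine_image hb (a * k)]
    calc volume ((fun y => b * y + a * k) '' L) ≤ volume ((C \ Iic s) ∪ {s}) := by
          apply measure_mono
          intro z hz
          obtain ⟨hz1, hz2⟩ := h2 hz
          simp only [mem_Ici] at hz2
          rcases eq_or_lt_of_le hz2 with h | h
          · right; exact h.symm
          · left; exact ⟨hz1, by simpa using h⟩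
      _ ≤ volume (C \ Iic s) + volume ({s} : Set ℝ) := measure_union_le _ _
      _ = volume (C \ Iic s) := by simp
  calc _ ≤ volume (C ∩ Iic s) + volume (C \ Iic s) := add_le_add h3 h4
    _ = volume C := measure_inter_add_sdiff C measurableSet_Iic

lemma le_iSup_compact {A : Set ℝ} (hA : MeasurableSet A) (hA0 : A.Nonempty) :
    volume A ≤ ⨆ K : {K : Set ℝ // K ⊆ A ∧ IsCompact K ∧ K.Nonempty}, volume K.1 := by
  obtain ⟨x0, hx0⟩ := hA0
  refine le_of_forall_lt fun r hr => ?_
  obtain ⟨K, hKA, hK, hrK⟩ := hA.exists_lt_isCompact hr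
  refine lt_of_lt_of_le hrK ?_
  refine le_trans (measure_mono (subset_insert x0 K)) ?_
  exact le_iSup (fun K : {K : Set ℝ // K ⊆ A ∧ IsCompact K ∧ K.Nonempty} => volume K.1)
    ⟨insert x0 K, insert_subset hx0 hKA, hK.insert x0, ⟨x0, mem_insert _ _⟩⟩

/-- one-dimensional Brunn-Minkowski inequality -/
lemma bm {A B C : Set ℝ} (hA : MeasurableSet A) (hB : MeasurableSet B)
    (hA0 : A.Nonempty) (hB0 : B.Nonempty) {a b : ℝ} (ha : 0 < a) (hb : 0 < b)
    (h : ∀ x ∈ A, ∀ y ∈ B, a * x + b * y ∈ C) :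
    ENNReal.ofReal a * volume A + ENNReal.ofReal b * volume B ≤ volume C := by
  have hAn : Nonempty {K : Set ℝ // K ⊆ A ∧ IsCompact K ∧ K.Nonempty} := by
    obtain ⟨x0, hx0⟩ := hA0
    exact ⟨⟨{x0}, by simpa using hx0, isCompact_singleton, singleton_nonempty _⟩⟩
  have hBn : Nonempty {K : Set ℝ // K ⊆ B ∧ IsCompact K ∧ K.Nonempty} := by
    obtain ⟨x0, hx0⟩ := hB0
    exact ⟨⟨{x0}, by simpa using hx0, isCompact_singleton, singleton_nonempty _⟩⟩
  calc ENNReal.ofReal a * volume A + ENNReal.ofReal b * volume B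
      ≤ ENNReal.ofReal a * (⨆ K : {K : Set ℝ // K ⊆ A ∧ IsCompact K ∧ K.Nonempty}, volume K.1)
        + ENNReal.ofReal b * (⨆ K : {K : Set ℝ // K ⊆ B ∧ IsCompact K ∧ K.Nonempty}, volume K.1) := by
        gcongr
        · exact le_iSup_compact hA hA0
        · exact le_iSup_compact hB hB0
    _ ≤ volume C := by
        rw [ENNReal.mul_iSup, ENNReal.mul_iSup]
        refine ENNReal.iSup_add_iSup_le fun K L => ?_
        exact bm_compact K.2.2.1 L.2.2.1 K.2.2.2 L.2.2.2 ha hb
          (fun x hx y hy => h x (K.2.1 hx) y (L.2.1 hy))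

lemma measurable_meas_lt (f : ℝ → ℝ) : Measurable (fun t : ℝ => volume {x : ℝ | t < f x}) := by
  refine Antitone.measurable ?_
  intro s t hst
  apply measure_mono
  intro x hx
  simp only [mem_ofPred_eq] at hx ⊢
  linarith

/-- normalised one-dimensional Prekopa-Leindler inequality -/
lemma pl_norm {f g h : ℝ → ℝ} (hf : Measurable f) (hg : Measurable g) (hh : Measurable h)
    (hf0 : ∀ x, 0 ≤ f x) (hg0 : ∀ x, 0 ≤ g x) (hh0 : ∀ x, 0 ≤ h x)
    (hf1 : ∀ x, f x ≤ 1) (hg1 : ∀ x, g x ≤ 1)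
    (hfs : ∀ t < 1, ∃ x, t < f x) (hgs : ∀ t < 1, ∃ x, t < g x)
    {a b : ℝ} (ha : 0 < a) (hb : 0 < b) (hab : a + b = 1)
    (hfgh : ∀ x y, f x ^ a * g y ^ b ≤ h (a * x + b * y)) :
    ENNReal.ofReal a * (∫⁻ x, ENNReal.ofReal (f x)) + ENNReal.ofReal b * (∫⁻ x, ENNReal.ofReal (g x))
      ≤ ∫⁻ x, ENNReal.ofReal (h x) := by
  rw [lintegral_eq_lintegral_meas_lt volume (Filter.Eventually.of_forall hf0) hf.aemeasurable,
    lintegral_eq_lintegral_meas_lt volume (Filter.Eventually.of_forall hg0) hg.aemeasurable,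
    lintegral_eq_lintegral_meas_lt volume (Filter.Eventually.of_forall hh0) hh.aemeasurable,
    ← lintegral_const_mul _ (measurable_meas_lt f), ← lintegral_const_mul _ (measurable_meas_lt g),
    ← lintegral_add_left ((measurable_meas_lt f).const_mul _)]
  refine setLIntegral_mono' measurableSet_Ioi fun t ht => ?_
  simp only [mem_Ioi] at ht
  rcases lt_or_ge t 1 with h1 | h1
  · refine bm (measurableSet_lt measurable_const hf) (measurableSet_lt measurable_const hg)
      (hfs t h1) (hgs t h1) ha hb ?_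
    intro x hx y hy
    simp only [mem_ofPred_eq] at hx hy ⊢
    refine lt_of_lt_of_le ?_ (hfgh x y)
    have e : t = t ^ a * t ^ b := by rw [← Real.rpow_add ht, hab, Real.rpow_one]
    calc t = t ^ a * t ^ b := e
      _ < f x ^ a * g y ^ b := by
          apply mul_lt_mul''
          · exact Real.rpow_lt_rpow ht.le hx ha
          · exact Real.rpow_lt_rpow ht.le hy hb
          · positivity
          · positivity
  · have e1 : {x : ℝ | t < f x} = ∅ := by
      ext x; simp only [mem_ofPred_eq, mem_empty_iff_false, iff_false, not_lt]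
      linarith [hf1 x]
    have e2 : {x : ℝ | t < g x} = ∅ := by
      ext x; simp only [mem_ofPred_eq, mem_empty_iff_false, iff_false, not_lt]
      linarith [hg1 x]
    rw [e1, e2]
    simp

/-- one-dimensional Prekopa-Leindler inequality -/
lemma pl {f g h : ℝ → ℝ} (hf : Measurable f) (hg : Measurable g) (hh : Measurable h)
    (hf0 : ∀ x, 0 ≤ f x) (hg0 : ∀ x, 0 ≤ g x) (hh0 : ∀ x, 0 ≤ h x)
    (hfi : Integrable f) (hgi : Integrable g) (hhi : Integrable h)
    (hfb : BddAbove (range f)) (hgb : BddAbove (range g))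
    {a b : ℝ} (ha : 0 < a) (hb : 0 < b) (hab : a + b = 1)
    (hfgh : ∀ x y, f x ^ a * g y ^ b ≤ h (a * x + b * y)) :
    (∫ x, f x) ^ a * (∫ x, g x) ^ b ≤ ∫ x, h x := by
  have hI0 : 0 ≤ ∫ x, h x := integral_nonneg hh0
  set A := ⨆ x, f x with hA
  set B := ⨆ x, g x with hB
  have hfA : ∀ x, f x ≤ A := fun x => le_ciSup hfb x
  have hgB : ∀ x, g x ≤ B := fun x => le_ciSup hgb x
  have hA0 : 0 ≤ A := (hf0 0).trans (hfA 0)
  have hB0 : 0 ≤ B := (hg0 0).trans (hgB 0)
  rcases eq_or_lt_of_le hA0 with hA1 | hA1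
  · have : f = fun _ => 0 := by
      funext x; exact le_antisymm (hA1 ▸ hfA x) (hf0 x)
    rw [this]
    simp [Real.zero_rpow ha.ne', hI0]
  rcases eq_or_lt_of_le hB0 with hB1 | hB1
  · have : g = fun _ => 0 := by
      funext x; exact le_antisymm (hB1 ▸ hgB x) (hg0 x)
    rw [this]
    simp [Real.zero_rpow hb.ne', hI0]
  set lam := A ^ a * B ^ b with hlam
  have hlam0 : 0 < lam := by positivity
  have key := pl_norm (f := fun x => f x / A) (g := fun x => g x / B) (h := fun x => h x / lam)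
    (hf.div_const _) (hg.div_const _) (hh.div_const _)
    (fun x => div_nonneg (hf0 x) hA0) (fun x => div_nonneg (hg0 x) hB0)
    (fun x => div_nonneg (hh0 x) hlam0.le)
    (fun x => (div_le_one hA1).2 (hfA x)) (fun x => (div_le_one hB1).2 (hgB x))
    (fun t ht => by
      have : t * A < A := by nlinarith
      obtain ⟨x, hx⟩ := exists_lt_of_lt_ciSup this
      exact ⟨x, by rw [lt_div_iff₀ hA1]; exact hx⟩)
    (fun t ht => by
      have : t * B < B := by nlinarith
      obtain ⟨x, hx⟩ := exists_lt_of_lt_ciSup this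
      exact ⟨x, by rw [lt_div_iff₀ hB1]; exact hx⟩)
    ha hb hab (fun x y => by
      rw [Real.div_rpow (hf0 x) hA0, Real.div_rpow (hg0 y) hB0, div_mul_div_comm]
      apply div_le_div_of_nonneg_right (hfgh x y) hlam0.le)
  have e1 : ∫⁻ x, ENNReal.ofReal (f x / A) = ENNReal.ofReal (∫ x, f x / A) :=
    (ofReal_integral_eq_lintegral_ofReal (hfi.div_const _)
      (Filter.Eventually.of_forall fun x => div_nonneg (hf0 x) hA0)).symm
  have e2 : ∫⁻ x, ENNReal.ofReal (g x / B) = ENNReal.ofReal (∫ x, g x / B) :=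
    (ofReal_integral_eq_lintegral_ofReal (hgi.div_const _)
      (Filter.Eventually.of_forall fun x => div_nonneg (hg0 x) hB0)).symm
  have e3 : ∫⁻ x, ENNReal.ofReal (h x / lam) = ENNReal.ofReal (∫ x, h x / lam) :=
    (ofReal_integral_eq_lintegral_ofReal (hhi.div_const _)
      (Filter.Eventually.of_forall fun x => div_nonneg (hh0 x) hlam0.le)).symm
  rw [e1, e2, e3, ← ENNReal.ofReal_mul ha.le, ← ENNReal.ofReal_mul hb.le,
    ← ENNReal.ofReal_add, ENNReal.ofReal_le_ofReal_iff] at key
  rotate_left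
  · exact integral_nonneg fun x => div_nonneg (hh0 x) hlam0.le
  · exact mul_nonneg ha.le (integral_nonneg fun x => div_nonneg (hf0 x) hA0)
  · exact mul_nonneg hb.le (integral_nonneg fun x => div_nonneg (hg0 x) hB0)
  rw [integral_div, integral_div, integral_div] at key
  have hIf : 0 ≤ ∫ x, f x := integral_nonneg hf0
  have hIg : 0 ≤ ∫ x, g x := integral_nonneg hg0
  have amgm := Real.geom_mean_le_arith_mean2_weighted ha.le hb.le (div_nonneg hIf hA0)
    (div_nonneg hIg hB0) hab
  have := amgm.trans key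
  rw [Real.div_rpow hIf hA0, Real.div_rpow hIg hB0, div_mul_div_comm, ← hlam,
    div_le_div_iff_of_pos_right hlam0] at this
  exact this

end Pool.Agent.H98.Gauss
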