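import Mathlib

open scoped ENNReal Topology
open Filter Set

namespace Pool.Agent.H98.Aloha

/-- A biased coin: the value is `true` with probability `p` (a number outside `[0,1]` is
replaced by the nearest number of `[0,1]`; this never happens in the model below). -/
noncomputable def coin (p : ℝ) : PMF Bool :=
  PMF.ofFintype
    (fun b => if b then ENNReal.ofReal (max 0 (min p 1)) else ENNReal.ofReal (1 - max 0 (min p 1)))
    (by
      rw [Fintype.sum_bool]
      simp only [if_true, Bool.false_eq_true, if_false]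
      rw [← ENNReal.ofReal_add (le_max_left _ _)]
      · simp
      · have : max 0 (min p 1) ≤ 1 := max_le zero_le_one (min_le_right _ _)
        linarith)

/-- The number of messages sent when each of the present messages is sent, independently of
the others, with probability `p`. -/
noncomputable def sent (p : ℝ) : ℕ → PMF ℕ
  | 0 => PMF.pure 0
  | n + 1 => (coin p).bind fun b => (sent p n).map fun k => k + (if b then 1 else 0)

/-- One slot of the protocol `A_3(C,h,1-ε)` with arrival law `ν`, from `(N_n,S_n) = x`. -/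
noncomputable def step (C : ℝ) (h ε : ℝ → ℝ) (ν : PMF ℕ) (x : ℕ × ℝ) : PMF (ℕ × ℝ) :=
  (coin (1 / 2)).bind fun I =>
    (sent (if I then 1 / x.2 else (1 - ε x.2) / x.2) x.1).bind fun B =>
      ν.map fun ξ =>
        (x.1 - (if B = 1 then 1 else 0) + ξ,
          if B = 1 then (if I then max (x.2 - h x.2) 1 else x.2 + h x.2) else x.2 + C)

/-- The law of `(N_{n+1},S_{n+1})` when the chain starts at `(N_1,S_1) = x`. -/
noncomputable def law (C : ℝ) (h ε : ℝ → ℝ) (ν : PMF ℕ) (x : ℕ × ℝ) : ℕ → PMF (ℕ × ℝ)
  | 0 => PMF.pure x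
  | n + 1 => (law C h ε ν x n).bind (step C h ε ν)

/-- Expectation of a `[0,∞]`-valued function under a discrete law. -/
noncomputable def E {α : Type*} (q : PMF α) (V : α → ℝ≥0∞) : ℝ≥0∞ := ∑' a, q a * V a

variable {α β : Type*}

lemma E_pure (a : α) (V : α → ℝ≥0∞) : E (PMF.pure a) V = V a := by
  classical
  unfold E
  rw [tsum_eq_single a]
  · simp
  · intro b hb
    simp [PMF.pure_apply, hb]

lemma E_bind (q : PMF α) (f : α → PMF β) (V : β → ℝ≥0∞) :
    E (q.bind f) V = E q (fun a => E (f a) V) := by
  unfold E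
  simp_rw [PMF.bind_apply, ← ENNReal.tsum_mul_left, ← ENNReal.tsum_mul_right]
  rw [ENNReal.tsum_comm]
  simp_rw [mul_assoc]

lemma E_map (q : PMF α) (f : α → β) (V : β → ℝ≥0∞) :
    E (q.map f) V = E q (fun a => V (f a)) := by
  rw [← PMF.bind_pure_comp, E_bind]
  simp [E_pure, Function.comp]

lemma E_mono (q : PMF α) {V W : α → ℝ≥0∞} (hVW : ∀ a, V a ≤ W a) : E q V ≤ E q W := by
  unfold E
  exact ENNReal.tsum_le_tsum fun a => by gcongr; exact hVW a

lemma E_const (q : PMF α) (c : ℝ≥0∞) : E q (fun _ => c) = c := by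
  unfold E
  rw [ENNReal.tsum_mul_right, PMF.tsum_coe, one_mul]

lemma E_add (q : PMF α) (V W : α → ℝ≥0∞) : E q (fun a => V a + W a) = E q V + E q W := by
  unfold E
  simp_rw [mul_add]
  rw [ENNReal.tsum_add]

lemma coin_true {p : ℝ} (h0 : 0 ≤ p) (h1 : p ≤ 1) : coin p true = ENNReal.ofReal p := by
  simp [coin, PMF.ofFintype_apply, min_eq_left h1, max_eq_right h0]

lemma coin_false {p : ℝ} (h0 : 0 ≤ p) (h1 : p ≤ 1) : coin p false = ENNReal.ofReal (1 - p) := by
  simp [coin, PMF.ofFintype_apply, min_eq_left h1, max_eq_right h0]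

lemma E_coin {p : ℝ} (h0 : 0 ≤ p) (h1 : p ≤ 1) (V : Bool → ℝ≥0∞) :
    E (coin p) V = ENNReal.ofReal p * V true + ENNReal.ofReal (1 - p) * V false := by
  unfold E
  rw [tsum_fintype, Fintype.sum_bool, coin_true h0 h1, coin_false h0 h1]

/-- splitting an expectation according to `B = 1` -/
lemma E_ite_one (q : PMF ℕ) (a b : ℝ≥0∞) :
    E q (fun B => if B = 1 then a else b) = q 1 * a + (1 - q 1) * b := by
  unfold E
  have hq : ∑' B, q B = 1 := q.tsum_coe
  have h1 : ∀ B, q B * (if B = 1 then a else b)
      = (if B = 1 then q 1 * a else 0) + (if B = 1 then 0 else q B) * b := by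
    intro B
    split_ifs with h
    · simp [h]
    · simp
  simp_rw [h1]
  rw [ENNReal.tsum_add, ENNReal.tsum_mul_right]
  have h2 : ∑' B, (if B = 1 then q 1 * a else 0) = q 1 * a := by
    rw [tsum_eq_single 1]
    · simp
    · intro b hb; simp [hb]
  have h3 : ∑' B, (if B = 1 then 0 else q B) = 1 - q 1 := by
    have h4 : ∑' B, q B = q 1 + ∑' B, (if B = 1 then 0 else q B) := by
      rw [ENNReal.tsum_eq_add_tsum_ite 1]
      congr 1
      refine tsum_congr fun x => ?_
      by_cases hx : x = 1 <;> simp [hx]
    rw [hq] at h4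
    rw [h4, ENNReal.add_sub_cancel_left]
    exact PMF.apply_ne_top q 1
  rw [h2, h3]

/-- the probability that nobody sends -/
lemma sent_zero {p : ℝ} (h0 : 0 ≤ p) (h1 : p ≤ 1) (n : ℕ) :
    sent p n 0 = ENNReal.ofReal ((1 - p) ^ n) := by
  induction n with
  | zero => simp [sent]
  | succ n ih =>
    have : sent p (n + 1) 0 = E (sent p (n+1)) (fun k => if k = 0 then 1 else 0) := by
      unfold E
      rw [tsum_eq_single 0]
      · simp
      · intro b hb; simp [hb]
    rw [this]
    have h4 : E (sent p n) (fun k => if k = 0 then 1 else 0) = sent p n 0 := by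
      unfold E
      rw [tsum_eq_single 0]
      · simp
      · intro b hb; simp [hb]
    have h5 : E (sent p n) (fun k => if k + 1 = 0 then (1 : ℝ≥0∞) else 0) = 0 := by
      unfold E; simp
    simp only [sent, E_bind, E_map]
    rw [E_coin h0 h1]
    simp only [if_true, Bool.false_eq_true, if_false, add_zero]
    rw [h4, h5, ih, mul_zero, zero_add, ← ENNReal.ofReal_mul (by linarith), pow_succ, mul_comm]

/-- the probability that exactly one of the `n` messages is sent is `n p (1-p)^(n-1)` -/
lemma sent_one {p : ℝ} (h0 : 0 ≤ p) (h1 : p ≤ 1) (n : ℕ) :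
    sent p n 1 = ENNReal.ofReal (n * p * (1 - p) ^ (n - 1)) := by
  induction n with
  | zero => simp [sent]
  | succ n ih =>
    have : sent p (n + 1) 1 = E (sent p (n+1)) (fun k => if k = 1 then 1 else 0) := by
      unfold E
      rw [tsum_eq_single 1]
      · simp
      · intro b hb; simp [hb]
    rw [this]
    have h4 : E (sent p n) (fun k => if k = 1 then 1 else 0) = sent p n 1 := by
      unfold E
      rw [tsum_eq_single 1]
      · simp
      · intro b hb; simp [hb]
    have h5 : E (sent p n) (fun k => if k + 1 = 1 then (1 : ℝ≥0∞) else 0) = sent p n 0 := by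
      unfold E
      rw [tsum_eq_single 0]
      · simp
      · intro b hb; simp [hb]
    simp only [sent, E_bind, E_map]
    rw [E_coin h0 h1]
    simp only [if_true, Bool.false_eq_true, if_false, add_zero]
    rw [h4, h5, ih, sent_zero h0 h1, ← ENNReal.ofReal_mul h0, ← ENNReal.ofReal_mul (by linarith),
      ← ENNReal.ofReal_add]
    · congr 1
      rcases n with _ | n
      · simp
      · simp only [Nat.add_sub_cancel]
        push_cast
        ring
    · have : (0:ℝ) ≤ 1 - p := by linarith
      positivity
    · have : (0:ℝ) ≤ 1 - p := by linarith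
      positivity

end Pool.Agent.H98.Aloha
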