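import Mathlib

open scoped Topology
open Filter Set

namespace Pool.Agent.H98.Aloha

/-- probability of exactly one success among `N` trials -/
noncomputable def g (N : ℕ) (p : ℝ) : ℝ := N * p * (1 - p) ^ (N - 1)

lemma g_nonneg {N : ℕ} {p : ℝ} (h0 : 0 ≤ p) (h1 : p ≤ 1) : 0 ≤ g N p := by
  unfold g
  have : (0:ℝ) ≤ 1 - p := by linarith
  positivity

lemma binom_term_le_one {N k : ℕ} (hk : k ≤ N) {p : ℝ} (h0 : 0 ≤ p) (h1 : p ≤ 1) :
    p ^ k * (1 - p) ^ (N - k) * (N.choose k) ≤ 1 := by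
  have h := add_pow p (1 - p) N
  have e : p + (1 - p) = 1 := by ring
  rw [e, one_pow] at h
  have h1' : (0:ℝ) ≤ 1 - p := by linarith
  have h2 : p ^ k * (1 - p) ^ (N - k) * (N.choose k)
      ≤ ∑ m ∈ Finset.range (N + 1), p ^ m * (1 - p) ^ (N - m) * (N.choose m : ℝ) := by
    refine Finset.single_le_sum (f := fun m => p ^ m * (1 - p) ^ (N - m) * (N.choose m : ℝ)) ?_ ?_
    · intro i _
      positivity
    · simp; omega
  linarith

lemma g_le_one {N : ℕ} {p : ℝ} (h0 : 0 ≤ p) (h1 : p ≤ 1) : g N p ≤ 1 := by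
  rcases Nat.eq_zero_or_pos N with rfl | hN
  · simp [g]
  have := binom_term_le_one (N := N) (k := 1) hN h0 h1
  unfold g
  simp only [pow_one, Nat.choose_one_right] at this
  linarith

lemma g_le {N : ℕ} {p : ℝ} (h0 : 0 ≤ p) (h1 : p ≤ 1) : g N p ≤ N * p := by
  unfold g
  have h1' : (0:ℝ) ≤ 1 - p := by linarith
  have : (1 - p) ^ (N - 1) ≤ 1 := pow_le_one₀ h1' (by linarith)
  have h2 : (0:ℝ) ≤ N * p := by positivity
  nlinarith

lemma two_term {N : ℕ} {p : ℝ} (h0 : 0 ≤ p) (h1 : p ≤ 1) (hN : 2 ≤ N) :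
    (N:ℝ) * (N - 1) * p ^ 2 * (1 - p) ^ (N - 2) ≤ 2 := by
  have := binom_term_le_one (N := N) (k := 2) hN h0 h1
  rw [Nat.cast_choose_two] at this
  linarith

lemma g0_le {N : ℕ} {p e : ℝ} (h0 : 0 ≤ p) (h1 : p ≤ 1) (he0 : 0 < e) (he1 : e ≤ 1 / 2) :
    g N ((1 - e) * p) ≤ g N p + 8 * e := by
  have hp0 : 0 ≤ (1 - e) * p := by nlinarith
  have hp1 : (1 - e) * p < 1 := by nlinarith
  rcases Nat.lt_or_ge N 2 with hN | hN
  · interval_cases N
    · simp [g]; linarith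
    · simp [g]; nlinarith
  set q := (1 - e) * p with hq
  have hq1 : (0:ℝ) < 1 - q := by linarith
  have hN' : (1:ℝ) ≤ (N:ℝ) - 1 := by
    have : (2:ℝ) ≤ N := by exact_mod_cast hN
    linarith
  -- Bernoulli
  have hx : (1 - p) / (1 - q) = 1 + -((p - q) / (1 - q)) := by
    field_simp; ring
  have hpq : 0 ≤ p - q := by rw [hq]; nlinarith
  have hx1 : (p - q) / (1 - q) ≤ 1 := by
    rw [div_le_one hq1]; linarith
  have hx0 : 0 ≤ (p - q) / (1 - q) := div_nonneg hpq hq1.le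
  have hB : 1 + ((N - 1 : ℕ) : ℝ) * (-((p - q) / (1 - q))) ≤ (1 + -((p - q) / (1 - q))) ^ (N - 1) :=
    one_add_mul_le_pow (by linarith) (N - 1)
  rw [← hx, div_pow] at hB
  have hcast : ((N - 1 : ℕ) : ℝ) = (N:ℝ) - 1 := by
    rw [Nat.cast_sub (by omega)]; simp
  rw [hcast] at hB
  have hpow : (0:ℝ) < (1 - q) ^ (N - 1) := by positivity
  rw [le_div_iff₀ hpow] at hB
  have hsplit : (1 - q) ^ (N - 1) = (1 - q) * (1 - q) ^ (N - 2) := by
    rw [← pow_succ']; congr 1; omega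
  have hkey : (1 - q) ^ (N - 1) - ((N:ℝ) - 1) * (p - q) * (1 - q) ^ (N - 2) ≤ (1 - p) ^ (N - 1) := by
    refine le_trans (le_of_eq ?_) hB
    rw [hsplit]
    field_simp
    ring
  have h2 := two_term (N := N) hp0 hp1.le hN
  unfold g
  have hNp : (0:ℝ) ≤ N * p := by positivity
  have h3 := mul_le_mul_of_nonneg_left hkey hNp
  have hpowge : (0:ℝ) ≤ (1 - q) ^ (N - 2) := by positivity
  have h4 : (N:ℝ) * q * (1 - q) ^ (N - 1) ≤ N * p * (1 - q) ^ (N - 1) := by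
    have : (0:ℝ) ≤ N * (1 - q) ^ (N - 1) := by positivity
    nlinarith
  -- p ≤ 2 q
  have hp2q : p ≤ 2 * q := by rw [hq]; nlinarith
  have hpe : p - q = e * p := by rw [hq]; ring
  have hNN : (0:ℝ) ≤ N * ((N:ℝ) - 1) * (1 - q) ^ (N - 2) := by
    have : (0:ℝ) ≤ (N:ℝ) - 1 := by linarith
    positivity
  have h5 : p ^ 2 ≤ 4 * q ^ 2 := by nlinarith
  have h6 : N * p * (((N:ℝ) - 1) * (p - q) * (1 - q) ^ (N - 2)) ≤ 8 * e := by
    rw [hpe]
    calc N * p * (((N:ℝ) - 1) * (e * p) * (1 - q) ^ (N - 2))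
        = e * (N * ((N:ℝ) - 1) * (1 - q) ^ (N - 2)) * p ^ 2 := by ring
      _ ≤ e * (N * ((N:ℝ) - 1) * (1 - q) ^ (N - 2)) * (4 * q ^ 2) := by
          apply mul_le_mul_of_nonneg_left h5; positivity
      _ = 4 * e * ((N:ℝ) * (N - 1) * q ^ 2 * (1 - q) ^ (N - 2)) := by ring
      _ ≤ 4 * e * 2 := by apply mul_le_mul_of_nonneg_left h2; positivity
      _ = 8 * e := by ring
  nlinarith

/-- second difference of the square root -/
lemma sqrt_second_diff {x t : ℝ} (hx : 0 < x) (ht0 : 0 ≤ t) (ht : t ≤ x) :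
    √(x + t) + √(x - t) ≤ 2 * √x - t ^ 2 / (4 * (x * √x)) := by
  have hs : 0 < √x := Real.sqrt_pos.mpr hx
  have hss : √x * √x = x := Real.mul_self_sqrt hx.le
  have ha : √(x + t) ^ 2 = x + t := Real.sq_sqrt (by linarith)
  have hc : √(x - t) ^ 2 = x - t := Real.sq_sqrt (by linarith)
  have hac : √(x + t) * √(x - t) ≤ x - t ^ 2 / (2 * x) := by
    have h1 : 0 ≤ x - t ^ 2 / (2 * x) := by
      have : t ^ 2 / (2 * x) ≤ x := by
        rw [div_le_iff₀ (by linarith)]; nlinarith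
      linarith
    apply le_of_sq_le_sq _ h1
    rw [mul_pow, ha, hc]
    have h2 : (x - t ^ 2 / (2 * x)) ^ 2 = x ^ 2 - t ^ 2 + (t ^ 2 / (2 * x)) ^ 2 := by
      field_simp; ring
    rw [h2]
    nlinarith [sq_nonneg (t ^ 2 / (2 * x))]
  have hr : 0 ≤ 2 * √x - t ^ 2 / (4 * (x * √x)) := by
    have : t ^ 2 / (4 * (x * √x)) ≤ 2 * √x := by
      rw [div_le_iff₀ (by positivity)]
      have : 2 * √x * (4 * (x * √x)) = 8 * x * (√x * √x) := by ring
      rw [this, hss]; nlinarith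
    linarith
  apply le_of_sq_le_sq _ hr
  have h3 : (2 * √x - t ^ 2 / (4 * (x * √x))) ^ 2
      = 4 * x - t ^ 2 / x + (t ^ 2 / (4 * (x * √x))) ^ 2 := by
    have : (2 * √x - t ^ 2 / (4 * (x * √x))) ^ 2
      = 4 * (√x * √x) - t ^ 2 / x * (√x / √x) + (t ^ 2 / (4 * (x * √x))) ^ 2 := by
      field_simp; ring
    rw [this, hss, div_self hs.ne', mul_one]
  rw [h3]
  have h4 : (√(x + t) + √(x - t)) ^ 2 = 2 * x + 2 * (√(x + t) * √(x - t)) := by
    have : (√(x + t) + √(x - t)) ^ 2 = √(x + t) ^ 2 + √(x - t) ^ 2 + 2 * (√(x + t) * √(x - t)) := by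
      ring
    rw [this, ha, hc]; ring
  rw [h4]
  have h5 : t ^ 2 / (2 * x) = (t ^ 2 / x) / 2 := by field_simp
  rw [h5] at hac
  nlinarith [sq_nonneg (t ^ 2 / (4 * (x * √x)))]

lemma sqrt_diff {x t : ℝ} (hx : 0 < x) (ht0 : 0 ≤ t) : √(x + t) - √x ≤ t / (2 * √x) := by
  have hs : 0 < √x := Real.sqrt_pos.mpr hx
  have hss : √x * √x = x := Real.mul_self_sqrt hx.le
  have h : √(x + t) ≤ √x + t / (2 * √x) := by
    rw [Real.sqrt_le_left (by positivity)]
    have : (√x + t / (2 * √x)) ^ 2 = √x * √x + t * (√x / √x) + (t / (2 * √x)) ^ 2 := by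
      field_simp; ring
    rw [this, hss, div_self hs.ne']
    nlinarith [sq_nonneg (t / (2 * √x))]
  linarith

/-- an algebraic identity -/
lemma core_id (g0 g1 K u0 u1 u r1 r2 r w Z : ℝ) :
    g0 / 2 * (r1 + K * u0 * r2) + g1 / 2 * (r1 + K * u1 * r2) + (1 - (g0 + g1) / 2) * Z
      - (r + K * u * w)
      = (g0 + g1) / 2 * (r1 - r) + K * ((g0 * (u0 - u) + g1 * (u1 - u)) / 2 * r2)
        + K * ((g0 + g1) / 2 * u) * (r2 - w) + (1 - (g0 + g1) / 2) * (Z - r - K * u * w) := by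
  ring

/-- algebraic core of the drift estimate -/
lemma core {n g0 g1 K ρ e c u0 u1 u up : ℝ} (hn : 2 ≤ n) (hg0 : 0 ≤ g0) (hg1 : 0 ≤ g1)
    (hG1 : (g0 + g1) / 2 ≤ 1) (hK : 0 ≤ K) (hρ0 : 0 ≤ ρ) (hρ1 : ρ ≤ 1)
    (hu : 0 ≤ u) (huup : u ≤ up) (he : 0 ≤ e) (hc : 0 ≤ c)
    (hA : (g0 * (u0 - u) + g1 * (u1 - u)) / 2 ≤ e - g1 * c)
    (hfin : 2 * ((g0 + g1) / 2) + K * (4 * e - g1 * c) + 3 * K * ((g0 + g1) / 2 * u / (n - 1))
      - ρ / 2 + (g0 + g1) / 2 * (ρ / 2) + K * (up - u) ≤ -(ρ / 4)) :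
    g0 / 2 * (1 / (n - 1) + K * u0 / (n - 1) ^ 2) + g1 / 2 * (1 / (n - 1) + K * u1 / (n - 1) ^ 2)
      + (1 - (g0 + g1) / 2) * ((1 - ρ) * (1 / n + K * up / n ^ 2)
        + ρ * (1 / (n + 1) + K * up / (n + 1) ^ 2))
      ≤ 1 / n + K * u / n ^ 2 - ρ / (4 * n ^ 2) := by
  set G := (g0 + g1) / 2 with hG
  have hG0 : 0 ≤ G := by positivity
  have hn1 : 0 < n - 1 := by linarith
  have hn0 : 0 < n := by linarith
  set w := 1 / n ^ 2 with hw
  have hw0 : 0 < w := by positivity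
  -- (a)
  have ha : 1 / (n - 1) - 1 / n ≤ 2 * w := by
    have : 1 / (n - 1) - 1 / n = 1 / (n * (n - 1)) := by field_simp; ring
    have h2 : 2 * w = 2 / n ^ 2 := by rw [hw]; ring
    rw [this, h2, div_le_div_iff₀ (by positivity) (by positivity)]
    nlinarith
  -- bounds on 1/(n-1)^2
  have hb1 : w ≤ 1 / (n - 1) ^ 2 := by
    rw [hw]; apply one_div_le_one_div_of_le (by positivity); nlinarith
  have hb2 : 1 / (n - 1) ^ 2 ≤ 4 * w := by
    have h2 : 4 * w = 4 / n ^ 2 := by rw [hw]; ring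
    rw [h2, div_le_div_iff₀ (by positivity) (by positivity)]
    nlinarith
  set A := (g0 * (u0 - u) + g1 * (u1 - u)) / 2 with hAdef
  have hbA : A * (1 / (n - 1) ^ 2) ≤ w * (4 * e - g1 * c) := by
    have hgc : 0 ≤ g1 * c := by positivity
    rcases le_total A 0 with hA0 | hA0
    · have h1 : A * (1 / (n - 1) ^ 2) ≤ A * w := by nlinarith
      nlinarith
    · have h1 : A * (1 / (n - 1) ^ 2) ≤ A * (4 * w) := by nlinarith
      nlinarith
  have hbu : 1 / (n - 1) ^ 2 - 1 / n ^ 2 ≤ 3 * w / (n - 1) := by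
    rw [hw]
    have : 1 / (n - 1) ^ 2 - 1 / n ^ 2 = (2 * n - 1) / (n ^ 2 * (n - 1) ^ 2) := by
      field_simp; ring
    rw [this]
    have h2 : 3 * (1 / n ^ 2) / (n - 1) = (3 * (n - 1)) / (n ^ 2 * (n - 1) ^ 2) := by
      field_simp
    rw [h2]
    apply div_le_div_of_nonneg_right _ (by positivity)
    linarith
  -- (c)
  have hc1 : (1 - ρ) * (1 / n + K * up / n ^ 2) + ρ * (1 / (n + 1) + K * up / (n + 1) ^ 2)
      - 1 / n - K * u / n ^ 2 ≤ w * (-(ρ / 2) + K * (up - u)) := by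
    have h1 : K * up / (n + 1) ^ 2 ≤ K * up / n ^ 2 := by
      apply div_le_div_of_nonneg_left (by nlinarith) (by positivity); nlinarith
    have h2 : ρ * (1 / (n + 1)) ≤ ρ * (1 / n - w / 2) := by
      apply mul_le_mul_of_nonneg_left _ hρ0
      have : 1 / n - 1 / (n + 1) = 1 / (n * (n + 1)) := by field_simp; ring
      have h3 : w / 2 ≤ 1 / (n * (n + 1)) := by
        rw [hw, div_div, div_le_div_iff₀ (by positivity) (by positivity)]
        nlinarith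
      linarith
    have h4 : ρ * (K * up / (n + 1) ^ 2) ≤ ρ * (K * up / n ^ 2) :=
      mul_le_mul_of_nonneg_left h1 hρ0
    have h5 : K * up / n ^ 2 = w * (K * up) := by rw [hw]; ring
    have h6 : K * u / n ^ 2 = w * (K * u) := by rw [hw]; ring
    rw [h5] at h4 ⊢
    rw [h6]
    have e1 : (1 - ρ) * (1 / n + w * (K * up)) + ρ * (1 / (n + 1) + K * up / (n + 1) ^ 2)
        - 1 / n - w * (K * u)
        = w * (K * up) - ρ * (1 / n) - ρ * (w * (K * up)) + ρ * (1 / (n + 1))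
          + ρ * (K * up / (n + 1) ^ 2) - w * (K * u) := by ring
    have e2 : w * (-(ρ / 2) + K * (up - u)) = w * (K * up) - ρ * (w / 2) - w * (K * u) := by ring
    have e3 : ρ * (1 / n - w / 2) = ρ * (1 / n) - ρ * (w / 2) := by ring
    rw [e1, e2]
    rw [e3] at h2
    linarith
  have htot : g0 / 2 * (1 / (n - 1) + K * u0 / (n - 1) ^ 2)
      + g1 / 2 * (1 / (n - 1) + K * u1 / (n - 1) ^ 2)
      + (1 - G) * ((1 - ρ) * (1 / n + K * up / n ^ 2) + ρ * (1 / (n + 1) + K * up / (n + 1) ^ 2))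
      - (1 / n + K * u / n ^ 2)
      = G * (1 / (n - 1) - 1 / n) + K * (A * (1 / (n - 1) ^ 2))
        + K * (G * u) * (1 / (n - 1) ^ 2 - 1 / n ^ 2)
        + (1 - G) * ((1 - ρ) * (1 / n + K * up / n ^ 2) + ρ * (1 / (n + 1) + K * up / (n + 1) ^ 2)
          - 1 / n - K * u / n ^ 2) := by
    have := core_id g0 g1 K u0 u1 u (1 / (n - 1)) (1 / (n - 1) ^ 2) (1 / n) (1 / n ^ 2)
      ((1 - ρ) * (1 / n + K * up / n ^ 2) + ρ * (1 / (n + 1) + K * up / (n + 1) ^ 2))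
    rw [← hG, ← hAdef] at this
    simp only [mul_one_div] at this ⊢
    exact this
  have hsum : G * (1 / (n - 1) - 1 / n) + K * (A * (1 / (n - 1) ^ 2))
        + K * (G * u) * (1 / (n - 1) ^ 2 - 1 / n ^ 2)
        + (1 - G) * ((1 - ρ) * (1 / n + K * up / n ^ 2) + ρ * (1 / (n + 1) + K * up / (n + 1) ^ 2)
          - 1 / n - K * u / n ^ 2)
      ≤ G * (2 * w) + K * (w * (4 * e - g1 * c)) + K * (G * u) * (3 * w / (n - 1))
        + (1 - G) * (w * (-(ρ / 2) + K * (up - u))) := by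
    have hG1' : 0 ≤ 1 - G := by linarith
    have hKG : 0 ≤ K * (G * u) := by positivity
    exact add_le_add (add_le_add (add_le_add (mul_le_mul_of_nonneg_left ha hG0)
      (mul_le_mul_of_nonneg_left hbA hK)) (mul_le_mul_of_nonneg_left hbu hKG))
      (mul_le_mul_of_nonneg_left hc1 hG1')
  have hlast : G * (2 * w) + K * (w * (4 * e - g1 * c)) + K * (G * u) * (3 * w / (n - 1))
        + (1 - G) * (w * (-(ρ / 2) + K * (up - u)))
      ≤ w * (-(ρ / 4)) := by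
    have e1 : G * (2 * w) + K * (w * (4 * e - g1 * c)) + K * (G * u) * (3 * w / (n - 1))
        + (1 - G) * (w * (-(ρ / 2) + K * (up - u)))
        = w * (2 * G + K * (4 * e - g1 * c) + 3 * K * (G * u / (n - 1))
          + (1 - G) * (-(ρ / 2) + K * (up - u))) := by
      ring
    rw [e1]
    apply mul_le_mul_of_nonneg_left _ hw0.le
    have e2 : (1 - G) * (-(ρ / 2) + K * (up - u)) ≤ -(ρ / 2) + G * (ρ / 2) + K * (up - u) := by
      have : 0 ≤ G * (K * (up - u)) := by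
        apply mul_nonneg hG0; apply mul_nonneg hK; linarith
      linarith
    linarith
  have e3 : ρ / (4 * n ^ 2) = w * (ρ / 4) := by rw [hw]; field_simp
  rw [e3]
  linarith

end Pool.Agent.H98.Aloha
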