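import Mathlib
import Pool.Agent.H98.AlohaReal

open scoped Topology
open Filter Set

namespace Pool.Agent.H98.Aloha

/-- the step function `h(x) = x^(3/4) - 1` -/
noncomputable def hh (x : ℝ) : ℝ := x ^ (3 / 4 : ℝ) - 1

/-- the perturbation `ε(x) = x^(-1/3) / 2` -/
noncomputable def ee (x : ℝ) : ℝ := x ^ (-(1 / 3) : ℝ) / 2

lemma hh_nonneg {x : ℝ} (hx : 1 ≤ x) : 0 ≤ hh x := by
  unfold hh
  have := Real.one_le_rpow hx (by norm_num : (0:ℝ) ≤ 3 / 4)
  linarith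

lemma rpow_le_self' {x : ℝ} (hx : 1 ≤ x) : x ^ (3 / 4 : ℝ) ≤ x := by
  calc x ^ (3 / 4 : ℝ) ≤ x ^ (1 : ℝ) := Real.rpow_le_rpow_of_exponent_le hx (by norm_num)
    _ = x := Real.rpow_one x

lemma hh_le {x : ℝ} (hx : 1 ≤ x) : hh x ≤ x - 1 := by
  unfold hh
  have := rpow_le_self' hx
  linarith

lemma ee_pos {x : ℝ} (hx : 1 ≤ x) : 0 < ee x := by
  unfold ee
  have : 0 < x ^ (-(1 / 3) : ℝ) := Real.rpow_pos_of_pos (by linarith) _
  positivity

lemma ee_le {x : ℝ} (hx : 1 ≤ x) : ee x ≤ 1 / 2 := by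
  unfold ee
  have : x ^ (-(1 / 3) : ℝ) ≤ 1 := Real.rpow_le_one_of_one_le_of_nonpos hx (by norm_num)
  linarith

/-- success probability when `I = 0` -/
noncomputable def g0 (N : ℕ) (S : ℝ) : ℝ := g N ((1 - ee S) / S)

/-- success probability when `I = 1` -/
noncomputable def g1 (N : ℕ) (S : ℝ) : ℝ := g N (1 / S)

lemma p1_mem {S : ℝ} (hS : 1 ≤ S) : 0 ≤ 1 / S ∧ 1 / S ≤ 1 := by
  constructor
  · positivity
  · rw [div_le_one (by linarith)]; exact hS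

lemma p0_mem {S : ℝ} (hS : 1 ≤ S) : 0 ≤ (1 - ee S) / S ∧ (1 - ee S) / S ≤ 1 := by
  have h1 := ee_pos hS
  have h2 := ee_le hS
  constructor
  · apply div_nonneg <;> linarith
  · rw [div_le_one (by linarith)]; linarith

lemma p0_le_p1 {S : ℝ} (hS : 1 ≤ S) : (1 - ee S) / S ≤ 1 / S := by
  have h1 := ee_pos hS
  apply div_le_div_of_nonneg_right _ (by linarith)
  linarith

lemma g0_nonneg {N : ℕ} {S : ℝ} (hS : 1 ≤ S) : 0 ≤ g0 N S :=
  g_nonneg (p0_mem hS).1 (p0_mem hS).2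

lemma g1_nonneg {N : ℕ} {S : ℝ} (hS : 1 ≤ S) : 0 ≤ g1 N S :=
  g_nonneg (p1_mem hS).1 (p1_mem hS).2

lemma g0_le_one {N : ℕ} {S : ℝ} (hS : 1 ≤ S) : g0 N S ≤ 1 :=
  g_le_one (p0_mem hS).1 (p0_mem hS).2

lemma g1_le_one {N : ℕ} {S : ℝ} (hS : 1 ≤ S) : g1 N S ≤ 1 :=
  g_le_one (p1_mem hS).1 (p1_mem hS).2

lemma g1_le_div {N : ℕ} {S : ℝ} (hS : 1 ≤ S) : g1 N S ≤ N / S := by
  have := g_le (N := N) (p1_mem hS).1 (p1_mem hS).2
  unfold g1
  calc g N (1 / S) ≤ N * (1 / S) := this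
    _ = N / S := by ring

lemma g0_le_div {N : ℕ} {S : ℝ} (hS : 1 ≤ S) : g0 N S ≤ N / S := by
  have := g_le (N := N) (p0_mem hS).1 (p0_mem hS).2
  unfold g0
  calc g N ((1 - ee S) / S) ≤ N * ((1 - ee S) / S) := this
    _ ≤ N * (1 / S) := by
        apply mul_le_mul_of_nonneg_left (p0_le_p1 hS); positivity
    _ = N / S := by ring

lemma g0_le_g1 {N : ℕ} {S : ℝ} (hS : 1 ≤ S) : g0 N S ≤ g1 N S + 8 * ee S := by
  have := g0_le (N := N) (p1_mem hS).1 (p1_mem hS).2 (ee_pos hS) (ee_le hS)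
  unfold g0 g1
  have e : (1 - ee S) / S = (1 - ee S) * (1 / S) := by ring
  rw [e]; exact this

/-- average of `f` over the next state, when at most one new message arrives -/
noncomputable def T (C ρ : ℝ) (f : ℕ → ℝ → ℝ) (N : ℕ) (S : ℝ) : ℝ :=
  g0 N S / 2 * f (N - 1) (S + hh S) + g1 N S / 2 * f (N - 1) (S - hh S)
    + (1 - (g0 N S + g1 N S) / 2) * ((1 - ρ) * f N (S + C) + ρ * f (N + 1) (S + C))

lemma T_mono {C ρ : ℝ} (hρ0 : 0 ≤ ρ) (hρ1 : ρ ≤ 1) {f f' : ℕ → ℝ → ℝ}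
    (hff : ∀ N S, f N S ≤ f' N S) {N : ℕ} {S : ℝ} (hS : 1 ≤ S) : T C ρ f N S ≤ T C ρ f' N S := by
  unfold T
  have h0 := g0_nonneg (N := N) hS
  have h1 := g1_nonneg (N := N) hS
  have h0' := g0_le_one (N := N) hS
  have h1' := g1_le_one (N := N) hS
  have h2 : 0 ≤ 1 - (g0 N S + g1 N S) / 2 := by linarith
  have h3 : 0 ≤ 1 - ρ := by linarith
  gcongr <;> apply hff

/-- first Lyapunov function -/
noncomputable def V1 (K b : ℝ) (N : ℕ) (S : ℝ) : ℝ :=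
  1 / ((N:ℝ) + 1) + K * √(S + b) / ((N:ℝ) + 1) ^ 2

/-- second Lyapunov function -/
noncomputable def V2 (K : ℝ) (N : ℕ) (_S : ℝ) : ℝ := (1 + K) / ((N:ℝ) + 1)

lemma drift1_at {C ρ K b : ℝ} (hC : 0 < C) (hρ0 : 0 < ρ) (hρ1 : ρ ≤ 1) (hK : 0 ≤ K)
    {N : ℕ} (hN : 1 ≤ N) {S : ℝ} (hS : 1 ≤ S) {e c : ℝ} (he : 0 ≤ e) (hc : 0 ≤ c)
    (hA : (g0 N S * (√(S + hh S + b) - √(S + b)) + g1 N S * (√(S - hh S + b) - √(S + b))) / 2
      ≤ e - g1 N S * c)
    (hfin : 2 * ((g0 N S + g1 N S) / 2) + K * (4 * e - g1 N S * c)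
      + 3 * K * ((g0 N S + g1 N S) / 2 * √(S + b) / N)
      - ρ / 2 + (g0 N S + g1 N S) / 2 * (ρ / 2) + K * (√(S + C + b) - √(S + b)) ≤ -(ρ / 4)) :
    T C ρ (V1 K b) N S ≤ V1 K b N S - ρ / (4 * ((N:ℝ) + 1) ^ 2) := by
  have hN' : (1:ℝ) ≤ N := by exact_mod_cast hN
  have hn : (2:ℝ) ≤ (N:ℝ) + 1 := by linarith
  have hcast : ((N - 1 : ℕ) : ℝ) = (N:ℝ) - 1 := by
    rw [Nat.cast_sub hN]; simp
  have hup : √(S + b) ≤ √(S + C + b) := Real.sqrt_le_sqrt (by linarith)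
  have hG : (g0 N S + g1 N S) / 2 ≤ 1 := by
    have := g0_le_one (N := N) hS
    have := g1_le_one (N := N) hS
    linarith
  have hn1 : (N:ℝ) + 1 - 1 = N := by ring
  have := core (n := (N:ℝ) + 1) (K := K) (ρ := ρ) (e := e) (c := c) (u0 := √(S + hh S + b))
    (u1 := √(S - hh S + b)) (u := √(S + b)) (up := √(S + C + b)) hn (g0_nonneg hS) (g1_nonneg hS)
    hG hK hρ0.le hρ1 (Real.sqrt_nonneg _) hup he hc hA (by rw [hn1]; exact hfin)
  unfold T V1
  rw [hn1] at this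
  rw [hcast]
  have e1 : (N:ℝ) - 1 + 1 = N := by ring
  rw [e1]
  push_cast
  exact this

/-- splitting of the drift of the square root -/
lemma split_A {g0 g1 d0 d1 ε' : ℝ} (h01 : g0 ≤ g1 + 8 * ε') (hd0 : 0 ≤ d0) :
    (g0 * d0 + g1 * d1) / 2 ≤ g1 * (d0 + d1) / 2 + 4 * ε' * d0 := by
  nlinarith

lemma big_case {C ρ b : ℝ} (hC : 0 < C) (hρ0 : 0 < ρ) (hρ1 : ρ ≤ 1) (hb : 1 ≤ b) :
    ∃ S0 : ℝ, 1 ≤ S0 ∧ ∀ N : ℕ, 1 ≤ N → ∀ S : ℝ, S0 ≤ S →
      T C ρ (V1 300 b) N S ≤ V1 300 b N S - ρ / (4 * ((N:ℝ) + 1) ^ 2) := by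
  -- the error terms tend to zero
  have hlim : Tendsto (fun S : ℝ => 5 * S ^ (-(1 / 3) : ℝ) + 1200 * S ^ (-(1 / 12) : ℝ)
      + (1800 + 300 * C) * S ^ (-(1 / 2) : ℝ)) atTop (𝓝 0) := by
    have h1 := tendsto_rpow_neg_atTop (by norm_num : (0:ℝ) < 1 / 3)
    have h2 := tendsto_rpow_neg_atTop (by norm_num : (0:ℝ) < 1 / 12)
    have h3 := tendsto_rpow_neg_atTop (by norm_num : (0:ℝ) < 1 / 2)
    have := ((h1.const_mul 5).add (h2.const_mul 1200)).add (h3.const_mul (1800 + 300 * C))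
    simpa using this
  have hev : ∀ᶠ S : ℝ in atTop, 5 * S ^ (-(1 / 3) : ℝ) + 1200 * S ^ (-(1 / 12) : ℝ)
      + (1800 + 300 * C) * S ^ (-(1 / 2) : ℝ) < ρ / 4 :=
    (tendsto_order.1 hlim).2 _ (by positivity)
  obtain ⟨S1, hS1⟩ := eventually_atTop.1 hev
  refine ⟨max S1 (max b 3), le_max_of_le_right (le_max_of_le_left hb), ?_⟩
  intro N hN S hS
  have hS1' : S1 ≤ S := le_trans (le_max_left _ _) hS
  have hSb : b ≤ S := le_trans (le_max_left _ _) (le_trans (le_max_right _ _) hS)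
  have hS3 : 3 ≤ S := le_trans (le_max_right _ _) (le_trans (le_max_right _ _) hS)
  have hSone : 1 ≤ S := by linarith
  have hSpos : 0 < S := by linarith
  have hN' : (1:ℝ) ≤ N := by exact_mod_cast hN
  set x := S + b with hx
  have hxpos : 0 < x := by linarith
  have hx1 : 1 ≤ x := by linarith
  set t := hh S with ht
  have ht0 : 0 ≤ t := hh_nonneg hSone
  have htle : t ≤ S - 1 := hh_le hSone
  set s := √x with hs
  have hs0 : 0 < s := Real.sqrt_pos.mpr hxpos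
  have hss : s * s = x := Real.mul_self_sqrt hxpos.le
  -- powers of S
  set r := S ^ (1 / 4 : ℝ) with hr
  have hr0 : 0 < r := Real.rpow_pos_of_pos hSpos _
  have hr4 : r ^ 4 = S := by
    rw [hr, ← Real.rpow_natCast, ← Real.rpow_mul hSpos.le]; norm_num
  have hr3 : S ^ (3 / 4 : ℝ) = r ^ 3 := by
    rw [hr, ← Real.rpow_natCast, ← Real.rpow_mul hSpos.le]; norm_num
  have htr : t = r ^ 3 - 1 := by rw [ht, hh, hr3]
  have hr3ge : 2 ≤ r ^ 3 := by
    by_contra hcon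
    push Not at hcon
    have h1 : (r ^ 3) ^ 4 < 2 ^ 4 := by gcongr
    have h2 : (r ^ 3) ^ 4 = S ^ 3 := by rw [← hr4]; ring
    rw [h2] at h1
    have : (3:ℝ) ^ 3 ≤ S ^ 3 := by gcongr
    norm_num at this h1
    linarith
  have ht2 : r ^ 6 / 4 ≤ t ^ 2 := by
    rw [htr]
    have : (r ^ 3 / 2) ^ 2 ≤ (r ^ 3 - 1) ^ 2 := by
      apply pow_le_pow_left₀ (by positivity); linarith
    calc r ^ 6 / 4 = (r ^ 3 / 2) ^ 2 := by ring
      _ ≤ _ := this
  have hrr : r ^ 2 ≤ s := by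
    rw [hs]; apply Real.le_sqrt_of_sq_le
    calc (r ^ 2) ^ 2 = r ^ 4 := by ring
      _ = S := hr4
      _ ≤ x := by linarith
  have hs2 : s ≤ 3 / 2 * r ^ 2 := by
    rw [hs, Real.sqrt_le_left (by positivity)]
    calc x ≤ 2 * S := by linarith
      _ = 2 * r ^ 4 := by rw [hr4]
      _ ≤ (3 / 2 * r ^ 2) ^ 2 := by nlinarith [pow_pos hr0 4]
  have hxs : x * s ≤ 3 * r ^ 6 := by
    calc x * s ≤ (2 * r ^ 4) * (3 / 2 * r ^ 2) := by
          apply mul_le_mul _ hs2 hs0.le (by positivity)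
          rw [hr4]; linarith
      _ = 3 * r ^ 6 := by ring
  have hxs0 : 0 < x * s := by positivity
  -- the coefficient c
  have hc : 1 / 96 ≤ t ^ 2 / (8 * (x * s)) := by
    rw [div_le_div_iff₀ (by norm_num) (by positivity)]
    nlinarith
  have h01 := g0_le_g1 (N := N) hSone
  have hg0 := g0_nonneg (N := N) hSone
  have hg1 := g1_nonneg (N := N) hSone
  have hsd := sqrt_second_diff hxpos ht0 (by linarith : t ≤ x)
  have hd0 : 0 ≤ √(S + t + b) - s := by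
    rw [hs, sub_nonneg]; apply Real.sqrt_le_sqrt; linarith
  have hd0' : √(S + t + b) - s ≤ t / (2 * s) := by
    have := sqrt_diff hxpos ht0
    have e1 : S + t + b = x + t := by rw [hx]; ring
    rw [e1]; exact this
  have hee0 := ee_pos hSone
  set e := 2 * ee S * t / s with he
  have he0 : 0 ≤ e := by rw [he]; positivity
  -- size of e
  have hee : ee S = S ^ (-(1 / 3) : ℝ) / 2 := rfl
  have hele : e ≤ S ^ (-(1 / 12) : ℝ) := by
    have h1 : S ^ (-(1 / 12) : ℝ) = S ^ (-(1 / 3) : ℝ) * r := by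
      rw [hr, ← Real.rpow_add hSpos]; norm_num
    rw [h1, he, hee]
    have h2 : 0 < S ^ (-(1 / 3) : ℝ) := Real.rpow_pos_of_pos hSpos _
    have h3 : t / s ≤ r := by
      rw [div_le_iff₀ hs0]
      calc t ≤ r ^ 3 := by rw [htr]; linarith
        _ = r * r ^ 2 := by ring
        _ ≤ r * s := by gcongr
    calc 2 * (S ^ (-(1 / 3) : ℝ) / 2) * t / s = S ^ (-(1 / 3) : ℝ) * (t / s) := by ring
      _ ≤ S ^ (-(1 / 3) : ℝ) * r := by gcongr
  have hhalf : S ^ (-(1 / 2) : ℝ) = 1 / r ^ 2 := by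
    have h1 : r ^ 2 = S ^ (1 / 2 : ℝ) := by
      rw [hr, ← Real.rpow_natCast, ← Real.rpow_mul hSpos.le]; norm_num
    rw [h1, Real.rpow_neg hSpos.le]
    exact (one_div _).symm
  have hAA : (g0 N S * (√(S + t + b) - s) + g1 N S * (√(S - t + b) - s)) / 2
      ≤ e - g1 N S * (t ^ 2 / (8 * (x * s))) := by
    have h1 := split_A (d1 := √(S - t + b) - s) h01 hd0
    refine le_trans h1 ?_
    have e1 : S + t + b = x + t := by rw [hx]; ring
    have e2 : S - t + b = x - t := by rw [hx]; ring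
    rw [e1] at hd0' hd0 ⊢
    rw [e2]
    have h2 : √(x + t) - s + (√(x - t) - s) ≤ -(t ^ 2 / (4 * (x * s))) := by linarith
    have h3 : g1 N S * (√(x + t) - s + (√(x - t) - s)) / 2
        ≤ g1 N S * (-(t ^ 2 / (4 * (x * s)))) / 2 := by gcongr
    have h4 : 4 * ee S * (√(x + t) - s) ≤ 4 * ee S * (t / (2 * s)) := by gcongr
    have h5 : 4 * ee S * (t / (2 * s)) = e := by rw [he]; field_simp; ring
    have h6 : g1 N S * (-(t ^ 2 / (4 * (x * s)))) / 2 = -(g1 N S * (t ^ 2 / (8 * (x * s)))) := by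
      field_simp; ring
    linarith
  refine drift1_at hC hρ0 hρ1 (by norm_num) hN hSone he0 (by positivity) hAA ?_
  -- final numerical estimate
  have hG : (g0 N S + g1 N S) / 2 ≤ g1 N S + 4 * ee S := by linarith
  have hGN : (g0 N S + g1 N S) / 2 ≤ N / S := by
    have := g0_le_div (N := N) hSone
    have := g1_le_div (N := N) hSone
    linarith
  have hterm3 : (g0 N S + g1 N S) / 2 * s / N ≤ 2 * (1 / r ^ 2) := by
    calc (g0 N S + g1 N S) / 2 * s / N ≤ N / S * s / N := by gcongr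
      _ = s / S := by field_simp
      _ ≤ (3 / 2 * r ^ 2) / S := by gcongr
      _ = (3 / 2) * (1 / r ^ 2) := by rw [← hr4]; field_simp
      _ ≤ 2 * (1 / r ^ 2) := by
          have : 0 < 1 / r ^ 2 := by positivity
          linarith
  have hterm4 : √(S + C + b) - s ≤ C * (1 / r ^ 2) := by
    have h1 := sqrt_diff hxpos hC.le
    have e1 : S + C + b = x + C := by rw [hx]; ring
    rw [e1]
    refine le_trans h1 ?_
    rw [← hs, mul_one_div]
    apply div_le_div_of_nonneg_left hC.le (by positivity)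
    nlinarith
  have hc' : g1 N S * (1 / 96) ≤ g1 N S * (t ^ 2 / (8 * (x * s))) := by gcongr
  have hfinal := hS1 S hS1'
  rw [hhalf] at hfinal
  have hee2 : 10 * ee S = 5 * S ^ (-(1 / 3) : ℝ) := by rw [hee]; ring
  have hGρ : (g0 N S + g1 N S) / 2 * (ρ / 2) ≤ (g0 N S + g1 N S) / 2 * (1 / 2) := by
    apply mul_le_mul_of_nonneg_left _ (by positivity); linarith
  linarith

lemma small_g {S0 : ℝ} (hS0 : 1 ≤ S0) {N : ℕ} {S : ℝ} (hS : 1 ≤ S) (hSS : S ≤ S0) :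
    (g0 N S + g1 N S) / 2 ≤ N * (1 - 1 / (2 * S0)) ^ (N - 1) := by
  have hp0 := p0_mem hS
  have hp1 := p1_mem hS
  have hee := ee_le hS
  have hl1 : 1 / (2 * S0) ≤ 1 / S := by
    apply one_div_le_one_div_of_le (by linarith); linarith
  have hl0 : 1 / (2 * S0) ≤ (1 - ee S) / S := by
    rw [div_le_div_iff₀ (by linarith) (by linarith)]
    nlinarith
  have key : ∀ p : ℝ, 0 ≤ p → p ≤ 1 → 1 / (2 * S0) ≤ p →
      g N p ≤ N * (1 - 1 / (2 * S0)) ^ (N - 1) := by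
    intro p h0 h1 h2
    unfold g
    have h3 : (1 - p) ^ (N - 1) ≤ (1 - 1 / (2 * S0)) ^ (N - 1) := by
      apply pow_le_pow_left₀ (by linarith); linarith
    have h4 : (0:ℝ) ≤ (1 - p) ^ (N - 1) := pow_nonneg (by linarith) _
    have h5 : (0:ℝ) ≤ N := Nat.cast_nonneg N
    calc (N:ℝ) * p * (1 - p) ^ (N - 1) ≤ N * 1 * (1 - p) ^ (N - 1) := by gcongr
      _ = N * (1 - p) ^ (N - 1) := by ring
      _ ≤ _ := by gcongr
  have h0 := key _ hp0.1 hp0.2 hl0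
  have h1 := key _ hp1.1 hp1.2 hl1
  unfold g0 g1
  linarith

lemma small_case {C ρ b S0 : ℝ} (hC : 0 < C) (hρ0 : 0 < ρ) (hρ1 : ρ ≤ 1) (hb : 1 ≤ b)
    (hbC : 300 * C / (2 * √b) ≤ ρ / 8) (hS0 : 1 ≤ S0) :
    ∃ N0 : ℕ, 1 ≤ N0 ∧ ∀ N : ℕ, N0 ≤ N → ∀ S : ℝ, 1 ≤ S → S ≤ S0 →
      T C ρ (V1 300 b) N S ≤ V1 300 b N S - ρ / (4 * ((N:ℝ) + 1) ^ 2) := by
  set q := 1 - 1 / (2 * S0) with hq
  have hq0 : 0 < q := by
    have : 1 / (2 * S0) < 1 := by rw [div_lt_one (by linarith)]; linarith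
    linarith
  have hq1 : q < 1 := by
    have : 0 < 1 / (2 * S0) := by positivity
    linarith
  have hlim : Tendsto (fun N : ℕ => (N:ℝ) * q ^ (N - 1)) atTop (𝓝 0) := by
    have h1 := tendsto_self_mul_const_pow_of_lt_one hq0.le hq1
    have h2 := h1.const_mul (1 / q)
    rw [mul_zero] at h2
    refine h2.congr' ?_
    filter_upwards [eventually_ge_atTop 1] with N hN
    have : q ^ N = q * q ^ (N - 1) := by rw [← pow_succ']; congr 1; omega
    rw [this]; field_simp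
  set L := 5 / 2 + 1200 * S0 + 900 * √(S0 + b) with hL
  have hL0 : 0 < L := by positivity
  have hev : ∀ᶠ N : ℕ in atTop, (N:ℝ) * q ^ (N - 1) < ρ / (8 * L) :=
    (tendsto_order.1 hlim).2 _ (by positivity)
  obtain ⟨N1, hN1⟩ := eventually_atTop.1 hev
  refine ⟨max N1 1, le_max_right _ _, ?_⟩
  intro N hN S hS hSS
  have hN1' : N1 ≤ N := le_trans (le_max_left _ _) hN
  have hN0 : 1 ≤ N := le_trans (le_max_right _ _) hN
  have hNr : (1:ℝ) ≤ N := by exact_mod_cast hN0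
  have hg0 := g0_nonneg (N := N) hS
  have hg1 := g1_nonneg (N := N) hS
  set G := (g0 N S + g1 N S) / 2 with hG
  have hG0 : 0 ≤ G := by positivity
  have hGδ : G ≤ ρ / (8 * L) := le_trans (small_g hS0 hS hSS) (hN1 N hN1').le
  have hGL : G * L ≤ ρ / 8 := by
    calc G * L ≤ ρ / (8 * L) * L := by gcongr
      _ = ρ / 8 := by field_simp
  have hxpos : 0 < S + b := by linarith
  have ht0 : 0 ≤ hh S := hh_nonneg hS
  have htle : hh S ≤ S - 1 := hh_le hS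
  have hs1 : 1 ≤ √(S + b) := by
    rw [Real.one_le_sqrt]; linarith
  have hd0 : √(S + hh S + b) - √(S + b) ≤ S0 := by
    have h1 := sqrt_diff hxpos ht0
    have e1 : S + hh S + b = S + b + hh S := by ring
    rw [e1]
    refine le_trans h1 ?_
    rw [div_le_iff₀ (by positivity)]
    nlinarith
  have hd1 : √(S - hh S + b) - √(S + b) ≤ 0 := by
    rw [sub_nonpos]; apply Real.sqrt_le_sqrt; linarith
  have hA : (g0 N S * (√(S + hh S + b) - √(S + b)) + g1 N S * (√(S - hh S + b) - √(S + b))) / 2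
      ≤ G * S0 - g1 N S * 0 := by
    have h1 : g0 N S * (√(S + hh S + b) - √(S + b)) ≤ g0 N S * S0 := by gcongr
    have h2 : g1 N S * (√(S - hh S + b) - √(S + b)) ≤ g1 N S * S0 := by
      apply mul_le_mul_of_nonneg_left _ hg1; linarith
    rw [hG]; linarith
  refine drift1_at hC hρ0 hρ1 (by norm_num) hN0 hS (by positivity : 0 ≤ G * S0) le_rfl hA ?_
  rw [← hG]
  have h3 : G * √(S + b) / N ≤ G * √(S0 + b) := by
    calc G * √(S + b) / N ≤ G * √(S + b) / 1 := by gcongr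
      _ = G * √(S + b) := by ring
      _ ≤ G * √(S0 + b) := by gcongr
  have h4 : 300 * (√(S + C + b) - √(S + b)) ≤ ρ / 8 := by
    have h1 := sqrt_diff hxpos hC.le
    have e1 : S + C + b = S + b + C := by ring
    rw [e1]
    refine le_trans ?_ hbC
    rw [mul_div_assoc]
    apply mul_le_mul_of_nonneg_left _ (by norm_num)
    refine le_trans h1 ?_
    apply div_le_div_of_nonneg_left hC.le
    · have : 0 < √b := Real.sqrt_pos.mpr (by linarith)
      positivity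
    · have : √b ≤ √(S + b) := Real.sqrt_le_sqrt (by linarith)
      linarith
  have h5 : G * (ρ / 2) ≤ G * (1 / 2) := by gcongr
  have h6 : G * L = G * (5 / 2) + 1200 * (G * S0) + 900 * (G * √(S0 + b)) := by rw [hL]; ring
  rw [h6] at hGL
  linarith

/-- drift of the first Lyapunov function -/
lemma drift1 {C ρ : ℝ} (hC : 0 < C) (hρ0 : 0 < ρ) (hρ1 : ρ ≤ 1) :
    ∃ b : ℝ, 1 ≤ b ∧ ∃ N0 : ℕ, 1 ≤ N0 ∧ ∀ N : ℕ, N0 ≤ N → ∀ S : ℝ, 1 ≤ S →
      T C ρ (V1 300 b) N S ≤ V1 300 b N S - ρ / (4 * ((N:ℝ) + 1) ^ 2) := by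
  set b := max 1 ((1200 * C / ρ) ^ 2) with hb
  have hb1 : 1 ≤ b := le_max_left _ _
  have hbC : 300 * C / (2 * √b) ≤ ρ / 8 := by
    have h1 : 1200 * C / ρ ≤ √b := by
      apply Real.le_sqrt_of_sq_le; exact le_max_right _ _
    have h2 : 0 < √b := Real.sqrt_pos.mpr (by linarith)
    rw [div_le_iff₀ (by positivity)]
    rw [div_le_iff₀ hρ0] at h1
    linarith
  obtain ⟨S0, hS0, hbig⟩ := big_case hC hρ0 hρ1 hb1
  obtain ⟨N0, hN0, hsmall⟩ := small_case hC hρ0 hρ1 hb1 hbC hS0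
  refine ⟨b, hb1, N0, hN0, ?_⟩
  intro N hN S hS
  rcases le_total S S0 with h | h
  · exact hsmall N hN S hS h
  · exact hbig N (le_trans hN0 hN) S h

/-- drift of the second Lyapunov function -/
lemma drift2 {C ρ b : ℝ} (hρ0 : 0 < ρ) (hρ1 : ρ ≤ 1) (hb : 1 ≤ b) :
    ∃ N0 : ℕ, 1 ≤ N0 ∧ ∀ N : ℕ, N0 ≤ N → ∀ S : ℝ, 1 ≤ S → (N:ℝ) + 1 ≤ √(S + b) →
      T C ρ (V2 300) N S ≤ V2 300 N S - ρ / (4 * ((N:ℝ) + 1) ^ 2) := by
  obtain ⟨N1, hN1⟩ := exists_nat_ge (max (2 * b) (20 / ρ))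
  refine ⟨max N1 1, le_max_right _ _, ?_⟩
  intro N hN S hS hSb
  have hN1' : N1 ≤ N := le_trans (le_max_left _ _) hN
  have hN0 : 1 ≤ N := le_trans (le_max_right _ _) hN
  have hNr : (1:ℝ) ≤ N := by exact_mod_cast hN0
  have hN1r : (N1:ℝ) ≤ N := by exact_mod_cast hN1'
  have hb2 : 2 * b ≤ N := le_trans (le_max_left _ _) (le_trans hN1 hN1r)
  have hρ2 : 20 / ρ ≤ N := le_trans (le_max_right _ _) (le_trans hN1 hN1r)
  have hρ3 : 20 ≤ N * ρ := by rwa [div_le_iff₀ hρ0] at hρ2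
  have hg0 := g0_nonneg (N := N) hS
  have hg1 := g1_nonneg (N := N) hS
  have hxpos : 0 < S + b := by linarith
  have hsq : ((N:ℝ) + 1) ^ 2 ≤ S + b := by
    have := Real.sq_sqrt hxpos.le
    rw [← this]; gcongr
  have hSbig : (N:ℝ) ^ 2 / 2 ≤ S := by nlinarith
  have hGN : (g0 N S + g1 N S) / 2 ≤ N / S := by
    have := g0_le_div (N := N) hS
    have := g1_le_div (N := N) hS
    linarith
  have hNS : (N:ℝ) / S ≤ ρ / 10 := by
    rw [div_le_div_iff₀ (by linarith) (by norm_num)]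
    nlinarith
  set G := (g0 N S + g1 N S) / 2 with hG
  have hG0 : 0 ≤ G := by positivity
  have hGρ : G ≤ ρ / 10 := le_trans hGN hNS
  have hcast : ((N - 1 : ℕ) : ℝ) = (N:ℝ) - 1 := by
    rw [Nat.cast_sub hN0]; simp
  unfold T V2
  rw [hcast]
  push_cast
  have e1 : (N:ℝ) - 1 + 1 = N := by ring
  rw [e1, ← hG]
  set n := (N:ℝ) + 1 with hn
  have hn2 : 2 ≤ n := by rw [hn]; linarith
  have hNn : (N:ℝ) = n - 1 := by rw [hn]; ring
  have hnpos : 0 < n := by linarith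
  have hn1pos : 0 < n - 1 := by linarith
  rw [hNn]
  have e2 : g0 N S / 2 * ((1 + 300) / (n - 1)) + g1 N S / 2 * ((1 + 300) / (n - 1))
      = G * (301 / (n - 1)) := by rw [hG]; ring
  rw [e2]
  have e3 : ((1:ℝ) + 300) / n = 301 / n := by norm_num
  have e4 : ((1:ℝ) + 300) / (n + 1) = 301 / (n + 1) := by norm_num
  rw [e3, e4]
  -- compare
  have ha : 301 / (n - 1) - 301 / n ≤ 602 / n ^ 2 := by
    have h1 : 301 / (n - 1) - 301 / n = 301 / (n * (n - 1)) := by field_simp; ring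
    rw [h1, div_le_div_iff₀ (by positivity) (by positivity)]
    nlinarith
  have hb' : 301 / (n + 1) ≤ 301 / n - (301 / 2) / n ^ 2 := by
    have h1 : 301 / n - 301 / (n + 1) = 301 / (n * (n + 1)) := by field_simp; ring
    have h2 : (301 / 2) / n ^ 2 ≤ 301 / (n * (n + 1)) := by
      rw [div_le_div_iff₀ (by positivity) (by positivity)]
      nlinarith
    linarith
  have h1 : G * (301 / (n - 1)) ≤ G * (301 / n + 602 / n ^ 2) := by
    apply mul_le_mul_of_nonneg_left _ hG0; linarith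
  have h2 : (1 - ρ) * (301 / n) + ρ * (301 / (n + 1)) ≤ 301 / n - ρ * ((301 / 2) / n ^ 2) := by
    have : ρ * (301 / (n + 1)) ≤ ρ * (301 / n - (301 / 2) / n ^ 2) :=
      mul_le_mul_of_nonneg_left hb' hρ0.le
    linarith
  have hG1 : 0 ≤ 1 - G := by linarith
  have h3 : (1 - G) * ((1 - ρ) * (301 / n) + ρ * (301 / (n + 1)))
      ≤ (1 - G) * (301 / n - ρ * ((301 / 2) / n ^ 2)) := mul_le_mul_of_nonneg_left h2 hG1
  set w := 1 / n ^ 2 with hw
  have hw0 : 0 < w := by positivity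
  have e5 : 602 / n ^ 2 = 602 * w := by rw [hw]; ring
  have e6 : (301 / 2) / n ^ 2 = 301 / 2 * w := by rw [hw]; ring
  have e7 : ρ / (4 * n ^ 2) = ρ / 4 * w := by rw [hw]; field_simp
  rw [e5] at h1
  rw [e6] at h3
  rw [e7]
  have h4 : G * w ≤ ρ / 10 * w := by gcongr
  have h5 : (1 - G) * (301 / n - ρ * (301 / 2 * w))
      = 301 / n - G * (301 / n) - ρ * (301 / 2 * w) + (G * w) * (ρ * (301 / 2)) := by ring
  have h6 : (G * w) * (ρ * (301 / 2)) ≤ (ρ / 10 * w) * (1 * (301 / 2)) := by gcongr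
  have h7 : G * (301 / n + 602 * w) = G * (301 / n) + 602 * (G * w) := by ring
  rw [h7] at h1
  rw [h5] at h3
  have h8 : 0 ≤ ρ * w := by positivity
  linarith

end Pool.Agent.H98.Aloha
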