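import Mathlib
import Pool.Agent.H98.AlohaDefs
import Pool.Agent.H98.AlohaDrift

open scoped Topology ENNReal
open Filter Set

namespace Pool.Agent.H98.Aloha

lemma g_add_le_one {N : ℕ} {p : ℝ} (h0 : 0 ≤ p) (h1 : p ≤ 1) : g N p + (1 - p) ^ N ≤ 1 := by
  rcases Nat.eq_zero_or_pos N with rfl | hN
  · simp [g]
  have h1' : (0:ℝ) ≤ 1 - p := by linarith
  have hB : 1 + ((N - 1 : ℕ) : ℝ) * p ≤ (1 + p) ^ (N - 1) := one_add_mul_le_pow (by linarith) (N - 1)
  have hcast : ((N - 1 : ℕ) : ℝ) = (N:ℝ) - 1 := by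
    rw [Nat.cast_sub (by omega)]; simp
  have hpow : (1 - p) ^ N = (1 - p) * (1 - p) ^ (N - 1) := by
    rw [← pow_succ']; congr 1; omega
  unfold g
  rw [hpow]
  have h2 : (1 + p) ^ (N - 1) * (1 - p) ^ (N - 1) ≤ 1 := by
    rw [← mul_pow]
    apply pow_le_one₀ <;> nlinarith
  have h3 : (0:ℝ) ≤ (1 - p) ^ (N - 1) := by positivity
  rw [hcast] at hB
  nlinarith

lemma p0_le_three_quarters {S : ℝ} (hS : 1 ≤ S) : (1 - ee S) / S ≤ 3 / 4 := by
  have hSpos : 0 < S := by linarith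
  rw [div_le_div_iff₀ hSpos (by norm_num)]
  rcases le_total (4 / 3) S with h | h
  · have := ee_pos hS
    linarith
  · have h1 : 3 / 4 ≤ S ^ (-(1 / 3) : ℝ) := by
      have h2 : S ^ (-(1:ℝ)) ≤ S ^ (-(1 / 3) : ℝ) :=
        Real.rpow_le_rpow_of_exponent_le hS (by norm_num)
      rw [Real.rpow_neg_one] at h2
      have h3 : 3 / 4 ≤ S⁻¹ := by
        rw [inv_eq_one_div, div_le_div_iff₀ (by norm_num) hSpos]; linarith
      linarith
    have h2 : 3 / 8 ≤ ee S := by unfold ee; linarith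
    linarith

lemma one_sub_G_ge {N M : ℕ} (hNM : N ≤ M) {S : ℝ} (hS : 1 ≤ S) :
    (1 / 2) * (1 / 4 : ℝ) ^ M ≤ 1 - (g0 N S + g1 N S) / 2 := by
  have h1 := g1_le_one (N := N) hS
  have h2 := g_add_le_one (N := N) (p0_mem hS).1 (p0_mem hS).2
  have h3 : (1 / 4 : ℝ) ^ M ≤ (1 / 4 : ℝ) ^ N :=
    pow_le_pow_of_le_one (by norm_num) (by norm_num) hNM
  have h4 : (1 / 4 : ℝ) ^ N ≤ (1 - (1 - ee S) / S) ^ N := by
    apply pow_le_pow_left₀ (by norm_num)
    have := p0_le_three_quarters hS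
    linarith
  unfold g0
  linarith

/-- the truncated function -/
noncomputable def W (b v0 : ℝ) (N : ℕ) (S : ℝ) : ℝ :=
  min (min (V1 300 b N S) (V2 300 N S)) v0

lemma T_const {C ρ c : ℝ} {N : ℕ} {S : ℝ} : T C ρ (fun _ _ => c) N S = c := by
  unfold T; ring

lemma V1_ge {b : ℝ} {N : ℕ} {S : ℝ} : 1 / ((N:ℝ) + 1) ≤ V1 300 b N S := by
  unfold V1
  have : 0 ≤ 300 * √(S + b) / ((N:ℝ) + 1) ^ 2 := by positivity
  linarith

lemma V2_ge {N : ℕ} {S : ℝ} : 1 / ((N:ℝ) + 1) ≤ V2 300 N S := by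
  unfold V2
  apply div_le_div_of_nonneg_right _ (by positivity)
  norm_num

lemma V2_lt_V1 {b : ℝ} {N : ℕ} {S : ℝ} (h : V2 300 N S < V1 300 b N S) :
    (N:ℝ) + 1 ≤ √(S + b) := by
  unfold V1 V2 at h
  have hn : (0:ℝ) < (N:ℝ) + 1 := by positivity
  have h1 : (1 + 300) / ((N:ℝ) + 1) = 1 / ((N:ℝ) + 1) + 300 * ((N:ℝ) + 1) / ((N:ℝ) + 1) ^ 2 := by
    field_simp
  rw [h1] at h
  have h2 : 300 * ((N:ℝ) + 1) / ((N:ℝ) + 1) ^ 2 < 300 * √(S + b) / ((N:ℝ) + 1) ^ 2 := by linarith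
  rw [div_lt_div_iff_of_pos_right (by positivity)] at h2
  linarith

lemma W_nonneg {b v0 : ℝ} (hv0 : 0 ≤ v0) (N : ℕ) (S : ℝ) : 0 ≤ W b v0 N S := by
  unfold W
  have h : (0:ℝ) ≤ 1 / ((N:ℝ) + 1) := by positivity
  exact le_min (le_min (h.trans V1_ge) (h.trans V2_ge)) hv0

lemma W_anti {b v0 : ℝ} (N : ℕ) (S : ℝ) : W b v0 (N + 1) S ≤ W b v0 N S := by
  unfold W V1 V2
  push_cast
  gcongr <;> linarith

/-- a bounded penalty used for small numbers of messages -/
noncomputable def psi (β : ℝ) (N2 : ℕ) (N : ℕ) (_S : ℝ) : ℝ := β ^ N2 - β ^ (min N N2)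

/-- the final Lyapunov function -/
noncomputable def F (b v0 τ β : ℝ) (N2 : ℕ) (N : ℕ) (S : ℝ) : ℝ :=
  W b v0 N S + τ * psi β N2 N S

lemma T_F {C ρ b v0 τ β : ℝ} {N2 N : ℕ} {S : ℝ} :
    T C ρ (F b v0 τ β N2) N S = T C ρ (W b v0) N S + τ * T C ρ (psi β N2) N S := by
  unfold T F; ring

lemma exists_lyap {C ρ : ℝ} (hC : 0 < C) (hρ0 : 0 < ρ) (hρ1 : ρ ≤ 1) :
    ∃ (F : ℕ → ℝ → ℝ) (D : ℕ → ℝ), (∀ N S, 0 ≤ F N S) ∧ (∀ N S, F (N + 1) S ≤ F N S) ∧
      (∀ N, 0 < D N) ∧ ∀ N : ℕ, ∀ S : ℝ, 1 ≤ S → T C ρ F N S + D N ≤ F N S := by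
  obtain ⟨b, hb, Na, hNa, hd1⟩ := drift1 hC hρ0 hρ1
  obtain ⟨Nb, hNb, hd2⟩ := drift2 hρ0 hρ1 hb
  set N0 := max Na Nb with hN0
  set v0 : ℝ := 1 / ((N0:ℝ) + 1) with hv0
  have hv0pos : 0 < v0 := by positivity
  -- drift of W
  have hW1 : ∀ N : ℕ, ∀ S : ℝ, 1 ≤ S → T C ρ (W b v0) N S ≤ W b v0 N S := by
    intro N S hS
    have hc : T C ρ (W b v0) N S ≤ v0 := by
      have := T_mono (C := C) hρ0.le hρ1 (f := W b v0) (f' := fun _ _ => v0)
        (fun N S => min_le_right _ _) (N := N) hS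
      rwa [T_const] at this
    rcases lt_or_ge (min (V1 300 b N S) (V2 300 N S)) v0 with h | h
    · have hN : N0 < N := by
        have h1 : 1 / ((N:ℝ) + 1) ≤ min (V1 300 b N S) (V2 300 N S) := le_min V1_ge V2_ge
        have h2 : 1 / ((N:ℝ) + 1) < 1 / ((N0:ℝ) + 1) := lt_of_le_of_lt h1 h
        rw [one_div_lt_one_div (by positivity) (by positivity)] at h2
        have h3 : (N0:ℝ) < N := by linarith
        exact_mod_cast h3
      have hpos : 0 ≤ ρ / (4 * ((N:ℝ) + 1) ^ 2) := by positivity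
      have hWV : W b v0 N S = min (V1 300 b N S) (V2 300 N S) := min_eq_left h.le
      rw [hWV]
      rcases le_or_gt (V1 300 b N S) (V2 300 N S) with h12 | h12
      · rw [min_eq_left h12]
        have h1 := T_mono (C := C) hρ0.le hρ1 (f := W b v0) (f' := V1 300 b)
          (fun N S => (min_le_left _ _).trans (min_le_left _ _)) (N := N) hS
        have h2 := hd1 N (le_trans (le_max_left _ _) hN.le) S hS
        linarith
      · rw [min_eq_right h12.le]
        have h1 := T_mono (C := C) hρ0.le hρ1 (f := W b v0) (f' := V2 300)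
          (fun N S => (min_le_left _ _).trans (min_le_right _ _)) (N := N) hS
        have h2 := hd2 N (le_trans (le_max_right _ _) hN.le) S hS (V2_lt_V1 h12)
        linarith
    · have : W b v0 N S = v0 := min_eq_right h
      rw [this]; exact hc
  obtain ⟨N2, hN2⟩ : ∃ N2 : ℕ, N2 = 301 * (N0 + 1) := ⟨_, rfl⟩
  have hW2 : ∀ N : ℕ, N2 ≤ N → ∀ S : ℝ, 1 ≤ S →
      T C ρ (W b v0) N S ≤ W b v0 N S - ρ / (4 * ((N:ℝ) + 1) ^ 2) := by
    intro N hN S hS
    have hN' : (N2:ℝ) ≤ N := by exact_mod_cast hN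
    have hN2r : (N2:ℝ) = 301 * ((N0:ℝ) + 1) := by rw [hN2]; push_cast; ring
    have h : min (V1 300 b N S) (V2 300 N S) < v0 := by
      refine lt_of_le_of_lt (min_le_right _ _) ?_
      unfold V2
      rw [hv0, div_lt_div_iff₀ (by positivity) (by positivity)]
      linarith
    have hNN : N0 ≤ N := by omega
    have hWV : W b v0 N S = min (V1 300 b N S) (V2 300 N S) := min_eq_left h.le
    rw [hWV]
    rcases le_or_gt (V1 300 b N S) (V2 300 N S) with h12 | h12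
    · rw [min_eq_left h12]
      have h1 := T_mono (C := C) hρ0.le hρ1 (f := W b v0) (f' := V1 300 b)
        (fun N S => (min_le_left _ _).trans (min_le_left _ _)) (N := N) hS
      have h2 := hd1 N (le_trans (le_max_left _ _) hNN) S hS
      linarith
    · rw [min_eq_right h12.le]
      have h1 := T_mono (C := C) hρ0.le hρ1 (f := W b v0) (f' := V2 300)
        (fun N S => (min_le_left _ _).trans (min_le_right _ _)) (N := N) hS
      have h2 := hd2 N (le_trans (le_max_right _ _) hNN) S hS (V2_lt_V1 h12)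
      linarith
  -- the penalty
  set q : ℝ := ρ * ((1 / 2) * (1 / 4 : ℝ) ^ N2) with hq
  have hq0 : 0 < q := by positivity
  have hq1 : q ≤ 1 := by
    have : (1 / 4 : ℝ) ^ N2 ≤ 1 := pow_le_one₀ (by norm_num) (by norm_num)
    rw [hq]; nlinarith [pow_pos (by norm_num : (0:ℝ) < 1/4) N2]
  set β : ℝ := 2 / q with hβ
  have hβ2 : 2 ≤ β := by rw [hβ, le_div_iff₀ hq0]; linarith
  have hβ1 : 1 ≤ β := by linarith
  have hβ0 : 0 < β := by linarith
  set τ : ℝ := ρ / (8 * ((N2:ℝ) + 1) ^ 2 * β ^ N2) with hτ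
  have hτ0 : 0 < τ := by positivity
  have hpsi0 : ∀ N S, 0 ≤ psi β N2 N S := by
    intro N S
    unfold psi
    have : β ^ (min N N2) ≤ β ^ N2 := pow_le_pow_right₀ hβ1 (min_le_right _ _)
    linarith
  have hpsiA : ∀ N S, psi β N2 (N + 1) S ≤ psi β N2 N S := by
    intro N S
    unfold psi
    have : β ^ (min N N2) ≤ β ^ (min (N + 1) N2) := pow_le_pow_right₀ hβ1 (by omega)
    linarith
  have hpsi1 : ∀ N : ℕ, N < N2 → ∀ S : ℝ, 1 ≤ S → T C ρ (psi β N2) N S + 1 ≤ psi β N2 N S := by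
    intro N hN S hS
    have hg0 := g0_nonneg (N := N) hS
    have hg1 := g1_nonneg (N := N) hS
    have hG := one_sub_G_ge hN.le hS
    unfold T psi
    have e1 : min N N2 = N := by omega
    have e2 : min (N + 1) N2 = N + 1 := by omega
    rw [e1, e2]
    set G := (g0 N S + g1 N S) / 2 with hGdef
    have hGρ : q ≤ ρ * (1 - G) := by
      rw [hq]; exact mul_le_mul_of_nonneg_left hG hρ0.le
    have hpos1 : 0 < β ^ (min (N - 1) N2) := by positivity
    have hpos2 : 1 ≤ β ^ N := one_le_pow₀ hβ1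
    have h1G : 0 ≤ 1 - G := by
      have := g0_le_one (N := N) hS
      have := g1_le_one (N := N) hS
      linarith
    have h1ρ : 0 ≤ 1 - ρ := by linarith
    have h3 : 2 * β ^ N ≤ ρ * (1 - G) * β ^ (N + 1) := by
      calc 2 * β ^ N = q * β * β ^ N := by
            have : q * β = 2 := by rw [hβ]; field_simp
            rw [this]
        _ ≤ ρ * (1 - G) * β * β ^ N := by gcongr
        _ = ρ * (1 - G) * β ^ (N + 1) := by rw [pow_succ]; ring
    have h4 : 0 ≤ G * β ^ (min (N - 1) N2) := by positivity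
    have h5 : 0 ≤ (1 - G) * ((1 - ρ) * β ^ N) := by positivity
    have e3 : g0 N S / 2 * (β ^ N2 - β ^ (min (N - 1) N2)) + g1 N S / 2 * (β ^ N2 - β ^ (min (N - 1) N2))
        + (1 - G) * ((1 - ρ) * (β ^ N2 - β ^ N) + ρ * (β ^ N2 - β ^ (N + 1)))
        = β ^ N2 - G * β ^ (min (N - 1) N2) - (1 - G) * ((1 - ρ) * β ^ N)
          - ρ * (1 - G) * β ^ (N + 1) := by
      rw [hGdef]; ring
    rw [e3]
    linarith
  have hpsi2 : ∀ N : ℕ, N2 ≤ N → ∀ S : ℝ, 1 ≤ S →
      τ * T C ρ (psi β N2) N S ≤ ρ / (8 * ((N:ℝ) + 1) ^ 2) := by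
    intro N hN S hS
    rcases Nat.eq_or_lt_of_le hN with rfl | hlt
    · have h1 : T C ρ (psi β N2) N2 S ≤ β ^ N2 := by
        have := T_mono (C := C) hρ0.le hρ1 (f := psi β N2) (f' := fun _ _ => β ^ N2)
          (fun N S => by
            unfold psi
            have : 0 < β ^ (min N N2) := by positivity
            linarith) (N := N2) hS
        rwa [T_const] at this
      calc τ * T C ρ (psi β N2) N2 S ≤ τ * β ^ N2 := by gcongr
        _ = ρ / (8 * ((N2:ℝ) + 1) ^ 2) := by rw [hτ]; field_simp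
    · have h1 : T C ρ (psi β N2) N S = 0 := by
        unfold T psi
        have e1 : min (N - 1) N2 = N2 := by omega
        have e2 : min N N2 = N2 := by omega
        have e3 : min (N + 1) N2 = N2 := by omega
        rw [e1, e2, e3]; ring
      rw [h1, mul_zero]
      positivity
  refine ⟨F b v0 τ β N2, fun N => if N < N2 then τ else ρ / (8 * ((N:ℝ) + 1) ^ 2), ?_, ?_, ?_, ?_⟩
  · intro N S
    have h1 := W_nonneg (b := b) hv0pos.le N S
    have h2 := mul_nonneg hτ0.le (hpsi0 N S)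
    unfold F; linarith
  · intro N S
    have h1 := W_anti (b := b) (v0 := v0) N S
    have h2 := mul_le_mul_of_nonneg_left (hpsiA N S) hτ0.le
    unfold F; linarith
  · intro N
    show 0 < (if N < N2 then τ else ρ / (8 * ((N:ℝ) + 1) ^ 2))
    split_ifs
    · exact hτ0
    · positivity
  · intro N S hS
    show T C ρ (F b v0 τ β N2) N S + (if N < N2 then τ else ρ / (8 * ((N:ℝ) + 1) ^ 2)) ≤ _
    rw [T_F]
    split_ifs with hN
    · have h1 := hW1 N S hS
      have h2 := mul_le_mul_of_nonneg_left (hpsi1 N hN S hS) hτ0.le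
      unfold F
      linarith
    · push Not at hN
      have h1 := hW2 N hN S hS
      have h2 := hpsi2 N hN S hS
      have h3 : psi β N2 N S = 0 := by
        unfold psi
        have : min N N2 = N2 := by omega
        rw [this]; ring
      unfold F
      rw [h3]
      have h4 : ρ / (4 * ((N:ℝ) + 1) ^ 2) = ρ / (8 * ((N:ℝ) + 1) ^ 2) + ρ / (8 * ((N:ℝ) + 1) ^ 2) := by
        field_simp; norm_num
      linarith

end Pool.Agent.H98.Aloha
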