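import Mathlib
import Pool.Agent.H98.AlohaLyap

open scoped Topology ENNReal
open Filter Set MeasureTheory

namespace Pool.Agent.H98.Aloha

/-- splitting an expectation according to `B = k0` -/
lemma E_ite (k0 : ℕ) (q : PMF ℕ) (a b : ℝ≥0∞) :
    E q (fun B => if B = k0 then a else b) = q k0 * a + (1 - q k0) * b := by
  unfold E
  have hq : ∑' B, q B = 1 := q.tsum_coe
  have h1 : ∀ B, q B * (if B = k0 then a else b)
      = (if B = k0 then q k0 * a else 0) + (if B = k0 then 0 else q B) * b := by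
    intro B
    split_ifs with h
    · simp [h]
    · simp
  simp_rw [h1]
  rw [ENNReal.tsum_add, ENNReal.tsum_mul_right]
  have h2 : ∑' B, (if B = k0 then q k0 * a else 0) = q k0 * a := by
    rw [tsum_eq_single k0]
    · simp
    · intro b hb; simp [hb]
  have h3 : ∑' B, (if B = k0 then 0 else q B) = 1 - q k0 := by
    have h4 : ∑' B, q B = q k0 + ∑' B, (if B = k0 then 0 else q B) := by
      rw [ENNReal.tsum_eq_add_tsum_ite k0]
      congr 1
      refine tsum_congr fun x => ?_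
      by_cases hx : x = k0 <;> simp [hx]
    rw [hq] at h4
    rw [h4, ENNReal.add_sub_cancel_left]
    exact PMF.apply_ne_top q k0
  rw [h2, h3]

lemma anti_of_succ {F : ℕ → ℝ → ℝ} (hF : ∀ N S, F (N + 1) S ≤ F N S) {N M : ℕ} (h : N ≤ M)
    (S : ℝ) : F M S ≤ F N S := by
  induction M, h using Nat.le_induction with
  | base => exact le_rfl
  | succ n _ ih => exact (hF n S).trans ih

lemma arrival_bound (ν : PMF ℕ) {F : ℕ → ℝ → ℝ} (hF0 : ∀ N S, 0 ≤ F N S)
    (hF : ∀ N S, F (N + 1) S ≤ F N S) (N : ℕ) (S : ℝ) :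
    E ν (fun ξ => ENNReal.ofReal (F (N + ξ) S))
      ≤ ENNReal.ofReal ((1 - (1 - (ν 0).toReal)) * F N S + (1 - (ν 0).toReal) * F (N + 1) S) := by
  have h1 : E ν (fun ξ => ENNReal.ofReal (F (N + ξ) S))
      ≤ E ν (fun ξ => if ξ = 0 then ENNReal.ofReal (F N S) else ENNReal.ofReal (F (N + 1) S)) := by
    apply E_mono
    intro ξ
    by_cases h : ξ = 0
    · simp [h]
    · simp only [h, if_false]
      apply ENNReal.ofReal_le_ofReal
      exact anti_of_succ hF (by omega) S
  refine h1.trans (le_of_eq ?_)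
  rw [E_ite]
  have hν1 : (ν 0).toReal ≤ 1 := by
    have := ENNReal.toReal_mono ENNReal.one_ne_top (PMF.coe_le_one ν 0)
    simpa using this
  have hν0 : 0 ≤ (ν 0).toReal := ENNReal.toReal_nonneg
  have hν : ν 0 = ENNReal.ofReal ((ν 0).toReal) := by
    rw [ENNReal.ofReal_toReal (PMF.apply_ne_top ν 0)]
  have hν' : 1 - ν 0 = ENNReal.ofReal (1 - (ν 0).toReal) := by
    rw [ENNReal.ofReal_sub _ hν0, ENNReal.ofReal_one, ← hν]
  rw [hν', ENNReal.ofReal_add, ENNReal.ofReal_mul, ENNReal.ofReal_mul]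
  · have : (1 - (1 - (ν 0).toReal)) = (ν 0).toReal := by ring
    rw [this, ← hν]
  · linarith
  · linarith
  · apply mul_nonneg _ (hF0 _ _); linarith
  · apply mul_nonneg _ (hF0 _ _); linarith

/-- the Lyapunov function, infinite outside the state space -/
noncomputable def FF (F : ℕ → ℝ → ℝ) (y : ℕ × ℝ) : ℝ≥0∞ :=
  if 1 ≤ y.2 then ENNReal.ofReal (F y.1 y.2) else ⊤

lemma send_bound {C : ℝ} (hC : 0 < C) (ν : PMF ℕ) {F : ℕ → ℝ → ℝ} (hF0 : ∀ N S, 0 ≤ F N S)
    (hF : ∀ N S, F (N + 1) S ≤ F N S) {N : ℕ} {S S' p : ℝ} (hS : 1 ≤ S) (hS' : 1 ≤ S')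
    (h0 : 0 ≤ p) (h1 : p ≤ 1) :
    E (sent p N) (fun B => E ν (fun ξ => FF F (N - (if B = 1 then 1 else 0) + ξ,
        if B = 1 then S' else S + C)))
      ≤ ENNReal.ofReal (g N p * F (N - 1) S' + (1 - g N p) *
        ((1 - (1 - (ν 0).toReal)) * F N (S + C) + (1 - (ν 0).toReal) * F (N + 1) (S + C))) := by
  have hSC : 1 ≤ S + C := by linarith
  have e1 : (fun B : ℕ => E ν (fun ξ => FF F (N - (if B = 1 then 1 else 0) + ξ,
        if B = 1 then S' else S + C)))
      = fun B : ℕ => if B = 1 then E ν (fun ξ => ENNReal.ofReal (F (N - 1 + ξ) S'))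
          else E ν (fun ξ => ENNReal.ofReal (F (N + ξ) (S + C))) := by
    funext B
    by_cases hB : B = 1
    · simp [hB, FF, hS']
    · simp [hB, FF, hSC]
  rw [e1, E_ite, sent_one h0 h1]
  change ENNReal.ofReal (g N p) * _ + (1 - ENNReal.ofReal (g N p)) * _ ≤ _
  have hg0 := g_nonneg (N := N) h0 h1
  have hg1 := g_le_one (N := N) h0 h1
  have hν1 : (ν 0).toReal ≤ 1 := by
    have := ENNReal.toReal_mono ENNReal.one_ne_top (PMF.coe_le_one ν 0)
    simpa using this
  have hν0 : 0 ≤ (ν 0).toReal := ENNReal.toReal_nonneg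
  have e2 : 1 - ENNReal.ofReal (g N p) = ENNReal.ofReal (1 - g N p) := by
    rw [ENNReal.ofReal_sub _ hg0, ENNReal.ofReal_one]
  have hin : 0 ≤ (1 - (1 - (ν 0).toReal)) * F N (S + C) + (1 - (ν 0).toReal) * F (N + 1) (S + C) := by
    have a := hF0 N (S + C)
    have b := hF0 (N + 1) (S + C)
    have c : 0 ≤ (1 - (ν 0).toReal) := by linarith
    have d : 0 ≤ (1 - (1 - (ν 0).toReal)) := by linarith
    positivity
  rw [e2, ENNReal.ofReal_add (mul_nonneg hg0 (hF0 _ _)) (mul_nonneg (by linarith) hin),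
    ENNReal.ofReal_mul hg0, ENNReal.ofReal_mul (by linarith : 0 ≤ 1 - g N p)]
  gcongr
  · calc E ν (fun ξ => ENNReal.ofReal (F (N - 1 + ξ) S'))
        ≤ E ν (fun _ => ENNReal.ofReal (F (N - 1) S')) := by
          apply E_mono
          intro ξ
          apply ENNReal.ofReal_le_ofReal
          exact anti_of_succ hF (by omega) S'
      _ = ENNReal.ofReal (F (N - 1) S') := E_const _ _
  · exact arrival_bound ν hF0 hF N (S + C)

lemma step_bound {C : ℝ} (hC : 0 < C) (ν : PMF ℕ) {F : ℕ → ℝ → ℝ} (hF0 : ∀ N S, 0 ≤ F N S)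
    (hF : ∀ N S, F (N + 1) S ≤ F N S) {x : ℕ × ℝ} (hx : 1 ≤ x.2) :
    E (step C hh ee ν x) (FF F) ≤ ENNReal.ofReal (T C (1 - (ν 0).toReal) F x.1 x.2) := by
  obtain ⟨N, S⟩ := x
  simp only at hx ⊢
  have hmax : max (S - hh S) 1 = S - hh S := by
    apply max_eq_left
    have := hh_le hx
    linarith
  have hS1 : 1 ≤ S - hh S := by
    have := hh_le hx
    linarith
  have hS0 : 1 ≤ S + hh S := by
    have := hh_nonneg hx
    linarith
  unfold step
  rw [E_bind, E_coin (by norm_num) (by norm_num)]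
  simp only [E_bind, E_map, if_true, Bool.false_eq_true, if_false]
  rw [hmax]
  have h1 := send_bound hC ν hF0 hF (N := N) hx hS1 (p1_mem hx).1 (p1_mem hx).2
  have h0 := send_bound hC ν hF0 hF (N := N) hx hS0 (p0_mem hx).1 (p0_mem hx).2
  have hν1 : (ν 0).toReal ≤ 1 := by
    have := ENNReal.toReal_mono ENNReal.one_ne_top (PMF.coe_le_one ν 0)
    simpa using this
  have hν0 : 0 ≤ (ν 0).toReal := ENNReal.toReal_nonneg
  have hin : 0 ≤ (1 - (1 - (ν 0).toReal)) * F N (S + C) + (1 - (ν 0).toReal) * F (N + 1) (S + C) := by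
    have a := hF0 N (S + C)
    have b := hF0 (N + 1) (S + C)
    have c : 0 ≤ (1 - (ν 0).toReal) := by linarith
    have d : 0 ≤ (1 - (1 - (ν 0).toReal)) := by linarith
    positivity
  have hnn : ∀ p S', 0 ≤ p → p ≤ 1 → 0 ≤ g N p * F (N - 1) S' + (1 - g N p) *
        ((1 - (1 - (ν 0).toReal)) * F N (S + C) + (1 - (ν 0).toReal) * F (N + 1) (S + C)) := by
    intro p S' hp0 hp1
    have a := g_nonneg (N := N) hp0 hp1
    have b : 0 ≤ 1 - g N p := by have := g_le_one (N := N) hp0 hp1; linarith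
    have c := hF0 (N - 1) S'
    exact add_nonneg (mul_nonneg a c) (mul_nonneg b hin)
  calc _ ≤ ENNReal.ofReal (1 / 2) * _ + ENNReal.ofReal (1 - 1 / 2) * _ :=
        add_le_add (mul_le_mul_right h1 _) (mul_le_mul_right h0 _)
    _ = ENNReal.ofReal (T C (1 - (ν 0).toReal) F N S) := by
        rw [← ENNReal.ofReal_mul (by norm_num), ← ENNReal.ofReal_mul (by norm_num),
          ← ENNReal.ofReal_add]
        · congr 1
          unfold T g0 g1
          ring
        · exact mul_nonneg (by norm_num) (hnn _ _ (p1_mem hx).1 (p1_mem hx).2)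
        · exact mul_nonneg (by norm_num) (hnn _ _ (p0_mem hx).1 (p0_mem hx).2)

/-- the total expected discount along the chain is finite -/
lemma sum_le {C : ℝ} (hC : 0 < C) (ν : PMF ℕ) {F : ℕ → ℝ → ℝ} {D : ℕ → ℝ}
    (hF0 : ∀ N S, 0 ≤ F N S) (hF : ∀ N S, F (N + 1) S ≤ F N S) (hD : ∀ N, 0 < D N)
    (hT : ∀ N : ℕ, ∀ S : ℝ, 1 ≤ S → T C (1 - (ν 0).toReal) F N S + D N ≤ F N S) (x : ℕ × ℝ) :
    ∑' n, E (law C hh ee ν x n) (fun y => ENNReal.ofReal (D y.1)) ≤ FF F x := by
  have hstep : ∀ y : ℕ × ℝ, E (step C hh ee ν y) (FF F) + ENNReal.ofReal (D y.1) ≤ FF F y := by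
    intro y
    by_cases hy : 1 ≤ y.2
    · have h1 := step_bound hC ν hF0 hF hy
      have h2 := hT y.1 y.2 hy
      have h3 : 0 ≤ T C (1 - (ν 0).toReal) F y.1 y.2 := by
        have hν1 : (ν 0).toReal ≤ 1 := by
          have := ENNReal.toReal_mono ENNReal.one_ne_top (PMF.coe_le_one ν 0)
          simpa using this
        have hν0 : 0 ≤ (ν 0).toReal := ENNReal.toReal_nonneg
        have := T_mono (C := C) (ρ := 1 - (ν 0).toReal) (by linarith) (by linarith)
          (f := fun _ _ => 0) (f' := F) (fun N S => hF0 N S) (N := y.1) hy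
        rwa [T_const] at this
      calc _ ≤ ENNReal.ofReal (T C (1 - (ν 0).toReal) F y.1 y.2) + ENNReal.ofReal (D y.1) :=
            add_le_add h1 le_rfl
        _ = ENNReal.ofReal (T C (1 - (ν 0).toReal) F y.1 y.2 + D y.1) := by
            rw [ENNReal.ofReal_add h3 (hD _).le]
        _ ≤ ENNReal.ofReal (F y.1 y.2) := ENNReal.ofReal_le_ofReal h2
        _ = FF F y := by simp [FF, hy]
    · simp [FF, hy]
  have hind : ∀ m : ℕ, (∑ n ∈ Finset.range m,
      E (law C hh ee ν x n) (fun y => ENNReal.ofReal (D y.1))) + E (law C hh ee ν x m) (FF F)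
        ≤ FF F x := by
    intro m
    induction m with
    | zero => simp [law, E_pure]
    | succ m ih =>
      rw [Finset.sum_range_succ, add_assoc]
      refine le_trans (add_le_add le_rfl ?_) ih
      have : E (law C hh ee ν x (m + 1)) (FF F)
          = E (law C hh ee ν x m) (fun y => E (step C hh ee ν y) (FF F)) := by
        rw [law, E_bind]
      rw [this, ← E_add]
      apply E_mono
      intro y
      rw [add_comm]
      exact hstep y
  refine ENNReal.tsum_le_of_sum_range_le fun m => ?_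
  exact le_trans le_self_add (hind m)

lemma measurableSet_fewer (K : ℕ) : MeasurableSet {y : ℕ × ℝ | y.1 ≤ K} := by
  have : {y : ℕ × ℝ | y.1 ≤ K} = Prod.fst ⁻¹' {n : ℕ | n ≤ K} := rfl
  rw [this]
  exact measurable_fst (MeasurableSet.of_discrete)

/-- main transience statement -/
theorem transient {C : ℝ} (hC : 0 < C) (ν : PMF ℕ) (hν : ν 0 ≠ 1) (x : ℕ × ℝ) (hx : 1 ≤ x.2)
    (K : ℕ) : ∑' n, (law C hh ee ν x n).toMeasure {y | y.1 ≤ K} ≠ ⊤ := by
  have hν1 : (ν 0).toReal < 1 := by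
    have h1 : ν 0 < 1 := lt_of_le_of_ne (PMF.coe_le_one ν 0) hν
    have := (ENNReal.toReal_lt_toReal (PMF.apply_ne_top ν 0) ENNReal.one_ne_top).2 h1
    simpa using this
  have hν0 : 0 ≤ (ν 0).toReal := ENNReal.toReal_nonneg
  obtain ⟨F, D, hF0, hF, hD, hT⟩ := exists_lyap (ρ := 1 - (ν 0).toReal) hC (by linarith)
    (by linarith)
  have hsum := sum_le hC ν hF0 hF hD hT x
  have hfin : FF F x ≠ ⊤ := by simp [FF, hx]
  -- minimal discount
  obtain ⟨c, hc0, hc⟩ : ∃ c : ℝ, 0 < c ∧ ∀ N ≤ K, c ≤ D N := by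
    obtain ⟨i, _, hi⟩ := Finset.exists_min_image (Finset.range (K + 1)) D ⟨0, by simp⟩
    exact ⟨D i, hD i, fun N hN => hi N (by simp; omega)⟩
  have hle : ∀ n, ENNReal.ofReal c * (law C hh ee ν x n).toMeasure {y | y.1 ≤ K}
      ≤ E (law C hh ee ν x n) (fun y => ENNReal.ofReal (D y.1)) := by
    intro n
    rw [PMF.toMeasure_apply _ (measurableSet_fewer K), ← ENNReal.tsum_mul_left]
    unfold E
    apply ENNReal.tsum_le_tsum
    intro y
    by_cases hy : y.1 ≤ K
    · rw [Set.indicator_of_mem (by exact hy), mul_comm]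
      gcongr
      exact ENNReal.ofReal_le_ofReal (hc _ hy)
    · rw [Set.indicator_of_notMem (by exact hy), mul_zero]
      exact zero_le
  have h2 : ENNReal.ofReal c * ∑' n, (law C hh ee ν x n).toMeasure {y | y.1 ≤ K} ≤ FF F x := by
    rw [← ENNReal.tsum_mul_left]
    exact (ENNReal.tsum_le_tsum hle).trans hsum
  intro htop
  rw [htop, ENNReal.mul_top (by simpa using hc0)] at h2
  exact hfin (top_le_iff.1 h2)

end Pool.Agent.H98.Aloha
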