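import Mathlib
import Pool.Agent.H98.Preko

open scoped ENNReal NNReal Topology
open MeasureTheory Set ProbabilityTheory

namespace Pool.Agent.H98.Gauss

/-- log-concave nonnegative functions -/
structure LC {V : Type*} [AddCommGroup V] [Module ℝ V] (F : V → ℝ) : Prop where
  nonneg : ∀ x, 0 ≤ F x
  lc : ∀ (x y : V) (a b : ℝ), 0 < a → 0 < b → a + b = 1 →
    F x ^ a * F y ^ b ≤ F (a • x + b • y)

variable {V W : Type*} [AddCommGroup V] [Module ℝ V] [AddCommGroup W] [Module ℝ W]

lemma LC.comp {F : V → ℝ} (hF : LC F) {T : W → V}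
    (hT : ∀ (x y : W) (a b : ℝ), a + b = 1 → T (a • x + b • y) = a • T x + b • T y) :
    LC (fun x => F (T x)) where
  nonneg x := hF.nonneg _
  lc x y a b ha hb hab := by
    rw [hT x y a b hab]
    exact hF.lc _ _ a b ha hb hab

lemma LC.mul {F G : V → ℝ} (hF : LC F) (hG : LC G) : LC (fun x => F x * G x) where
  nonneg x := mul_nonneg (hF.nonneg x) (hG.nonneg x)
  lc x y a b ha hb hab := by
    have h1 := hF.lc x y a b ha hb hab
    have h2 := hG.lc x y a b ha hb hab
    have hFx := hF.nonneg x
    have hFy := hF.nonneg y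
    have hGx := hG.nonneg x
    have hGy := hG.nonneg y
    rw [Real.mul_rpow hFx hGx, Real.mul_rpow hFy hGy]
    calc F x ^ a * G x ^ a * (F y ^ b * G y ^ b) = (F x ^ a * F y ^ b) * (G x ^ a * G y ^ b) := by ring
      _ ≤ F (a • x + b • y) * G (a • x + b • y) := by
          apply mul_le_mul h1 h2 (by positivity) (hF.nonneg _)

lemma LC.one : LC (fun _ : V => (1:ℝ)) where
  nonneg _ := zero_le_one
  lc x y a b ha hb hab := by simp

lemma LC.prod {ι : Type*} (s : Finset ι) {F : ι → V → ℝ} (hF : ∀ i ∈ s, LC (F i)) :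
    LC (fun x => ∏ i ∈ s, F i x) := by
  classical
  induction s using Finset.induction_on with
  | empty => simpa using LC.one
  | insert i s hi ih =>
    have h1 := hF i (Finset.mem_insert_self _ _)
    have h2 := ih (fun j hj => hF j (Finset.mem_insert_of_mem hj))
    have := h1.mul h2
    simpa [Finset.prod_insert hi] using this

/-- standard Gaussian measure on the line -/
noncomputable abbrev γ : Measure ℝ := gaussianReal 0 1

lemma gaussianPDF_lc (x y a b : ℝ) (ha : 0 < a) (hb : 0 < b) (hab : a + b = 1) :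
    gaussianPDFReal 0 1 x ^ a * gaussianPDFReal 0 1 y ^ b ≤ gaussianPDFReal 0 1 (a * x + b * y) := by
  unfold gaussianPDFReal
  set K := (√(2 * Real.pi * ((1:ℝ≥0):ℝ)))⁻¹ with hK
  have hK0 : 0 < K := by positivity
  rw [Real.mul_rpow hK0.le (Real.exp_pos _).le, Real.mul_rpow hK0.le (Real.exp_pos _).le]
  have e1 : K ^ a * K ^ b = K := by rw [← Real.rpow_add hK0, hab, Real.rpow_one]
  rw [← Real.exp_mul, ← Real.exp_mul]
  calc K ^ a * Real.exp (-(x - 0) ^ 2 / (2 * ((1:ℝ≥0):ℝ)) * a)
        * (K ^ b * Real.exp (-(y - 0) ^ 2 / (2 * ((1:ℝ≥0):ℝ)) * b))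
      = (K ^ a * K ^ b) * Real.exp (-(x - 0) ^ 2 / (2 * ((1:ℝ≥0):ℝ)) * a
          + -(y - 0) ^ 2 / (2 * ((1:ℝ≥0):ℝ)) * b) := by rw [Real.exp_add]; ring
    _ ≤ K * Real.exp (-(a * x + b * y - 0) ^ 2 / (2 * ((1:ℝ≥0):ℝ))) := by
        rw [e1]
        apply mul_le_mul_of_nonneg_left _ hK0.le
        apply Real.exp_le_exp.2
        simp only [NNReal.coe_one, mul_one, sub_zero]
        have hb' : b = 1 - a := by linarith
        have : 0 ≤ a * b * (x - y) ^ 2 := by positivity
        subst hb'
        nlinarith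

lemma integrable_bdd {α : Type*} [MeasurableSpace α] {μ : Measure α} [IsFiniteMeasure μ]
    {f : α → ℝ} (hf : Measurable f) {C : ℝ} (hC : ∀ x, |f x| ≤ C) : Integrable f μ :=
  Integrable.of_bound hf.aestronglyMeasurable C (Filter.Eventually.of_forall hC)

/-- integrating out one Gaussian variable preserves log-concavity -/
lemma LC.marginal {F : V × ℝ → ℝ} (hF : LC F) {C : ℝ} (hC : ∀ p, F p ≤ C)
    (hm : ∀ x, Measurable (fun s => F (x, s))) : LC (fun x => ∫ s, F (x, s) ∂γ) where
  nonneg x := integral_nonneg fun s => hF.nonneg _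
  lc x y a b ha hb hab := by
    have hφm : Measurable (gaussianPDFReal 0 1) := measurable_gaussianPDFReal 0 1
    have hφ0 : ∀ s, 0 ≤ gaussianPDFReal 0 1 s := gaussianPDFReal_nonneg 0 1
    have hφb : ∀ s, gaussianPDFReal 0 1 s ≤ (√(2 * Real.pi * ((1:ℝ≥0):ℝ)))⁻¹ := by
      intro s
      unfold gaussianPDFReal
      have h1 : Real.exp (-(s - 0) ^ 2 / (2 * ((1:ℝ≥0):ℝ))) ≤ 1 := by
        apply Real.exp_le_one_iff.2
        simp only [NNReal.coe_one]
        nlinarith [sq_nonneg (s - 0)]
      have h2 : 0 ≤ (√(2 * Real.pi * ((1:ℝ≥0):ℝ)))⁻¹ := by positivity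
      nlinarith
    have hint : ∀ z : V, Integrable (fun s => gaussianPDFReal 0 1 s * F (z, s)) := by
      intro z
      have h1 := (integrable_gaussianPDFReal 0 1)
      refine Integrable.mono' (h1.mul_const C) (hφm.mul (hm z)).aestronglyMeasurable ?_
      refine Filter.Eventually.of_forall fun s => ?_
      rw [Real.norm_of_nonneg (mul_nonneg (hφ0 s) (hF.nonneg _))]
      exact mul_le_mul_of_nonneg_left (hC _) (hφ0 s)
    have hbd : ∀ z : V, BddAbove (range fun s => gaussianPDFReal 0 1 s * F (z, s)) := by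
      intro z
      refine ⟨(√(2 * Real.pi * ((1:ℝ≥0):ℝ)))⁻¹ * C, ?_⟩
      rintro _ ⟨s, rfl⟩
      exact mul_le_mul (hφb s) (hC _) (hF.nonneg _) (by positivity)
    have key := pl (f := fun s => gaussianPDFReal 0 1 s * F (x, s))
      (g := fun s => gaussianPDFReal 0 1 s * F (y, s))
      (h := fun s => gaussianPDFReal 0 1 s * F (a • x + b • y, s))
      (hφm.mul (hm _)) (hφm.mul (hm _)) (hφm.mul (hm _))
      (fun s => mul_nonneg (hφ0 s) (hF.nonneg _)) (fun s => mul_nonneg (hφ0 s) (hF.nonneg _))
      (fun s => mul_nonneg (hφ0 s) (hF.nonneg _)) (hint x) (hint y) (hint _) (hbd x) (hbd y)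
      ha hb hab (fun s t => by
        rw [Real.mul_rpow (hφ0 s) (hF.nonneg _), Real.mul_rpow (hφ0 t) (hF.nonneg _)]
        have h1 := gaussianPDF_lc s t a b ha hb hab
        have h2 := hF.lc (x, s) (y, t) a b ha hb hab
        have e : a • (x, s) + b • (y, t) = (a • x + b • y, a * s + b * t) := by
          simp [Prod.smul_mk]
        rw [e] at h2
        have hx0 := hF.nonneg (x, s)
        have hy0 := hF.nonneg (y, t)
        calc gaussianPDFReal 0 1 s ^ a * F (x, s) ^ a * (gaussianPDFReal 0 1 t ^ b * F (y, t) ^ b)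
            = (gaussianPDFReal 0 1 s ^ a * gaussianPDFReal 0 1 t ^ b) * (F (x, s) ^ a * F (y, t) ^ b) := by
              ring
          _ ≤ _ := mul_le_mul h1 h2 (by positivity) (hφ0 _))
    simp only [γ, integral_gaussianReal_eq_integral_smul (one_ne_zero), smul_eq_mul]
    exact key

/-- integrating out finitely many Gaussian variables preserves log-concavity -/
lemma LC.marginal_pi (k : ℕ) : ∀ {V : Type} [AddCommGroup V] [Module ℝ V]
    {F : V × (Fin k → ℝ) → ℝ}, LC F → ∀ {C : ℝ}, (∀ p, F p ≤ C) →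
    (∀ x, Measurable (fun z => F (x, z))) →
    LC (fun x => ∫ z, F (x, z) ∂(Measure.pi (fun _ : Fin k => γ))) := by
  induction k with
  | zero =>
    intro V _ _ F hF C hC hm
    have : (fun x => ∫ z, F (x, z) ∂(Measure.pi (fun _ : Fin 0 => γ)))
        = fun x => F (x, default) := by
      funext x
      rw [integral_unique]
      simp only [probReal_univ, one_smul]
      exact congrArg (fun z => F (x, z)) (Subsingleton.elim _ _)
    rw [this]
    exact hF.comp (T := fun x : V => (x, (default : Fin 0 → ℝ))) (fun x y a b _ => by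
      ext i
      · rfl
      · exact i.elim0)
  | succ k ih =>
    intro V _ _ F hF C hC hm
    set e := MeasurableEquiv.piFinSuccAbove (fun _ : Fin (k + 1) => ℝ) 0 with he
    have hmp : MeasurePreserving e (Measure.pi (fun _ : Fin (k + 1) => γ))
        (γ.prod (Measure.pi (fun _ : Fin k => γ))) :=
      measurePreserving_piFinSuccAbove (fun _ : Fin (k + 1) => γ) 0
    have hsymm : ∀ p : ℝ × (Fin k → ℝ), e.symm p = Fin.cons p.1 p.2 := by
      intro p
      rw [he]
      simp [MeasurableEquiv.piFinSuccAbove, Fin.insertNthEquiv]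
    -- the function with one variable moved
    have hcons : ∀ (s t : ℝ) (z w : Fin k → ℝ) (a b : ℝ),
        (Fin.cons (a * s + b * t) (a • z + b • w) : Fin (k + 1) → ℝ)
          = a • (Fin.cons s z : Fin (k + 1) → ℝ) + b • (Fin.cons t w : Fin (k + 1) → ℝ) := by
      intro s t z w a b
      ext i
      refine Fin.cases ?_ (fun j => ?_) i
      · simp
      · simp
    have hG : LC (fun q : (V × ℝ) × (Fin k → ℝ) => F (q.1.1, (Fin.cons q.1.2 q.2 : Fin (k + 1) → ℝ))) :=
      hF.comp (T := fun q : (V × ℝ) × (Fin k → ℝ) =>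
        (q.1.1, (Fin.cons q.1.2 q.2 : Fin (k + 1) → ℝ))) (fun x y a b _ => by
          ext1
          · simp
          · simp only [Prod.snd_add, Prod.smul_snd, Prod.fst_add, Prod.smul_fst, smul_eq_mul]
            exact hcons _ _ _ _ _ _)
    have hm2 : ∀ x, Measurable (fun p : ℝ × (Fin k → ℝ) =>
        F (x, (Fin.cons p.1 p.2 : Fin (k + 1) → ℝ))) := by
      intro x
      have : (fun p : ℝ × (Fin k → ℝ) => F (x, (Fin.cons p.1 p.2 : Fin (k + 1) → ℝ)))
          = fun p => F (x, e.symm p) := by
        funext p; rw [hsymm]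
      rw [this]
      exact (hm x).comp e.symm.measurable
    have h1 := ih hG (C := C) (fun q => hC _) (fun q => by
      have : Measurable (fun z : Fin k → ℝ => (q.2, z)) := measurable_const.prodMk measurable_id
      exact (hm2 q.1).comp this)
    have h2 := h1.marginal (C := C) (fun q => by
      have hle : ∀ z, F (q.1, (Fin.cons q.2 z : Fin (k + 1) → ℝ)) ≤ C := fun z => hC _
      calc ∫ z, F (q.1, (Fin.cons q.2 z : Fin (k + 1) → ℝ)) ∂(Measure.pi (fun _ : Fin k => γ))
          ≤ ∫ _, C ∂(Measure.pi (fun _ : Fin k => γ)) := by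
            apply integral_mono_of_nonneg
            · exact Filter.Eventually.of_forall fun z => hF.nonneg _
            · exact integrable_const C
            · exact Filter.Eventually.of_forall hle
        _ = C := by simp) (fun x => by
      have := (hm2 x).stronglyMeasurable.integral_prod_right' (ν := Measure.pi (fun _ : Fin k => γ))
      exact this.measurable)
    have h3 : (fun x => ∫ z, F (x, z) ∂(Measure.pi (fun _ : Fin (k + 1) => γ)))
        = fun x => ∫ s, (∫ z, F (x, (Fin.cons s z : Fin (k + 1) → ℝ))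
            ∂(Measure.pi (fun _ : Fin k => γ))) ∂γ := by
      funext x
      have e1 : ∫ z, F (x, z) ∂(Measure.pi (fun _ : Fin (k + 1) => γ))
          = ∫ p, F (x, e.symm p) ∂(γ.prod (Measure.pi (fun _ : Fin k => γ))) := by
        rw [← hmp.integral_comp' (g := fun p => F (x, e.symm p))]
        simp
      rw [e1, integral_prod]
      · simp_rw [hsymm]
      · simp_rw [hsymm]
        refine integrable_bdd (hm2 x) (C := C) (fun p => ?_)
        rw [abs_of_nonneg (hF.nonneg _)]
        exact hC _
    rw [h3]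
    exact h2

end Pool.Agent.H98.Gauss
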