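import Mathlib
import Pool.Agent.H98.LogConc

open scoped ENNReal NNReal Topology RealInnerProductSpace
open MeasureTheory Set ProbabilityTheory

namespace Pool.Agent.H98.Gauss

variable {E : Type} [NormedAddCommGroup E] [InnerProductSpace ℝ E] [FiniteDimensional ℝ E]
  [MeasurableSpace E] [BorelSpace E]

lemma LC.marginal_std {V : Type} [AddCommGroup V] [Module ℝ V] {F : V × E → ℝ} (hF : LC F)
    {C : ℝ} (hC : ∀ p, F p ≤ C) (hm : ∀ x, Measurable (fun z => F (x, z))) :
    LC (fun x => ∫ z, F (x, z) ∂(stdGaussian E)) := by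
  set T : (Fin (Module.finrank ℝ E) → ℝ) → E := fun x => ∑ i, x i • stdOrthonormalBasis ℝ E i with hT
  have hTm : Measurable T := by rw [hT]; fun_prop
  have e1 : (fun x => ∫ z, F (x, z) ∂(stdGaussian E))
      = fun x => ∫ z, F (x, T z) ∂(Measure.pi (fun _ : Fin (Module.finrank ℝ E) => γ)) := by
    funext x
    rw [stdGaussian, integral_map hTm.aemeasurable (hm x).aestronglyMeasurable]
  rw [e1]
  refine LC.marginal_pi _ (F := fun p : V × (Fin (Module.finrank ℝ E) → ℝ) => F (p.1, T p.2)) ?_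
    (C := C) (fun p => hC _) (fun x => (hm x).comp hTm)
  refine hF.comp (T := fun p : V × (Fin (Module.finrank ℝ E) → ℝ) => (p.1, T p.2)) ?_
  intro x y a b _
  ext1
  · simp
  · simp only [hT, Prod.snd_add, Prod.smul_snd, Pi.add_apply, Pi.smul_apply, smul_eq_mul]
    rw [Finset.smul_sum, Finset.smul_sum, ← Finset.sum_add_distrib]
    refine Finset.sum_congr rfl fun i _ => ?_
    rw [add_smul, mul_smul, mul_smul]

lemma std_neg : (stdGaussian E).map (fun x => -x) = stdGaussian E :=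
  stdGaussian_map (LinearIsometryEquiv.neg ℝ)

lemma integral_neg_std (f : E → ℝ) (hf : Measurable f) :
    ∫ x, f (-x) ∂(stdGaussian E) = ∫ x, f x ∂(stdGaussian E) := by
  conv_rhs => rw [← std_neg, integral_map (measurable_neg.aemeasurable) hf.aestronglyMeasurable]

lemma proj_law {e : E} (he : ‖e‖ = 1) :
    (γ.prod (stdGaussian E)).map (fun p : ℝ × E => p.1 • e + (p.2 - ⟪e, p.2⟫ • e))
      = stdGaussian E := by
  have hm : Measurable (fun p : ℝ × E => p.1 • e + (p.2 - ⟪e, p.2⟫ • e)) := by fun_prop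
  have : IsProbabilityMeasure
      ((γ.prod (stdGaussian E)).map (fun p : ℝ × E => p.1 • e + (p.2 - ⟪e, p.2⟫ • e))) :=
    Measure.isProbabilityMeasure_map hm.aemeasurable
  apply Measure.ext_of_charFun
  ext t
  rw [charFun_stdGaussian, charFun_apply, integral_map hm.aemeasurable (by fun_prop)]
  have h1 : ∀ p : ℝ × E, Complex.exp (((⟪p.1 • e + (p.2 - ⟪e, p.2⟫ • e), t⟫ : ℝ) : ℂ) * Complex.I)
      = Complex.exp (((p.1 * ⟪e, t⟫ : ℝ) : ℂ) * Complex.I)
        * Complex.exp (((⟪p.2, t - ⟪e, t⟫ • e⟫ : ℝ) : ℂ) * Complex.I) := by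
    intro p
    rw [← Complex.exp_add]
    congr 1
    rw [← add_mul]
    congr 1
    norm_cast
    rw [inner_add_left, inner_sub_left, inner_sub_right, real_inner_smul_left, real_inner_smul_left,
      real_inner_smul_right, real_inner_comm e p.2]
    ring
  simp_rw [h1]
  rw [integral_prod_mul (fun x : ℝ => Complex.exp (((x * ⟪e, t⟫ : ℝ) : ℂ) * Complex.I))
    (fun z : E => Complex.exp (((⟪z, t - ⟪e, t⟫ • e⟫ : ℝ) : ℂ) * Complex.I))]
  have h2 : ∫ z : E, Complex.exp (((⟪z, t - ⟪e, t⟫ • e⟫ : ℝ) : ℂ) * Complex.I) ∂(stdGaussian E)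
      = Complex.exp (- ‖t - ⟪e, t⟫ • e‖ ^ 2 / 2) := by
    rw [← charFun_stdGaussian, charFun_apply]
  have h3 : ∫ x : ℝ, Complex.exp (((x * ⟪e, t⟫ : ℝ) : ℂ) * Complex.I) ∂γ
      = Complex.exp (-((⟪e, t⟫ : ℝ) : ℂ) ^ 2 / 2) := by
    have := charFun_gaussianReal (μ := 0) (v := 1) ⟪e, t⟫
    rw [charFun_apply_real] at this
    have h4 : ∫ x : ℝ, Complex.exp (((x * ⟪e, t⟫ : ℝ) : ℂ) * Complex.I) ∂γ
        = ∫ x : ℝ, Complex.exp ((((⟪e, t⟫ : ℝ) : ℂ) * x) * Complex.I) ∂(gaussianReal 0 1) := by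
      congr 1
      funext x
      push_cast
      ring_nf
    rw [h4]
    simp only [mul_assoc] at this ⊢
    rw [this]
    congr 1
    simp
    ring
  rw [h2, h3, ← Complex.exp_add]
  congr 1
  have h5 : ‖t - ⟪e, t⟫ • e‖ ^ 2 = ‖t‖ ^ 2 - ⟪e, t⟫ ^ 2 := by
    rw [norm_sub_sq_real, real_inner_smul_right, norm_smul, he, real_inner_comm]
    simp only [Real.norm_eq_abs, mul_one, sq_abs]
    ring
  norm_cast
  rw [h5]
  ring

lemma integral_proj {e : E} (he : ‖e‖ = 1) {Ψ : E → ℝ} (hΨ : Measurable Ψ) {C : ℝ}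
    (hC : ∀ x, |Ψ x| ≤ C) :
    ∫ x, Ψ x ∂(stdGaussian E)
      = ∫ y, (∫ z, Ψ (y • e + (z - ⟪e, z⟫ • e)) ∂(stdGaussian E)) ∂γ := by
  have hm : Measurable (fun p : ℝ × E => p.1 • e + (p.2 - ⟪e, p.2⟫ • e)) := by fun_prop
  conv_lhs => rw [← proj_law he, integral_map hm.aemeasurable hΨ.aestronglyMeasurable]
  rw [integral_prod]
  exact integrable_bdd (hΨ.comp hm) (C := C) (fun p => hC _)

/-- Chebyshev's association inequality -/
lemma assoc_ineq {α : Type*} [MeasurableSpace α] {μ : Measure α} [IsProbabilityMeasure μ]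
    {u v : α → ℝ} (hu : Measurable u) (hv : Measurable v) {A B : ℝ} (hA : ∀ x, |u x| ≤ A)
    (hB : ∀ x, |v x| ≤ B) (h : ∀ x y, 0 ≤ (u x - u y) * (v x - v y)) :
    (∫ x, u x ∂μ) * (∫ x, v x ∂μ) ≤ ∫ x, u x * v x ∂μ := by
  have hui : Integrable u μ := integrable_bdd hu hA
  have hvi : Integrable v μ := integrable_bdd hv hB
  have huv : Integrable (fun x => u x * v x) μ := by
    refine integrable_bdd (hu.mul hv) (C := A * B) (fun x => ?_)
    rw [abs_mul]
    exact mul_le_mul (hA x) (hB x) (abs_nonneg _) ((abs_nonneg _).trans (hA x))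
  have h1 : ∀ x, ∫ y, (u x - u y) * (v x - v y) ∂μ
      = u x * v x - u x * (∫ y, v y ∂μ) - v x * (∫ y, u y ∂μ) + ∫ y, u y * v y ∂μ := by
    intro x
    have e : ∀ y, (u x - u y) * (v x - v y)
        = (u x * v x - u x * v y - v x * u y) + u y * v y := fun y => by ring
    simp_rw [e]
    rw [integral_add _ huv, integral_sub _ (hui.const_mul _), integral_sub _ (hvi.const_mul _)]
    · simp only [integral_const_mul, integral_const, probReal_univ, one_smul]
    · exact integrable_const _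
    · exact (integrable_const _).sub (hvi.const_mul _)
    · exact ((integrable_const _).sub (hvi.const_mul _)).sub (hui.const_mul _)
  have h2 : 0 ≤ ∫ x, (∫ y, (u x - u y) * (v x - v y) ∂μ) ∂μ :=
    integral_nonneg fun x => integral_nonneg fun y => h x y
  simp_rw [h1] at h2
  rw [integral_add _ (integrable_const _), integral_sub _ (hvi.mul_const _),
    integral_sub huv (hui.mul_const _), integral_mul_const, integral_mul_const] at h2
  · simp only [integral_const, probReal_univ, one_smul] at h2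
    linarith
  · exact huv.sub (hui.mul_const _)
  · exact (huv.sub (hui.mul_const _)).sub (hvi.mul_const _)

lemma LC.even_mono {H : ℝ → ℝ} (hH : LC H) (he : ∀ x, H (-x) = H x) {x y : ℝ} (h : |x| ≤ |y|) :
    H y ≤ H x := by
  rcases eq_or_ne y 0 with rfl | hy
  · rw [abs_zero] at h
    have : x = 0 := abs_eq_zero.1 (le_antisymm h (abs_nonneg _))
    rw [this]
  have hxy : |x / y| ≤ 1 := by
    rw [abs_div, div_le_one (abs_pos.2 hy)]; exact h
  rw [abs_le] at hxy
  set a := (1 + x / y) / 2 with ha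
  set b := (1 - x / y) / 2 with hb
  have hab : a + b = 1 := by rw [ha, hb]; ring
  have hx : x = a * y + b * (-y) := by rw [ha, hb]; field_simp; ring
  have ha0 : 0 ≤ a := by rw [ha]; linarith
  have hb0 : 0 ≤ b := by rw [hb]; linarith
  rcases eq_or_lt_of_le ha0 with ha1 | ha1
  · have hb1 : b = 1 := by linarith
    rw [hx, ← ha1, hb1]
    simp [he]
  rcases eq_or_lt_of_le hb0 with hb1 | hb1
  · have ha2 : a = 1 := by linarith
    rw [hx, ← hb1, ha2]
    simp
  have key := hH.lc y (-y) a b ha1 hb1 hab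
  rw [he, ← Real.rpow_add_of_nonneg (hH.nonneg y) ha0 hb0, hab, Real.rpow_one, smul_eq_mul,
    smul_eq_mul, ← hx] at key
  exact key

/-- Sidak's lemma in functional form -/
lemma sidak_step {K : E → ℝ} (hK : LC K) (hKe : ∀ x, K (-x) = K x) (hKm : Measurable K)
    {CK : ℝ} (hKC : ∀ x, K x ≤ CK) {g : ℝ → ℝ} (hg : LC g) (hge : ∀ x, g (-x) = g x)
    (hgm : Measurable g) {Cg : ℝ} (hgC : ∀ x, g x ≤ Cg) (b : E) :
    (∫ x, g ⟪b, x⟫ ∂(stdGaussian E)) * (∫ x, K x ∂(stdGaussian E))
      ≤ ∫ x, g ⟪b, x⟫ * K x ∂(stdGaussian E) := by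
  rcases eq_or_ne b 0 with rfl | hb
  · simp only [inner_zero_left]
    rw [integral_const_mul]
    simp
  have hbn : 0 < ‖b‖ := norm_pos_iff.2 hb
  obtain ⟨e, hen, hbe, hbz⟩ : ∃ e : E, ‖e‖ = 1 ∧ ⟪b, e⟫ = ‖b‖ ∧ ∀ z, ⟪b, z⟫ = ‖b‖ * ⟪e, z⟫ := by
    refine ⟨(‖b‖⁻¹) • b, ?_, ?_, ?_⟩
    · rw [norm_smul, norm_inv, norm_norm, inv_mul_cancel₀ hbn.ne']
    · rw [real_inner_smul_right, real_inner_self_eq_norm_sq]
      field_simp
    · intro z
      rw [real_inner_smul_left]; field_simp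
  have hbP : ∀ (y : ℝ) (z : E), ⟪b, y • e + (z - ⟪e, z⟫ • e)⟫ = ‖b‖ * y := by
    intro y z
    rw [inner_add_right, inner_sub_right, real_inner_smul_right, real_inner_smul_right, hbe, hbz z]
    ring
  have hCg0 : 0 ≤ Cg := (hg.nonneg 0).trans (hgC 0)
  have hCK0 : 0 ≤ CK := (hK.nonneg 0).trans (hKC 0)
  have hgabs : ∀ x, |g x| ≤ Cg := fun x => by rw [abs_of_nonneg (hg.nonneg x)]; exact hgC x
  have hKabs : ∀ x, |K x| ≤ CK := fun x => by rw [abs_of_nonneg (hK.nonneg x)]; exact hKC x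
  have hginner : Measurable (fun x : E => g ⟪b, x⟫) := hgm.comp (by fun_prop)
  set H : ℝ → ℝ := fun y => ∫ z, K (y • e + (z - ⟪e, z⟫ • e)) ∂(stdGaussian E) with hH
  -- the three integrals
  have i1 : ∫ x, g ⟪b, x⟫ ∂(stdGaussian E) = ∫ y, g (‖b‖ * y) ∂γ := by
    rw [integral_proj hen hginner (C := Cg) (fun x => hgabs _)]
    simp_rw [hbP]
    simp
  have i2 : ∫ x, K x ∂(stdGaussian E) = ∫ y, H y ∂γ := integral_proj hen hKm hKabs
  have i3 : ∫ x, g ⟪b, x⟫ * K x ∂(stdGaussian E) = ∫ y, g (‖b‖ * y) * H y ∂γ := by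
    rw [integral_proj (Ψ := fun x => g ⟪b, x⟫ * K x) hen (hginner.mul hKm) (C := Cg * CK)
      (fun x => by
        rw [abs_mul]
        exact mul_le_mul (hgabs _) (hKabs _) (abs_nonneg _) hCg0)]
    simp_rw [hbP]
    congr 1
    funext y
    rw [integral_const_mul]
  -- H is log-concave, even, measurable and bounded
  have hTm : Measurable (fun p : ℝ × E => p.1 • e + (p.2 - ⟪e, p.2⟫ • e)) := by fun_prop
  have hHlc : LC H := by
    refine LC.marginal_std (F := fun p : ℝ × E => K (p.1 • e + (p.2 - ⟪e, p.2⟫ • e))) ?_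
      (C := CK) (fun p => hKC _) (fun x => ?_)
    · refine hK.comp (T := fun p : ℝ × E => p.1 • e + (p.2 - ⟪e, p.2⟫ • e)) ?_
      intro x y a b _
      simp only [Prod.fst_add, Prod.smul_fst, Prod.snd_add, Prod.smul_snd, smul_eq_mul,
        inner_add_right, real_inner_smul_right, add_smul, mul_smul, smul_add, smul_sub]
      abel
    · have : Measurable (fun z : E => (x, z)) := measurable_const.prodMk measurable_id
      exact (hKm.comp hTm).comp this
  have hHe : ∀ y, H (-y) = H y := by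
    intro y
    have h1 : H y = ∫ z, K (-(y • e + (z - ⟪e, z⟫ • e))) ∂(stdGaussian E) := by
      simp_rw [hKe]; rfl
    have h2 : ∫ z, K (-(y • e + (z - ⟪e, z⟫ • e))) ∂(stdGaussian E)
        = ∫ z, (fun z => K (-y • e + (z - ⟪e, z⟫ • e))) (-z) ∂(stdGaussian E) := by
      congr 1
      funext z
      simp only [inner_neg_right]
      congr 1
      simp only [neg_smul]
      abel
    have h3 : Measurable (fun z : E => (-y, z)) := measurable_const.prodMk measurable_id
    have h4 := integral_neg_std (fun z => K (-y • e + (z - ⟪e, z⟫ • e))) ((hKm.comp hTm).comp h3)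
    rw [h1, h2]
    exact h4.symm
  have hHm : Measurable H := by
    have := (hKm.comp hTm).stronglyMeasurable.integral_prod_right' (ν := stdGaussian E)
    exact this.measurable
  have hHb : ∀ y, |H y| ≤ CK := by
    intro y
    rw [abs_of_nonneg (hHlc.nonneg y)]
    calc H y ≤ ∫ _, CK ∂(stdGaussian E) := by
          apply integral_mono_of_nonneg
          · exact Filter.Eventually.of_forall fun z => hK.nonneg _
          · exact integrable_const CK
          · exact Filter.Eventually.of_forall fun z => hKC _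
      _ = CK := by simp
  rw [i1, i2, i3]
  refine assoc_ineq (hgm.comp (measurable_const_mul _)) hHm (A := Cg) (B := CK)
    (fun x => hgabs _) hHb ?_
  intro x y
  show 0 ≤ (g (‖b‖ * x) - g (‖b‖ * y)) * (H x - H y)
  rcases le_total |x| |y| with h | h
  · have h1 : g (‖b‖ * y) ≤ g (‖b‖ * x) := hg.even_mono hge (by
      rw [abs_mul, abs_mul]; gcongr)
    have h2 : H y ≤ H x := hHlc.even_mono hHe h
    nlinarith
  · have h1 : g (‖b‖ * x) ≤ g (‖b‖ * y) := hg.even_mono hge (by
      rw [abs_mul, abs_mul]; gcongr)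
    have h2 : H x ≤ H y := hHlc.even_mono hHe h
    nlinarith

end Pool.Agent.H98.Gauss
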