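import Mathlib
import Pool.Agent.H98.Sidak

open scoped ENNReal NNReal Topology RealInnerProductSpace MatrixOrder
open MeasureTheory Set ProbabilityTheory

namespace Pool.Agent.H98.Gauss

/-- the class of functions used: log-concave, measurable, bounded by one -/
structure Nice {V : Type*} [AddCommGroup V] [Module ℝ V] [MeasurableSpace V] (F : V → ℝ) : Prop where
  lc : LC F
  meas : Measurable F
  le_one : ∀ x, F x ≤ 1

lemma Nice.abs_le {V : Type*} [AddCommGroup V] [Module ℝ V] [MeasurableSpace V] {F : V → ℝ}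
    (hF : Nice F) (x : V) : |F x| ≤ 1 := by
  rw [abs_of_nonneg (hF.lc.nonneg x)]; exact hF.le_one x

section std

variable {E : Type} [NormedAddCommGroup E] [InnerProductSpace ℝ E] [FiniteDimensional ℝ E]
  [MeasurableSpace E] [BorelSpace E]

/-- Sidak's inequality for the standard Gaussian measure, with an additional even factor -/
lemma sidak_std {ι : Type*} (s : Finset ι) (b : ι → E) {g : ι → ℝ → ℝ}
    (hg : ∀ i ∈ s, Nice (g i)) (hge : ∀ i ∈ s, ∀ x, g i (-x) = g i x)
    {K : E → ℝ} (hK : Nice K) (hKe : ∀ x, K (-x) = K x) :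
    (∏ i ∈ s, ∫ x, g i ⟪b i, x⟫ ∂(stdGaussian E)) * (∫ x, K x ∂(stdGaussian E))
      ≤ ∫ x, (∏ i ∈ s, g i ⟪b i, x⟫) * K x ∂(stdGaussian E) := by
  classical
  induction s using Finset.induction_on with
  | empty => simp
  | insert i s hi ih =>
    have hgi := hg i (Finset.mem_insert_self _ _)
    have hgs : ∀ j ∈ s, Nice (g j) := fun j hj => hg j (Finset.mem_insert_of_mem hj)
    have hgei := hge i (Finset.mem_insert_self _ _)
    have hges : ∀ j ∈ s, ∀ x, g j (-x) = g j x := fun j hj => hge j (Finset.mem_insert_of_mem hj)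
    have ih' := ih hgs hges
    have hprodLC : LC (fun x => ∏ j ∈ s, g j ⟪b j, x⟫) := by
      refine LC.prod s fun j hj => ?_
      exact (hgs j hj).lc.comp (T := fun x : E => ⟪b j, x⟫) (fun x y p q _ => by
        simp [inner_add_right, real_inner_smul_right])
    have hprodm : Measurable (fun x => ∏ j ∈ s, g j ⟪b j, x⟫) := by
      refine Finset.measurable_fun_prod s fun j hj => ?_
      exact (hgs j hj).meas.comp (by fun_prop)
    have hprod1 : ∀ x, ∏ j ∈ s, g j ⟪b j, x⟫ ≤ 1 := fun x =>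
      Finset.prod_le_one (fun j hj => (hgs j hj).lc.nonneg _) (fun j hj => (hgs j hj).le_one _)
    have key := sidak_step (K := fun x => (∏ j ∈ s, g j ⟪b j, x⟫) * K x) (hprodLC.mul hK.lc)
      (fun x => by
        simp only [inner_neg_right, hKe]
        congr 1
        exact Finset.prod_congr rfl fun j hj => hges j hj _)
      (hprodm.mul hK.meas) (CK := 1) (fun x => by
        have h1 := hprod1 x
        have h2 := hK.le_one x
        have h3 := hK.lc.nonneg x
        have h4 := hprodLC.nonneg x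
        nlinarith)
      hgi.lc hgei hgi.meas hgi.le_one (b i)
    have hnn : 0 ≤ ∫ x, g i ⟪b i, x⟫ ∂(stdGaussian E) :=
      integral_nonneg fun x => hgi.lc.nonneg _
    rw [Finset.prod_insert hi, mul_assoc]
    calc _ ≤ (∫ x, g i ⟪b i, x⟫ ∂(stdGaussian E))
          * ∫ x, (∏ j ∈ s, g j ⟪b j, x⟫) * K x ∂(stdGaussian E) :=
          mul_le_mul_of_nonneg_left ih' hnn
      _ ≤ _ := key
      _ = _ := by
          congr 1
          funext x
          rw [Finset.prod_insert hi, mul_assoc]

end std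

/-- a centred Gaussian measure on a Euclidean space is a linear image of the standard one -/
lemma exists_rep {ι : Type} [Fintype ι] [DecidableEq ι] (ρ : Measure (EuclideanSpace ℝ ι))
    [IsGaussian ρ] (h0 : ∫ x, x ∂ρ = 0) :
    ∃ T : EuclideanSpace ℝ ι →L[ℝ] EuclideanSpace ℝ ι, ρ = (stdGaussian (EuclideanSpace ℝ ι)).map T := by
  set S : Matrix ι ι ℝ := Matrix.of fun i j =>
    covarianceBilin ρ (EuclideanSpace.basisFun ι ℝ i) (EuclideanSpace.basisFun ι ℝ j) with hS
  have hquad : ∀ x y : EuclideanSpace ℝ ι, covarianceBilin ρ x y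
      = ∑ i, ∑ j, x i * y j * S i j := by
    intro x y
    conv_lhs => rw [← (EuclideanSpace.basisFun ι ℝ).sum_repr' x,
      ← (EuclideanSpace.basisFun ι ℝ).sum_repr' y]
    simp only [map_sum, map_smul, EuclideanSpace.basisFun_inner, FunLike.coe_sum, FunLike.coe_smul,
      Finset.sum_apply, Pi.smul_apply, smul_eq_mul, hS, Matrix.of_apply, Finset.mul_sum]
    refine Finset.sum_comm.trans ?_
    refine Finset.sum_congr rfl fun i _ => Finset.sum_congr rfl fun j _ => ?_
    ring
  have hpsd : S.PosSemidef := by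
    refine Matrix.PosSemidef.of_dotProduct_mulVec_nonneg ?_ ?_
    · ext i j
      simp only [hS, Matrix.conjTranspose_apply, Matrix.of_apply, star_trivial]
      exact covarianceBilin_comm _ _
    · intro x
      have h1 := covarianceBilin_self_nonneg (μ := ρ) (WithLp.toLp 2 x)
      rw [hquad] at h1
      refine le_of_le_of_eq h1 ?_
      simp only [star_trivial, dotProduct, Matrix.mulVec, Finset.mul_sum]
      refine Finset.sum_congr rfl fun i _ => Finset.sum_congr rfl fun j _ => ?_
      ring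
  refine ⟨Matrix.toEuclideanCLM (𝕜 := ℝ) (CFC.sqrt S), ?_⟩
  have h1 : ρ = multivariateGaussian 0 S := by
    apply IsGaussian.ext
    · simp only [id_eq, integral_id_multivariateGaussian]
      exact h0
    · ext x y
      rw [covarianceBilin_multivariateGaussian hpsd, hquad]
      simp only [dotProduct, Matrix.mulVec, Finset.mul_sum]
      refine Finset.sum_congr rfl fun i _ => Finset.sum_congr rfl fun j _ => ?_
      ring
  rw [h1, multivariateGaussian]
  simp

section general

set_option linter.unusedSectionVars false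

variable {E : Type} [NormedAddCommGroup E] [NormedSpace ℝ E] [MeasurableSpace E] [BorelSpace E]
  [SecondCountableTopology E] [CompleteSpace E] {μ : Measure E} [IsGaussian μ]
  {ι : Type} [Fintype ι] [DecidableEq ι]

/-- a family of linear functionals as a map to a Euclidean space -/
noncomputable def toE (L : ι → StrongDual ℝ E) : E →L[ℝ] EuclideanSpace ℝ ι :=
  ((EuclideanSpace.equiv ι ℝ).symm : (ι → ℝ) →L[ℝ] EuclideanSpace ℝ ι).comp
    (ContinuousLinearMap.pi L)

lemma toE_apply (L : ι → StrongDual ℝ E) (x : E) (i : ι) : toE L x i = L i x := rfl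

lemma exists_rep' (hμ : ∫ x, x ∂μ = 0) (L : ι → StrongDual ℝ E) :
    ∃ b : ι → EuclideanSpace ℝ ι, μ.map (toE L)
      = (stdGaussian (EuclideanSpace ℝ ι)).map (fun z => toE (fun i => innerSL ℝ (b i)) z) := by
  have h0 : ∫ x, x ∂(μ.map (toE L)) = 0 := by
    rw [integral_map (by fun_prop) (by fun_prop)]
    rw [ContinuousLinearMap.integral_comp_comm _ IsGaussian.integrable_fun_id]
    rw [hμ, map_zero]
  obtain ⟨T, hT⟩ := exists_rep (μ.map (toE L)) h0
  refine ⟨fun i => ContinuousLinearMap.adjoint T (EuclideanSpace.basisFun ι ℝ i), ?_⟩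
  rw [hT]
  congr 1
  funext z
  ext i
  rw [toE_apply]
  simp only [innerSL_apply_apply, ContinuousLinearMap.adjoint_inner_left,
    EuclideanSpace.basisFun_inner]

/-- Sidak's inequality for centred Gaussian measures -/
lemma sidak_gauss (hμ : ∫ x, x ∂μ = 0) (L : ι → StrongDual ℝ E) {g : ι → ℝ → ℝ}
    (hg : ∀ i, Nice (g i)) (hge : ∀ i x, g i (-x) = g i x) :
    ∏ i, ∫ x, g i (L i x) ∂μ ≤ ∫ x, ∏ i, g i (L i x) ∂μ := by
  obtain ⟨b, hb⟩ := exists_rep' hμ L
  have hm : Measurable (fun z : EuclideanSpace ℝ ι => toE (fun i => innerSL ℝ (b i)) z) := by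
    fun_prop
  have e1 : ∀ G : EuclideanSpace ℝ ι → ℝ, Measurable G →
      ∫ x, G (toE L x) ∂μ = ∫ z, G (toE (fun i => innerSL ℝ (b i)) z)
        ∂(stdGaussian (EuclideanSpace ℝ ι)) := by
    intro G hG
    rw [← integral_map (f := G) (by fun_prop) hG.aestronglyMeasurable, hb,
      integral_map hm.aemeasurable hG.aestronglyMeasurable]
  have e2 : ∫ x, ∏ i, g i (L i x) ∂μ
      = ∫ z, ∏ i, g i ⟪b i, z⟫ ∂(stdGaussian (EuclideanSpace ℝ ι)) := by
    have := e1 (fun u => ∏ i, g i (u i)) (by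
      refine Finset.measurable_fun_prod _ fun i _ => ?_
      exact (hg i).meas.comp (by fun_prop))
    simpa [toE_apply] using this
  have e3 : ∀ i, ∫ x, g i (L i x) ∂μ
      = ∫ z, g i ⟪b i, z⟫ ∂(stdGaussian (EuclideanSpace ℝ ι)) := by
    intro i
    have := e1 (fun u => g i (u i)) ((hg i).meas.comp (by fun_prop))
    simpa [toE_apply] using this
  rw [e2]
  simp_rw [e3]
  have := sidak_std Finset.univ b (g := g) (fun i _ => hg i) (fun i _ => hge i)
    (K := fun _ => 1) ⟨LC.one, measurable_const, fun _ => le_rfl⟩ (fun _ => rfl)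
  simpa using this

/-- the doubling operator -/
noncomputable def dbl (F : ℝ → ℝ) (s : ℝ) : ℝ :=
  ∫ y, F (√2 / 2 * (s - y)) * F (√2 / 2 * (s + y)) ∂γ

lemma rot_eq (hμ : ∫ x, x ∂μ = 0) :
    (μ.prod μ).map (fun p : E × E => ((√2 / 2) • (p.1 - p.2), (√2 / 2) • (p.1 + p.2)))
      = μ.prod μ := by
  have h := IsGaussian.map_rotation_eq_self (μ := μ) (by simpa using hμ) (-(Real.pi / 4))
  have e : (ContinuousLinearMap.rotation (-(Real.pi / 4)) : E × E → E × E)
      = fun p : E × E => ((√2 / 2) • (p.1 - p.2), (√2 / 2) • (p.1 + p.2)) := by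
    funext p
    rw [ContinuousLinearMap.rotation_apply]
    simp only [Real.cos_neg, Real.sin_neg, Real.cos_pi_div_four, Real.sin_pi_div_four, neg_neg,
      smul_sub, smul_add, neg_smul, ← sub_eq_add_neg]
  rw [e] at h
  exact h

lemma integral_rot (hμ : ∫ x, x ∂μ = 0) {Ψ : E × E → ℝ} (hΨ : Measurable Ψ) :
    ∫ p, Ψ p ∂(μ.prod μ)
      = ∫ p, Ψ ((√2 / 2) • (p.1 - p.2), (√2 / 2) • (p.1 + p.2)) ∂(μ.prod μ) := by
  conv_lhs => rw [← rot_eq hμ]
  rw [integral_map (by fun_prop) hΨ.aestronglyMeasurable]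

lemma Nice.pair {F : ℝ → ℝ} (hF : Nice F) (s : ℝ) :
    Nice (fun y : ℝ => F (√2 / 2 * (s - y)) * F (√2 / 2 * (s + y))) where
  lc := by
    refine (hF.lc.comp (T := fun y : ℝ => √2 / 2 * (s - y)) ?_).mul
      (hF.lc.comp (T := fun y : ℝ => √2 / 2 * (s + y)) ?_)
    · intro x y a b hab
      simp only [smul_eq_mul]
      have : s = a * s + b * s := by rw [← add_mul, hab, one_mul]
      nth_rewrite 1 [this]
      ring
    · intro x y a b hab
      simp only [smul_eq_mul]
      have : s = a * s + b * s := by rw [← add_mul, hab, one_mul]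
      nth_rewrite 1 [this]
      ring
  meas := (hF.meas.comp (by fun_prop)).mul (hF.meas.comp (by fun_prop))
  le_one y := by
    have h1 := hF.le_one (√2 / 2 * (s - y))
    have h2 := hF.le_one (√2 / 2 * (s + y))
    have h3 := hF.lc.nonneg (√2 / 2 * (s - y))
    have h4 := hF.lc.nonneg (√2 / 2 * (s + y))
    nlinarith

lemma pair_even (F : ℝ → ℝ) (s y : ℝ) :
    F (√2 / 2 * (s - -y)) * F (√2 / 2 * (s + -y)) = F (√2 / 2 * (s - y)) * F (√2 / 2 * (s + y)) := by
  rw [sub_neg_eq_add, ← sub_eq_add_neg, mul_comm]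

/-- product of `F` over the functionals -/
noncomputable def IF (μ : Measure E) (L : ι → StrongDual ℝ E) (F : ℝ → ℝ) : ℝ :=
  ∫ x, ∏ i, F (L i x) ∂μ

lemma measurable_prodF (L : ι → StrongDual ℝ E) {F : ℝ → ℝ} (hF : Measurable F) :
    Measurable (fun x => ∏ i, F (L i x)) := by
  refine Finset.measurable_fun_prod _ fun i _ => ?_
  exact hF.comp (by fun_prop)

/-- the square of the functional as an average of Gaussian correlations -/
lemma sq_eq (hμ : ∫ x, x ∂μ = 0) (L : ι → StrongDual ℝ E) {F : ℝ → ℝ} (hF : Nice F) :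
    (IF μ L F) ^ 2 = ∫ x, (∫ y, ∏ i, (F (√2 / 2 * (L i x - L i y)) * F (√2 / 2 * (L i x + L i y)))
      ∂μ) ∂μ := by
  have hprod := measurable_prodF L hF.meas
  have h1 : (IF μ L F) ^ 2 = ∫ p : E × E, (∏ i, F (L i p.1)) * (∏ i, F (L i p.2)) ∂(μ.prod μ) := by
    rw [integral_prod_mul (fun x => ∏ i, F (L i x)) (fun x => ∏ i, F (L i x)), sq]
    rfl
  rw [h1, integral_rot hμ (Ψ := fun p : E × E => (∏ i, F (L i p.1)) * (∏ i, F (L i p.2)))
    ((hprod.comp measurable_fst).mul (hprod.comp measurable_snd))]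
  have h2 : ∀ p : E × E, (∏ i, F (L i ((√2 / 2) • (p.1 - p.2)))) * (∏ i, F (L i ((√2 / 2) • (p.1 + p.2))))
      = ∏ i, (F (√2 / 2 * (L i p.1 - L i p.2)) * F (√2 / 2 * (L i p.1 + L i p.2))) := by
    intro p
    rw [← Finset.prod_mul_distrib]
    refine Finset.prod_congr rfl fun i _ => ?_
    rw [map_smul, map_smul, map_sub, map_add, smul_eq_mul, smul_eq_mul]
  simp_rw [h2]
  rw [integral_prod]
  refine integrable_bdd (C := 1) ?_ (fun p => ?_)
  · refine Finset.measurable_fun_prod _ fun i _ => ?_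
    exact (hF.meas.comp (by fun_prop)).mul (hF.meas.comp (by fun_prop))
  · rw [Finset.abs_prod]
    refine Finset.prod_le_one (fun i _ => abs_nonneg _) (fun i _ => ?_)
    rw [abs_mul]
    have := hF.abs_le (√2 / 2 * (L i p.1 - L i p.2))
    have := hF.abs_le (√2 / 2 * (L i p.1 + L i p.2))
    have := abs_nonneg (F (√2 / 2 * (L i p.1 - L i p.2)))
    have := abs_nonneg (F (√2 / 2 * (L i p.1 + L i p.2)))
    nlinarith

lemma dbl_eq_of_law {L : StrongDual ℝ E} (hL : μ.map L = γ) {F : ℝ → ℝ} (hF : Nice F) (s : ℝ) :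
    ∫ y, F (√2 / 2 * (s - L y)) * F (√2 / 2 * (s + L y)) ∂μ = dbl F s := by
  unfold dbl
  rw [← hL, integral_map (by fun_prop) (hF.pair s).meas.aestronglyMeasurable]

/-- **doubling inequality** -/
lemma doubling (hμ : ∫ x, x ∂μ = 0) (L : ι → StrongDual ℝ E) (hL : ∀ i, μ.map (L i) = γ)
    {F : ℝ → ℝ} (hF : Nice F) : IF μ L (dbl F) ≤ (IF μ L F) ^ 2 := by
  rw [sq_eq hμ L hF]
  unfold IF
  have hm2 : Measurable (fun p : E × E => ∏ i, (F (√2 / 2 * (L i p.1 - L i p.2))
      * F (√2 / 2 * (L i p.1 + L i p.2)))) := by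
    refine Finset.measurable_fun_prod _ fun i _ => ?_
    exact (hF.meas.comp (by fun_prop)).mul (hF.meas.comp (by fun_prop))
  have hnn : ∀ x y, 0 ≤ ∏ i, (F (√2 / 2 * (L i x - L i y)) * F (√2 / 2 * (L i x + L i y))) :=
    fun x y => Finset.prod_nonneg fun i _ => mul_nonneg (hF.lc.nonneg _) (hF.lc.nonneg _)
  have hle1 : ∀ x y, ∏ i, (F (√2 / 2 * (L i x - L i y)) * F (√2 / 2 * (L i x + L i y))) ≤ 1 :=
    fun x y => Finset.prod_le_one (fun i _ => mul_nonneg (hF.lc.nonneg _) (hF.lc.nonneg _))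
      (fun i _ => (hF.pair (L i x)).le_one (L i y))
  refine integral_mono_of_nonneg ?_ ?_ ?_
  · refine Filter.Eventually.of_forall fun x => Finset.prod_nonneg fun i _ => ?_
    exact integral_nonneg fun y => mul_nonneg (hF.lc.nonneg _) (hF.lc.nonneg _)
  · have h1 := hm2.stronglyMeasurable.integral_prod_right' (ν := μ)
    refine integrable_bdd h1.measurable (C := 1) (fun x => ?_)
    rw [abs_of_nonneg (integral_nonneg fun y => hnn x y)]
    calc _ ≤ ∫ _, (1:ℝ) ∂μ := by
          apply integral_mono_of_nonneg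
          · exact Filter.Eventually.of_forall fun y => hnn x y
          · exact integrable_const _
          · exact Filter.Eventually.of_forall fun y => hle1 x y
      _ = 1 := by simp
  · refine Filter.Eventually.of_forall fun x => ?_
    have h1 := sidak_gauss hμ L (g := fun i y => F (√2 / 2 * (L i x - y)) * F (√2 / 2 * (L i x + y)))
      (fun i => hF.pair (L i x)) (fun i y => pair_even F (L i x) y)
    simp_rw [dbl_eq_of_law (hL _) hF] at h1
    exact h1

end general

end Pool.Agent.H98.Gauss
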