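import Mathlib
import Pool.Agent.H98.Doubling

open scoped ENNReal NNReal Topology RealInnerProductSpace MatrixOrder
open MeasureTheory Set ProbabilityTheory

namespace Pool.Agent.H98.Gauss

lemma integrable_id_γ : Integrable (fun x : ℝ => x) γ :=
  IsGaussian.integrable_fun_id

lemma integrable_sq_γ : Integrable (fun x : ℝ => x ^ 2) γ :=
  (memLp_id_gaussianReal 2).integrable_sq

lemma integral_id_γ : ∫ x : ℝ, x ∂γ = 0 := integral_id_gaussianReal

lemma integral_sq_γ : ∫ x : ℝ, x ^ 2 ∂γ = 1 := by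
  have h := variance_fun_id_gaussianReal (μ := 0) (v := 1)
  rw [variance_eq_integral (by fun_prop)] at h
  simpa [integral_id_gaussianReal] using h

lemma Nice.integrable {F : ℝ → ℝ} (hF : Nice F) : Integrable F γ :=
  integrable_bdd hF.meas hF.abs_le

lemma Nice.integrable_mul {F : ℝ → ℝ} (hF : Nice F) {ψ : ℝ → ℝ} (hψ : Integrable ψ γ)
    (hψm : Measurable ψ) : Integrable (fun x => ψ x * F x) γ := by
  refine hψ.mono (hψm.mul hF.meas).aestronglyMeasurable ?_
  refine Filter.Eventually.of_forall fun x => ?_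
  rw [norm_mul, Real.norm_eq_abs, Real.norm_eq_abs]
  have := hF.abs_le x
  have := abs_nonneg (ψ x)
  nlinarith [abs_nonneg (F x)]

/-- change of variables for the doubling operator -/
lemma integral_dbl {F : ℝ → ℝ} (hF : Nice F) {ψ : ℝ → ℝ} (hψ : Integrable ψ γ)
    (hψm : Measurable ψ) :
    ∫ s, ψ s * dbl F s ∂γ = ∫ p : ℝ × ℝ, ψ (√2 / 2 * (p.1 + p.2)) * (F p.1 * F p.2) ∂(γ.prod γ) := by
  have hr : √2 / 2 * (√2 / 2) = 1 / 2 := by
    have : √2 * √2 = 2 := Real.mul_self_sqrt (by norm_num)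
    nlinarith
  have hm : Measurable (fun p : ℝ × ℝ => ψ (√2 / 2 * (p.1 + p.2)) * (F p.1 * F p.2)) :=
    (hψm.comp (by fun_prop)).mul ((hF.meas.comp measurable_fst).mul (hF.meas.comp measurable_snd))
  rw [integral_rot (μ := γ) integral_id_γ hm]
  have e1 : ∀ p : ℝ × ℝ, ψ (√2 / 2 * ((√2 / 2) • (p.1 - p.2) + (√2 / 2) • (p.1 + p.2)))
      * (F ((√2 / 2) • (p.1 - p.2)) * F ((√2 / 2) • (p.1 + p.2)))
      = ψ p.1 * (F (√2 / 2 * (p.1 - p.2)) * F (√2 / 2 * (p.1 + p.2))) := by
    intro p
    simp only [smul_eq_mul]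
    have : √2 / 2 * (√2 / 2 * (p.1 - p.2) + √2 / 2 * (p.1 + p.2)) = p.1 := by
      calc _ = (√2 / 2 * (√2 / 2)) * (2 * p.1) := by ring
        _ = p.1 := by rw [hr]; ring
    rw [this]
  simp_rw [e1]
  rw [integral_prod]
  · congr 1
    funext s
    simp only
    rw [integral_const_mul]
    rfl
  · have h1 : Integrable (fun p : ℝ × ℝ => ψ p.1) (γ.prod γ) := hψ.comp_fst γ
    refine h1.mono ?_ ?_
    · exact ((hψm.comp measurable_fst).mul ((hF.meas.comp (by fun_prop)).mul
        (hF.meas.comp (by fun_prop)))).aestronglyMeasurable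
    · refine Filter.Eventually.of_forall fun p => ?_
      rw [norm_mul, Real.norm_eq_abs, Real.norm_eq_abs]
      have h2 := (hF.pair p.1).abs_le p.2
      have := abs_nonneg (ψ p.1)
      nlinarith [abs_nonneg (F (√2 / 2 * (p.1 - p.2)) * F (√2 / 2 * (p.1 + p.2)))]

/-- mass -/
noncomputable def m0 (F : ℝ → ℝ) : ℝ := ∫ x, F x ∂γ
/-- first moment -/
noncomputable def m1 (F : ℝ → ℝ) : ℝ := ∫ x, x * F x ∂γ
/-- second moment -/
noncomputable def m2 (F : ℝ → ℝ) : ℝ := ∫ x, x ^ 2 * F x ∂γ

lemma m0_dbl {F : ℝ → ℝ} (hF : Nice F) : m0 (dbl F) = m0 F ^ 2 := by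
  have := integral_dbl hF (ψ := fun _ => 1) (integrable_const _) measurable_const
  simp only [one_mul] at this
  unfold m0
  rw [this, integral_prod_mul, sq]

lemma m1_dbl {F : ℝ → ℝ} (hF : Nice F) : m1 (dbl F) = √2 * m0 F * m1 F := by
  have h := integral_dbl hF (ψ := fun x => x) integrable_id_γ measurable_id
  unfold m1
  rw [h]
  have i1 : Integrable (fun p : ℝ × ℝ => (p.1 * F p.1) * F p.2) (γ.prod γ) :=
    (hF.integrable_mul integrable_id_γ measurable_id).mul_prod hF.integrable
  have i2 : Integrable (fun p : ℝ × ℝ => F p.1 * (p.2 * F p.2)) (γ.prod γ) :=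
    hF.integrable.mul_prod (hF.integrable_mul integrable_id_γ measurable_id)
  have e : ∀ p : ℝ × ℝ, √2 / 2 * (p.1 + p.2) * (F p.1 * F p.2)
      = √2 / 2 * ((p.1 * F p.1) * F p.2 + F p.1 * (p.2 * F p.2)) := fun p => by ring
  simp_rw [e]
  rw [integral_const_mul, integral_add i1 i2, integral_prod_mul (fun x => x * F x) F,
    integral_prod_mul F (fun x => x * F x)]
  unfold m0
  ring

lemma m2_dbl {F : ℝ → ℝ} (hF : Nice F) : m2 (dbl F) = m0 F * m2 F + m1 F ^ 2 := by
  have h := integral_dbl hF (ψ := fun x => x ^ 2) integrable_sq_γ (by fun_prop)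
  unfold m2
  rw [h]
  have hr : √2 / 2 * (√2 / 2) = 1 / 2 := by
    have : √2 * √2 = 2 := Real.mul_self_sqrt (by norm_num)
    nlinarith
  have i1 : Integrable (fun p : ℝ × ℝ => (p.1 ^ 2 * F p.1) * F p.2) (γ.prod γ) :=
    (hF.integrable_mul integrable_sq_γ (by fun_prop)).mul_prod hF.integrable
  have i2 : Integrable (fun p : ℝ × ℝ => F p.1 * (p.2 ^ 2 * F p.2)) (γ.prod γ) :=
    hF.integrable.mul_prod (hF.integrable_mul integrable_sq_γ (by fun_prop))
  have i3 : Integrable (fun p : ℝ × ℝ => (p.1 * F p.1) * (p.2 * F p.2)) (γ.prod γ) :=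
    (hF.integrable_mul integrable_id_γ measurable_id).mul_prod
      (hF.integrable_mul integrable_id_γ measurable_id)
  have e : ∀ p : ℝ × ℝ, (√2 / 2 * (p.1 + p.2)) ^ 2 * (F p.1 * F p.2)
      = 1 / 2 * ((p.1 ^ 2 * F p.1) * F p.2 + F p.1 * (p.2 ^ 2 * F p.2))
        + (p.1 * F p.1) * (p.2 * F p.2) := fun p => by
    calc _ = (√2 / 2 * (√2 / 2)) * (p.1 + p.2) ^ 2 * (F p.1 * F p.2) := by ring
      _ = _ := by rw [hr]; ring
  simp_rw [e]
  have i4 : Integrable (fun p : ℝ × ℝ => 1 / 2 * ((p.1 ^ 2 * F p.1) * F p.2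
      + F p.1 * (p.2 ^ 2 * F p.2))) (γ.prod γ) := (i1.add i2).const_mul _
  rw [integral_add i4 i3, integral_const_mul, integral_add i1 i2,
    integral_prod_mul (fun x => x ^ 2 * F x) F, integral_prod_mul F (fun x => x ^ 2 * F x),
    integral_prod_mul (fun x => x * F x) (fun x => x * F x)]
  unfold m0 m1
  ring

lemma Nice.dbl {F : ℝ → ℝ} (hF : Nice F) : Nice (dbl F) where
  lc := by
    refine LC.marginal (F := fun p : ℝ × ℝ => F (√2 / 2 * (p.1 - p.2)) * F (√2 / 2 * (p.1 + p.2)))
      ?_ (C := 1) (fun p => (hF.pair p.1).le_one p.2) (fun x => (hF.pair x).meas)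
    refine (hF.lc.comp (T := fun p : ℝ × ℝ => √2 / 2 * (p.1 - p.2)) ?_).mul
      (hF.lc.comp (T := fun p : ℝ × ℝ => √2 / 2 * (p.1 + p.2)) ?_)
    · intro x y a b _
      simp only [Prod.fst_add, Prod.smul_fst, Prod.snd_add, Prod.smul_snd, smul_eq_mul]
      ring
    · intro x y a b _
      simp only [Prod.fst_add, Prod.smul_fst, Prod.snd_add, Prod.smul_snd, smul_eq_mul]
      ring
  meas := by
    have hm : Measurable (fun p : ℝ × ℝ => F (√2 / 2 * (p.1 - p.2)) * F (√2 / 2 * (p.1 + p.2))) :=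
      (hF.meas.comp (by fun_prop)).mul (hF.meas.comp (by fun_prop))
    exact (hm.stronglyMeasurable.integral_prod_right' (ν := γ)).measurable
  le_one s := by
    unfold Gauss.dbl
    calc _ ≤ ∫ _, (1:ℝ) ∂γ := by
          apply integral_mono_of_nonneg
          · exact Filter.Eventually.of_forall fun y => (hF.pair s).lc.nonneg y
          · exact integrable_const _
          · exact Filter.Eventually.of_forall fun y => (hF.pair s).le_one y
      _ = 1 := by simp

/-- Jensen's inequality for the exponential -/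
lemma exp_integral_le {α : Type*} [MeasurableSpace α] {ν : Measure α} [IsProbabilityMeasure ν]
    {q : α → ℝ} (hq : Integrable q ν) (he : Integrable (fun x => Real.exp (q x)) ν) :
    Real.exp (∫ x, q x ∂ν) ≤ ∫ x, Real.exp (q x) ∂ν := by
  set q0 := ∫ x, q x ∂ν with hq0
  have h1 : ∀ x, Real.exp q0 * (1 + (q x - q0)) ≤ Real.exp (q x) := by
    intro x
    have h2 : Real.exp (q x) = Real.exp q0 * Real.exp (q x - q0) := by
      rw [← Real.exp_add]; congr 1; ring
    rw [h2]
    apply mul_le_mul_of_nonneg_left _ (Real.exp_pos _).le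
    have := Real.add_one_le_exp (q x - q0)
    linarith
  have h3 : ∫ x, Real.exp q0 * (1 + (q x - q0)) ∂ν = Real.exp q0 := by
    have hi : Integrable (fun x => q x - q0) ν := hq.sub (integrable_const _)
    rw [integral_const_mul, integral_add (integrable_const _) hi,
      integral_sub hq (integrable_const _)]
    simp [← hq0]
  rw [← h3]
  refine integral_mono ?_ he h1
  exact ((integrable_const _).add (hq.sub (integrable_const _))).const_mul _

/-- weighted version of Jensen's inequality -/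
lemma exp_integral_le' {F : ℝ → ℝ} (hF : Nice F) (hM : 0 < m0 F) {q : ℝ → ℝ}
    (hq : Integrable (fun x => q x * F x) γ) (he : Integrable (fun x => Real.exp (q x) * F x) γ) :
    m0 F * Real.exp ((∫ x, q x * F x ∂γ) / m0 F) ≤ ∫ x, Real.exp (q x) * F x ∂γ := by
  set q0 := (∫ x, q x * F x ∂γ) / m0 F with hq0
  have h1 : ∀ x, Real.exp q0 * ((1 - q0) * F x + q x * F x) ≤ Real.exp (q x) * F x := by
    intro x
    have h2 : Real.exp (q x) = Real.exp q0 * Real.exp (q x - q0) := by
      rw [← Real.exp_add]; congr 1; ring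
    have h4 := hF.lc.nonneg x
    have h3 := Real.add_one_le_exp (q x - q0)
    calc Real.exp q0 * ((1 - q0) * F x + q x * F x)
        = Real.exp q0 * ((q x - q0 + 1) * F x) := by ring
      _ ≤ Real.exp q0 * (Real.exp (q x - q0) * F x) := by gcongr
      _ = Real.exp (q x) * F x := by rw [h2]; ring
  have h3 : ∫ x, Real.exp q0 * ((1 - q0) * F x + q x * F x) ∂γ = m0 F * Real.exp q0 := by
    rw [integral_const_mul, integral_add (hF.integrable.const_mul _) hq, integral_const_mul]
    have : ∫ x, q x * F x ∂γ = q0 * m0 F := by rw [hq0]; field_simp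
    rw [this]
    unfold m0
    ring
  rw [← h3]
  refine integral_mono ?_ he h1
  exact ((hF.integrable.const_mul _).add hq).const_mul _

end Pool.Agent.H98.Gauss
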