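import Mathlib
import Pool.Agent.H98.Moments

open scoped ENNReal NNReal Topology RealInnerProductSpace MatrixOrder
open MeasureTheory Set ProbabilityTheory

namespace Pool.Agent.H98.Gauss

lemma pdf_eq (x : ℝ) : gaussianPDFReal 0 1 x = (√(2 * Real.pi))⁻¹ * Real.exp (-x ^ 2 / 2) := by
  unfold gaussianPDFReal
  simp

lemma integral_γ (f : ℝ → ℝ) :
    ∫ x, f x ∂γ = ∫ x, (√(2 * Real.pi))⁻¹ * Real.exp (-x ^ 2 / 2) * f x := by
  rw [γ, integral_gaussianReal_eq_integral_smul one_ne_zero]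
  simp_rw [pdf_eq, smul_eq_mul]

/-- change of variables: smoothing by a Gaussian of variance `δ` -/
lemma smooth_eq (F : ℝ → ℝ) {δ : ℝ} (hδ : 0 < δ) (c : ℝ) :
    ∫ z, F (c + √δ * z) ∂γ
      = (√δ)⁻¹ * ∫ x, Real.exp (-(x - c) ^ 2 / (2 * δ) + x ^ 2 / 2) * F x ∂γ := by
  have hs : 0 < √δ := Real.sqrt_pos.2 hδ
  have hss : √δ ^ 2 = δ := Real.sq_sqrt hδ.le
  rw [integral_γ, integral_γ, ← integral_const_mul]
  set G : ℝ → ℝ := fun x => (√(2 * Real.pi))⁻¹ * Real.exp (-(x - c) ^ 2 / (2 * δ)) * F x with hG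
  have h1 : ∀ z, (√(2 * Real.pi))⁻¹ * Real.exp (-z ^ 2 / 2) * F (c + √δ * z)
      = (fun y => G (c + y)) (√δ * z) := by
    intro z
    simp only [hG]
    congr 3
    rw [add_sub_cancel_left, mul_pow, hss]
    field_simp
  simp_rw [h1]
  rw [Measure.integral_comp_mul_left (fun y => G (c + y)), abs_of_pos (inv_pos.2 hs), smul_eq_mul,
    integral_add_left_eq_self G c, ← integral_const_mul]
  congr 1
  funext x
  simp only [hG]
  have : Real.exp (-(x - c) ^ 2 / (2 * δ)) =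
      Real.exp (-x ^ 2 / 2) * Real.exp (-(x - c) ^ 2 / (2 * δ) + x ^ 2 / 2) := by
    rw [← Real.exp_add]; congr 1; ring
  rw [this]
  ring

/-- shift of a Gaussian variable -/
lemma shift_eq (f : ℝ → ℝ) (t : ℝ) :
    ∫ z, f z ∂γ = ∫ z, Real.exp (-t * z - t ^ 2 / 2) * f (z + t) ∂γ := by
  rw [integral_γ, integral_γ]
  rw [← integral_add_right_eq_self (fun x => (√(2 * Real.pi))⁻¹ * Real.exp (-x ^ 2 / 2) * f x) t]
  congr 1
  funext z
  have : Real.exp (-(z + t) ^ 2 / 2) = Real.exp (-z ^ 2 / 2) * Real.exp (-t * z - t ^ 2 / 2) := by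
    rw [← Real.exp_add]; congr 1; ring
  rw [this]; ring

/-- lower bound for a smoothed function in terms of its first moments -/
lemma smooth_ge {F : ℝ → ℝ} (hF : Nice F) (hM : 0 < m0 F) {δ : ℝ} (hδ : 0 < δ) (hδ1 : δ < 1)
    (c : ℝ) :
    (√δ)⁻¹ * (m0 F * Real.exp (-(m2 F / m0 F - 2 * (m1 F / m0 F) * c + c ^ 2) / (2 * δ)
      + (m2 F / m0 F) / 2)) ≤ ∫ z, F (c + √δ * z) ∂γ := by
  rw [smooth_eq F hδ c]
  have hs : 0 < √δ := Real.sqrt_pos.2 hδ
  apply mul_le_mul_of_nonneg_left _ (inv_pos.2 hs).le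
  set q : ℝ → ℝ := fun x => -(x - c) ^ 2 / (2 * δ) + x ^ 2 / 2 with hq
  have hq' : ∀ x, q x = (1 / 2 - 1 / (2 * δ)) * x ^ 2 + (c / δ) * x - c ^ 2 / (2 * δ) := by
    intro x; simp only [hq]; field_simp; ring
  have i1 : Integrable (fun x => x ^ 2 * F x) γ := hF.integrable_mul integrable_sq_γ (by fun_prop)
  have i2 : Integrable (fun x => x * F x) γ := hF.integrable_mul integrable_id_γ measurable_id
  have i0 : Integrable F γ := hF.integrable
  have e1 : (fun x => q x * F x) = fun x => (1 / 2 - 1 / (2 * δ)) * (x ^ 2 * F x)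
      + (c / δ) * (x * F x) - c ^ 2 / (2 * δ) * F x := by
    funext x; rw [hq']; ring
  have hqi : Integrable (fun x => q x * F x) γ := by
    rw [e1]; exact ((i1.const_mul _).add (i2.const_mul _)).sub (i0.const_mul _)
  have hqval : (∫ x, q x * F x ∂γ) / m0 F
      = -(m2 F / m0 F - 2 * (m1 F / m0 F) * c + c ^ 2) / (2 * δ) + (m2 F / m0 F) / 2 := by
    rw [e1]
    have i3 : Integrable (fun x => (1 / 2 - 1 / (2 * δ)) * (x ^ 2 * F x)
      + (c / δ) * (x * F x)) γ := (i1.const_mul _).add (i2.const_mul _)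
    rw [integral_sub i3 (i0.const_mul _), integral_add (i1.const_mul _) (i2.const_mul _),
      integral_const_mul, integral_const_mul, integral_const_mul]
    change ((1 / 2 - 1 / (2 * δ)) * m2 F + c / δ * m1 F - c ^ 2 / (2 * δ) * m0 F) / m0 F = _
    field_simp
    ring
  -- exponential bound
  have hbound : ∀ x, q x ≤ c ^ 2 / (2 * (1 - δ)) := by
    intro x
    have h1 : 0 < 1 - δ := by linarith
    have : q x = -((1 - δ) / (2 * δ)) * (x - c / (1 - δ)) ^ 2 + c ^ 2 / (2 * (1 - δ)) := by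
      simp only [hq]; field_simp; ring
    rw [this]
    have h2 : 0 ≤ (1 - δ) / (2 * δ) * (x - c / (1 - δ)) ^ 2 := by positivity
    linarith
  have hqm : Measurable q := by simp only [hq]; fun_prop
  have hei : Integrable (fun x => Real.exp (q x) * F x) γ := by
    refine integrable_bdd (hqm.exp.mul hF.meas) (C := Real.exp (c ^ 2 / (2 * (1 - δ)))) (fun x => ?_)
    rw [abs_mul, abs_of_pos (Real.exp_pos _)]
    calc Real.exp (q x) * |F x| ≤ Real.exp (c ^ 2 / (2 * (1 - δ))) * 1 := by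
          apply mul_le_mul (Real.exp_le_exp.2 (hbound x)) (hF.abs_le x) (abs_nonneg _)
            (Real.exp_pos _).le
      _ = _ := mul_one _
  have key := exp_integral_le' hF hM hqi hei
  rw [hqval] at key
  exact key

end Pool.Agent.H98.Gauss
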