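import Mathlib
import Pool.Agent.H98.Jensen

open scoped ENNReal NNReal Topology RealInnerProductSpace MatrixOrder
open MeasureTheory Set ProbabilityTheory

namespace Pool.Agent.H98.Gauss

lemma centered_prod {E F : Type} [NormedAddCommGroup E] [NormedSpace ℝ E] [MeasurableSpace E]
    [BorelSpace E] [SecondCountableTopology E] [CompleteSpace E]
    [NormedAddCommGroup F] [NormedSpace ℝ F] [MeasurableSpace F]
    [BorelSpace F] [SecondCountableTopology F] [CompleteSpace F]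
    {μ : Measure E} {ν : Measure F} [IsGaussian μ] [IsGaussian ν]
    (hμ : ∫ x, x ∂μ = 0) (hν : ∫ x, x ∂ν = 0) : ∫ p, p ∂(μ.prod ν) = 0 := by
  have h1 : Integrable (fun p : E × F => p.1) (μ.prod ν) :=
    (IsGaussian.integrable_fun_id (μ := μ)).comp_fst ν
  have h2 : Integrable (fun p : E × F => p.2) (μ.prod ν) :=
    (IsGaussian.integrable_fun_id (μ := ν)).comp_snd μ
  have h3 : ∫ p : E × F, p ∂(μ.prod ν) = ∫ p : E × F, (p.1, p.2) ∂(μ.prod ν) := rfl
  rw [h3, integral_pair h1 h2, integral_fun_fst (fun x => x), integral_fun_snd (fun x => x), hμ, hν]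
  simp

variable {m : ℕ}

/-- Euclidean space of dimension `m` -/
abbrev Em (m : ℕ) := EuclideanSpace ℝ (Fin m)

/-- the smoothed linear functionals -/
noncomputable def Ls (m : ℕ) (κ r : ℝ) (i : Fin m) : StrongDual ℝ (ℝ × (Em m × Em m)) :=
  (κ * (√m)⁻¹) • (ContinuousLinearMap.fst ℝ ℝ (Em m × Em m))
    + κ • ((EuclideanSpace.proj i : Em m →L[ℝ] ℝ).comp
      ((ContinuousLinearMap.fst ℝ (Em m) (Em m)).comp (ContinuousLinearMap.snd ℝ ℝ (Em m × Em m))))
    + r • ((EuclideanSpace.proj i : Em m →L[ℝ] ℝ).comp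
      ((ContinuousLinearMap.snd ℝ (Em m) (Em m)).comp (ContinuousLinearMap.snd ℝ ℝ (Em m × Em m))))

lemma Ls_apply (κ r : ℝ) (i : Fin m) (p : ℝ × (Em m × Em m)) :
    Ls m κ r i p = κ * ((√m)⁻¹ * p.1 + p.2.1 i) + r * p.2.2 i := by
  simp [Ls]
  ring

lemma law_Ls (hm : 0 < m) {ρ : Measure (Em m)} [IsGaussian ρ] (hρ : ∫ x, x ∂ρ = 0)
    (hv : ∀ i, Var[fun x : Em m => x i; ρ] = 1 - 1 / m) {κ r : ℝ} (hκr : κ ^ 2 + r ^ 2 = 1)
    (i : Fin m) :
    (γ.prod (ρ.prod (stdGaussian (Em m)))).map (Ls m κ r i) = γ := by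
  have hm' : (0:ℝ) < m := by exact_mod_cast hm
  rw [IsGaussian.map_eq_gaussianReal]
  have hcent : ∫ p, p ∂(γ.prod (ρ.prod (stdGaussian (Em m)))) = 0 :=
    centered_prod integral_id_γ (centered_prod hρ integral_id_stdGaussian)
  have hmean : (γ.prod (ρ.prod (stdGaussian (Em m))))[Ls m κ r i] = 0 := by
    rw [(Ls m κ r i).integral_comp_id_comm IsGaussian.integrable_id]
    simp only [hcent, map_zero]
  have hvar : Var[Ls m κ r i; γ.prod (ρ.prod (stdGaussian (Em m)))] = 1 := by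
    rw [variance_dual_prod IsGaussian.memLp_two_id IsGaussian.memLp_two_id,
      variance_dual_prod IsGaussian.memLp_two_id IsGaussian.memLp_two_id]
    have e1 : ((Ls m κ r i).comp (.inl ℝ ℝ (Em m × Em m)) : ℝ → ℝ) = fun x => (κ * (√m)⁻¹) * x := by
      funext x
      simp [Ls_apply]; ring
    have e2 : (((Ls m κ r i).comp (.inr ℝ ℝ (Em m × Em m))).comp (.inl ℝ (Em m) (Em m)) : Em m → ℝ)
        = fun x => κ * x i := by
      funext x
      simp [Ls_apply]
    have e3 : (((Ls m κ r i).comp (.inr ℝ ℝ (Em m × Em m))).comp (.inr ℝ (Em m) (Em m)) : Em m → ℝ)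
        = fun x => r * x i := by
      funext x
      simp [Ls_apply]
    rw [e1, e2, e3, variance_const_mul, variance_const_mul, variance_const_mul, hv i]
    have h1 : Var[fun x : ℝ => x; γ] = 1 := by
      simp
    have h2 : Var[fun x : Em m => x i; stdGaussian (Em m)] = 1 := by
      have := variance_dual_stdGaussian (E := Em m) (EuclideanSpace.proj i : Em m →L[ℝ] ℝ)
      have h3 : ‖(EuclideanSpace.proj i : Em m →L[ℝ] ℝ)‖ = 1 := by
        have h4 : (EuclideanSpace.proj i : Em m →L[ℝ] ℝ)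
            = innerSL ℝ (EuclideanSpace.basisFun (Fin m) ℝ i) := by
          ext x
          rw [innerSL_apply_apply, EuclideanSpace.basisFun_inner]
          rfl
        rw [h4, innerSL_apply_norm]
        simp
      rw [h3] at this
      simpa using this
    rw [h1, h2]
    have h3 : (√(m:ℝ))⁻¹ ^ 2 = 1 / m := by
      rw [inv_pow, Real.sq_sqrt hm'.le, one_div]
    rw [mul_pow, h3]
    calc κ ^ 2 * (1 / (m:ℝ)) * 1 + (κ ^ 2 * (1 - 1 / m) + r ^ 2 * 1) = κ ^ 2 + r ^ 2 := by ring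
      _ = 1 := hκr
  rw [hmean, hvar]
  simp

/-- the quadratic exponent -/
noncomputable def q0 (b s δ c : ℝ) : ℝ := -(s - 2 * b * c + c ^ 2) / (2 * δ) + s / 2

lemma q0_le {b s δ c : ℝ} (hδ : 0 < δ) : q0 b s δ c ≤ (b ^ 2 - s) / (2 * δ) + s / 2 := by
  unfold q0
  have : -(s - 2 * b * c + c ^ 2) / (2 * δ) ≤ (b ^ 2 - s) / (2 * δ) := by
    apply div_le_div_of_nonneg_right _ (by positivity)
    nlinarith [sq_nonneg (b - c)]
  linarith

lemma measurable_q0 (b s δ : ℝ) : Measurable (q0 b s δ) := by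
  unfold q0; fun_prop

/-- integrating out the smoothing variables -/
lemma inner_ge {F : ℝ → ℝ} (hF : Nice F) (hM : 0 < m0 F) {δ : ℝ} (hδ : 0 < δ) (hδ1 : δ < 1)
    (c : Fin m → ℝ) :
    ((√δ)⁻¹ * m0 F) ^ m * Real.exp (∑ i, q0 (m1 F / m0 F) (m2 F / m0 F) δ (c i))
      ≤ ∫ z, ∏ i, F (c i + √δ * z i) ∂(stdGaussian (Em m)) := by
  have e1 : ∫ z, ∏ i, F (c i + √δ * z i) ∂(stdGaussian (Em m))
      = ∏ i, ∫ z, F (c i + √δ * z) ∂γ := by
    rw [← map_pi_eq_stdGaussian, integral_map (by fun_prop)]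
    · exact integral_fintype_prod_eq_prod (fun i z => F (c i + √δ * z))
    · refine (Finset.measurable_fun_prod _ fun i _ => ?_).aestronglyMeasurable
      exact hF.meas.comp (by fun_prop)
  have hs : 0 < √δ := Real.sqrt_pos.2 hδ
  rw [e1, Real.exp_sum]
  have e2 : ((√δ)⁻¹ * m0 F) ^ m = ∏ _i : Fin m, ((√δ)⁻¹ * m0 F) := by simp
  rw [e2, ← Finset.prod_mul_distrib]
  refine Finset.prod_le_prod (fun i _ => by positivity) (fun i _ => ?_)
  have := smooth_ge hF hM hδ hδ1 (c i)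
  unfold q0
  rw [mul_assoc]
  exact this

/-- Jensen's inequality over the vector `y` -/
lemma y_step {ρ : Measure (Em m)} [IsGaussian ρ] (hρ : ∫ x, x ∂ρ = 0)
    (hv : ∀ i, Var[fun x : Em m => x i; ρ] = 1 - 1 / m) {b s δ κ a : ℝ} (hδ : 0 < δ) :
    Real.exp (m * q0 b s δ (κ * a) - κ ^ 2 * (m * (1 - 1 / m)) / (2 * δ))
      ≤ ∫ y, Real.exp (∑ i, q0 b s δ (κ * (a + y i))) ∂ρ := by
  have hmem : ∀ i, MemLp (fun y : Em m => y i) 2 ρ := fun i =>
    IsGaussian.memLp_dual ρ (EuclideanSpace.proj i : Em m →L[ℝ] ℝ) 2 (by simp)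
  have hi1 : ∀ i, Integrable (fun y : Em m => y i) ρ := fun i => (hmem i).integrable (by norm_num)
  have hi2 : ∀ i, Integrable (fun y : Em m => y i ^ 2) ρ := fun i => (hmem i).integrable_sq
  have hmean : ∀ i, ∫ y : Em m, y i ∂ρ = 0 := by
    intro i
    have := (EuclideanSpace.proj i : Em m →L[ℝ] ℝ).integral_comp_id_comm
      (IsGaussian.integrable_id (μ := ρ))
    simp only [hρ, map_zero] at this
    simpa using this
  have hsq : ∀ i, ∫ y : Em m, y i ^ 2 ∂ρ = 1 - 1 / m := by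
    intro i
    have h1 := hv i
    rw [variance_eq_integral (by fun_prop), hmean i] at h1
    simpa using h1
  have hq : ∀ y : Em m, ∑ i, q0 b s δ (κ * (a + y i))
      = ∑ i, (q0 b s δ (κ * a) + ((b * κ - κ ^ 2 * a) / δ) * y i - κ ^ 2 / (2 * δ) * y i ^ 2) := by
    intro y
    refine Finset.sum_congr rfl fun i _ => ?_
    unfold q0
    field_simp
    ring
  have hterm : ∀ i, Integrable (fun y : Em m => q0 b s δ (κ * a) + ((b * κ - κ ^ 2 * a) / δ) * y i
      - κ ^ 2 / (2 * δ) * y i ^ 2) ρ := fun i =>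
    ((integrable_const _).add ((hi1 i).const_mul _)).sub ((hi2 i).const_mul _)
  have hqi : Integrable (fun y : Em m => ∑ i, q0 b s δ (κ * (a + y i))) ρ := by
    simp_rw [hq]
    exact integrable_finsetSum _ fun i _ => hterm i
  have hval : ∫ y, ∑ i, q0 b s δ (κ * (a + y i)) ∂ρ
      = m * q0 b s δ (κ * a) - κ ^ 2 * (m * (1 - 1 / m)) / (2 * δ) := by
    simp_rw [hq]
    rw [integral_finsetSum _ (fun i _ => hterm i)]
    have h1 : ∀ i, ∫ y : Em m, (q0 b s δ (κ * a) + ((b * κ - κ ^ 2 * a) / δ) * y i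
        - κ ^ 2 / (2 * δ) * y i ^ 2) ∂ρ = q0 b s δ (κ * a) - κ ^ 2 / (2 * δ) * (1 - 1 / m) := by
      intro i
      have h2 : Integrable (fun y : Em m => q0 b s δ (κ * a) + ((b * κ - κ ^ 2 * a) / δ) * y i) ρ :=
        (integrable_const _).add ((hi1 i).const_mul _)
      rw [integral_sub h2 ((hi2 i).const_mul _), integral_add (integrable_const _)
        ((hi1 i).const_mul _), integral_const_mul, integral_const_mul, hmean i, hsq i]
      simp
    simp_rw [h1]
    rw [Finset.sum_const, Finset.card_univ, Fintype.card_fin, nsmul_eq_mul]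
    ring
  have hei : Integrable (fun y : Em m => Real.exp (∑ i, q0 b s δ (κ * (a + y i)))) ρ := by
    refine integrable_bdd ?_ (C := Real.exp (m * ((b ^ 2 - s) / (2 * δ) + s / 2))) (fun y => ?_)
    · refine Measurable.exp ?_
      refine Finset.measurable_fun_sum _ fun i _ => ?_
      exact (measurable_q0 b s δ).comp (by fun_prop)
    · rw [abs_of_pos (Real.exp_pos _)]
      apply Real.exp_le_exp.2
      calc ∑ i, q0 b s δ (κ * (a + y i)) ≤ ∑ _i : Fin m, ((b ^ 2 - s) / (2 * δ) + s / 2) :=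
            Finset.sum_le_sum fun i _ => q0_le hδ
        _ = m * ((b ^ 2 - s) / (2 * δ) + s / 2) := by simp; ring
  rw [← hval]
  exact exp_integral_le hqi hei

/-- Jensen's inequality over the common factor -/
lemma z_step (hm : 0 < m) {b s δ κ : ℝ} (hδ : 0 < δ) (hκ : κ ^ 2 = 1 - δ) :
    Real.exp (m * ((s - b ^ 2) / 2 - (s - b ^ 2) / (2 * δ)) - κ ^ 2 / (2 * δ))
      ≤ ∫ z, Real.exp (m * q0 b s δ (κ * ((√m)⁻¹ * z))) ∂γ := by
  have hm' : (0:ℝ) < m := by exact_mod_cast hm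
  have hsm : 0 < √(m:ℝ) := Real.sqrt_pos.2 hm'
  have hsm2 : √(m:ℝ) ^ 2 = m := Real.sq_sqrt hm'.le
  set t := κ * b * √m with ht
  rw [shift_eq _ t]
  have e1 : ∀ z : ℝ, Real.exp (-t * z - t ^ 2 / 2) * Real.exp (m * q0 b s δ (κ * ((√m)⁻¹ * (z + t))))
      = Real.exp (-t * z - t ^ 2 / 2 + m * q0 b s δ (κ * ((√m)⁻¹ * (z + t)))) := by
    intro z; rw [Real.exp_add]
  simp_rw [e1]
  have hct : κ * ((√(m:ℝ))⁻¹ * t) = κ ^ 2 * b := by rw [ht]; field_simp
  -- explicit quadratic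
  have hq : ∀ z : ℝ, -t * z - t ^ 2 / 2 + m * q0 b s δ (κ * ((√m)⁻¹ * (z + t)))
      = (m * q0 b s δ (κ ^ 2 * b) - t ^ 2 / 2)
        + (-t + m * ((b - κ ^ 2 * b) / δ) * (κ * (√m)⁻¹)) * z - κ ^ 2 / (2 * δ) * z ^ 2 := by
    intro z
    have h1 : κ * ((√(m:ℝ))⁻¹ * (z + t)) = κ * (√(m:ℝ))⁻¹ * z + κ ^ 2 * b := by
      rw [← hct]; ring
    rw [h1]
    unfold q0
    have h2 : (κ * (√(m:ℝ))⁻¹ * z) ^ 2 = κ ^ 2 * z ^ 2 / m := by
      rw [mul_pow, mul_pow, inv_pow, hsm2]; field_simp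
    have h3 : (κ * (√(m:ℝ))⁻¹ * z + κ ^ 2 * b) ^ 2 = κ ^ 2 * z ^ 2 / m
        + 2 * (κ * (√(m:ℝ))⁻¹ * z) * (κ ^ 2 * b) + (κ ^ 2 * b) ^ 2 := by
      rw [← h2]; ring
    rw [h3]
    field_simp
    ring
  have i1 : Integrable (fun z : ℝ => z) γ := integrable_id_γ
  have i2 : Integrable (fun z : ℝ => z ^ 2) γ := integrable_sq_γ
  have hqi : Integrable (fun z : ℝ => -t * z - t ^ 2 / 2 + m * q0 b s δ (κ * ((√m)⁻¹ * (z + t)))) γ := by
    simp_rw [hq]
    exact ((integrable_const _).add (i1.const_mul _)).sub (i2.const_mul _)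
  have hval : ∫ z, (-t * z - t ^ 2 / 2 + m * q0 b s δ (κ * ((√m)⁻¹ * (z + t)))) ∂γ
      = m * ((s - b ^ 2) / 2 - (s - b ^ 2) / (2 * δ)) - κ ^ 2 / (2 * δ) := by
    simp_rw [hq]
    have h2 : Integrable (fun z : ℝ => (m * q0 b s δ (κ ^ 2 * b) - t ^ 2 / 2)
        + (-t + m * ((b - κ ^ 2 * b) / δ) * (κ * (√m)⁻¹)) * z) γ :=
      (integrable_const _).add (i1.const_mul _)
    rw [integral_sub h2 (i2.const_mul _), integral_add (integrable_const _) (i1.const_mul _),
      integral_const_mul, integral_const_mul, integral_id_γ, integral_sq_γ]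
    simp only [integral_const, probReal_univ, one_smul, mul_zero, add_zero, mul_one]
    have ht2 : t ^ 2 = κ ^ 2 * b ^ 2 * m := by rw [ht, mul_pow, mul_pow, hsm2]
    rw [ht2]
    unfold q0
    rw [hκ]
    field_simp
    ring
  have hei : Integrable (fun z : ℝ => Real.exp (-t * z - t ^ 2 / 2
      + m * q0 b s δ (κ * ((√m)⁻¹ * (z + t))))) γ := by
    have h1 : Integrable (fun z : ℝ => Real.exp (m * ((b ^ 2 - s) / (2 * δ) + s / 2))
        * Real.exp (-t * z)) γ := (integrable_exp_mul_gaussianReal (-t)).const_mul _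
    refine h1.mono' ?_ ?_
    · refine Measurable.aestronglyMeasurable (Measurable.exp ?_)
      exact (by fun_prop : Measurable (fun z : ℝ => -t * z - t ^ 2 / 2)).add
        (((measurable_q0 b s δ).comp (by fun_prop)).const_mul _)
    · refine Filter.Eventually.of_forall fun z => ?_
      rw [Real.norm_of_nonneg (Real.exp_pos _).le, ← Real.exp_add]
      apply Real.exp_le_exp.2
      have h2 : m * q0 b s δ (κ * ((√m)⁻¹ * (z + t))) ≤ m * ((b ^ 2 - s) / (2 * δ) + s / 2) :=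
        mul_le_mul_of_nonneg_left (q0_le hδ) hm'.le
      nlinarith [sq_nonneg t]
  rw [← hval]
  exact exp_integral_le hqi hei

/-- the exponent constant -/
noncomputable def vr (F : ℝ → ℝ) : ℝ := m2 F / m0 F - (m1 F / m0 F) ^ 2

/-- lower bound for the functional on the smoothed Gaussian vector -/
lemma IF_lower (hm : 0 < m) {ρ : Measure (Em m)} [IsGaussian ρ] (hρ : ∫ x, x ∂ρ = 0)
    (hv : ∀ i, Var[fun x : Em m => x i; ρ] = 1 - 1 / m) {F : ℝ → ℝ} (hF : Nice F)
    (hM : 0 < m0 F) {δ : ℝ} (hδ : 0 < δ) (hδ1 : δ < 1) :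
    ((√δ)⁻¹ * m0 F) ^ m * Real.exp (m * (vr F / 2 - vr F / (2 * δ) - (1 - δ) / (2 * δ)))
      ≤ IF (γ.prod (ρ.prod (stdGaussian (Em m)))) (Ls m (√(1 - δ)) (√δ)) F := by
  have hm' : (0:ℝ) < m := by exact_mod_cast hm
  set κ := √(1 - δ) with hκdef
  have hκ : κ ^ 2 = 1 - δ := Real.sq_sqrt (by linarith)
  set b := m1 F / m0 F with hb
  set s := m2 F / m0 F with hs
  set A := ((√δ)⁻¹ * m0 F) ^ m with hA
  have hsδ : 0 < √δ := Real.sqrt_pos.2 hδ
  have hA0 : 0 < A := by positivity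
  -- the integrand
  set Ψ : ℝ × (Em m × Em m) → ℝ := fun p => ∏ i, F (κ * ((√m)⁻¹ * p.1 + p.2.1 i) + √δ * p.2.2 i)
    with hΨ
  have hΨm : Measurable Ψ := by
    refine Finset.measurable_fun_prod _ fun i _ => ?_
    exact hF.meas.comp (by fun_prop)
  have hΨ0 : ∀ p, 0 ≤ Ψ p := fun p => Finset.prod_nonneg fun i _ => hF.lc.nonneg _
  have hΨ1 : ∀ p, Ψ p ≤ 1 := fun p =>
    Finset.prod_le_one (fun i _ => hF.lc.nonneg _) (fun i _ => hF.le_one _)
  have hΨabs : ∀ p, |Ψ p| ≤ 1 := fun p => by rw [abs_of_nonneg (hΨ0 p)]; exact hΨ1 p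
  have e1 : IF (γ.prod (ρ.prod (stdGaussian (Em m)))) (Ls m κ (√δ)) F
      = ∫ z, (∫ y, (∫ w, Ψ (z, (y, w)) ∂(stdGaussian (Em m))) ∂ρ) ∂γ := by
    unfold IF
    simp_rw [Ls_apply]
    change ∫ p, Ψ p ∂_ = _
    rw [integral_prod _ (integrable_bdd hΨm hΨabs)]
    congr 1
    funext z
    have h1 : Measurable (fun q : Em m × Em m => Ψ (z, q)) :=
      hΨm.comp (measurable_const.prodMk measurable_id)
    rw [integral_prod _ (integrable_bdd h1 (fun q => hΨabs _))]
  -- boundedness and measurability of the partial integrals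
  have hw0 : ∀ z y, 0 ≤ ∫ w, Ψ (z, (y, w)) ∂(stdGaussian (Em m)) := fun z y =>
    integral_nonneg fun w => hΨ0 _
  have hw1 : ∀ z y, ∫ w, Ψ (z, (y, w)) ∂(stdGaussian (Em m)) ≤ 1 := by
    intro z y
    calc _ ≤ ∫ _, (1:ℝ) ∂(stdGaussian (Em m)) := by
          apply integral_mono_of_nonneg
          · exact Filter.Eventually.of_forall fun w => hΨ0 _
          · exact integrable_const _
          · exact Filter.Eventually.of_forall fun w => hΨ1 _
      _ = 1 := by simp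
  have hwm : Measurable (fun q : ℝ × Em m => ∫ w, Ψ (q.1, (q.2, w)) ∂(stdGaussian (Em m))) := by
    have h1 : Measurable (fun u : (ℝ × Em m) × Em m => Ψ (u.1.1, (u.1.2, u.2))) :=
      hΨm.comp (by fun_prop)
    exact (h1.stronglyMeasurable.integral_prod_right' (ν := stdGaussian (Em m))).measurable
  have hy0 : ∀ z, 0 ≤ ∫ y, (∫ w, Ψ (z, (y, w)) ∂(stdGaussian (Em m))) ∂ρ := fun z =>
    integral_nonneg fun y => hw0 z y
  have hy1 : ∀ z, ∫ y, (∫ w, Ψ (z, (y, w)) ∂(stdGaussian (Em m))) ∂ρ ≤ 1 := by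
    intro z
    calc _ ≤ ∫ _, (1:ℝ) ∂ρ := by
          apply integral_mono_of_nonneg
          · exact Filter.Eventually.of_forall fun y => hw0 z y
          · exact integrable_const _
          · exact Filter.Eventually.of_forall fun y => hw1 z y
      _ = 1 := by simp
  have hym : Measurable (fun z => ∫ y, (∫ w, Ψ (z, (y, w)) ∂(stdGaussian (Em m))) ∂ρ) :=
    (hwm.stronglyMeasurable.integral_prod_right' (ν := ρ)).measurable
  have hyi : Integrable (fun z => ∫ y, (∫ w, Ψ (z, (y, w)) ∂(stdGaussian (Em m))) ∂ρ) γ :=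
    integrable_bdd hym (C := 1) (fun z => by rw [abs_of_nonneg (hy0 z)]; exact hy1 z)
  have hwi : ∀ z, Integrable (fun y => ∫ w, Ψ (z, (y, w)) ∂(stdGaussian (Em m))) ρ := fun z =>
    integrable_bdd (hwm.comp (measurable_const.prodMk measurable_id)) (C := 1)
      (fun y => by
        rw [abs_of_nonneg (hw0 z y)]; exact hw1 z y)
  rw [e1]
  -- step over y
  have stepy : ∀ z : ℝ, A * (Real.exp (-(κ ^ 2 * (m * (1 - 1 / m)) / (2 * δ)))
      * Real.exp (m * q0 b s δ (κ * ((√m)⁻¹ * z))))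
      ≤ ∫ y, (∫ w, Ψ (z, (y, w)) ∂(stdGaussian (Em m))) ∂ρ := by
    intro z
    have h1 := y_step hρ hv (b := b) (s := s) (δ := δ) (κ := κ) (a := (√m)⁻¹ * z) hδ
    have h2 : ∫ y, A * Real.exp (∑ i, q0 b s δ (κ * ((√m)⁻¹ * z + y i))) ∂ρ
        ≤ ∫ y, (∫ w, Ψ (z, (y, w)) ∂(stdGaussian (Em m))) ∂ρ := by
      apply integral_mono_of_nonneg
      · exact Filter.Eventually.of_forall fun y => by
          change 0 ≤ A * Real.exp _
          positivity
      · exact hwi z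
      · exact Filter.Eventually.of_forall fun y =>
          inner_ge hF hM hδ hδ1 (fun i => κ * ((√m)⁻¹ * z + y i))
    rw [integral_const_mul] at h2
    refine le_trans ?_ h2
    apply mul_le_mul_of_nonneg_left _ hA0.le
    refine le_trans (le_of_eq ?_) h1
    rw [← Real.exp_add]; congr 1; ring
  -- step over z
  have h3 : ∫ z, A * (Real.exp (-(κ ^ 2 * (m * (1 - 1 / m)) / (2 * δ)))
      * Real.exp (m * q0 b s δ (κ * ((√m)⁻¹ * z)))) ∂γ
      ≤ ∫ z, (∫ y, (∫ w, Ψ (z, (y, w)) ∂(stdGaussian (Em m))) ∂ρ) ∂γ := by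
    apply integral_mono_of_nonneg
    · exact Filter.Eventually.of_forall fun z => by
        change 0 ≤ A * (Real.exp _ * Real.exp _)
        positivity
    · exact hyi
    · exact Filter.Eventually.of_forall stepy
  refine le_trans ?_ h3
  rw [integral_const_mul, integral_const_mul]
  apply mul_le_mul_of_nonneg_left _ hA0.le
  have h4 := z_step hm (b := b) (s := s) hδ hκ
  calc Real.exp (m * (vr F / 2 - vr F / (2 * δ) - (1 - δ) / (2 * δ)))
      = Real.exp (-(κ ^ 2 * (m * (1 - 1 / m)) / (2 * δ)))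
        * Real.exp (m * ((s - b ^ 2) / 2 - (s - b ^ 2) / (2 * δ)) - κ ^ 2 / (2 * δ)) := by
        rw [← Real.exp_add]
        congr 1
        unfold vr
        rw [← hb, ← hs, hκ]
        field_simp
        ring
    _ ≤ _ := mul_le_mul_of_nonneg_left h4 (Real.exp_pos _).le

lemma iter_nice {F : ℝ → ℝ} (hF : Nice F) (k : ℕ) : Nice (dbl^[k] F) := by
  induction k with
  | zero => exact hF
  | succ k ih => rw [Function.iterate_succ_apply']; exact ih.dbl

lemma iter_m0 {F : ℝ → ℝ} (hF : Nice F) (k : ℕ) : m0 (dbl^[k] F) = m0 F ^ (2 ^ k) := by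
  induction k with
  | zero => simp
  | succ k ih =>
    rw [Function.iterate_succ_apply', m0_dbl (iter_nice hF k), ih, ← pow_mul, pow_succ]

lemma vr_dbl {F : ℝ → ℝ} (hF : Nice F) (hM : 0 < m0 F) : vr (dbl F) = vr F := by
  unfold vr
  rw [m0_dbl hF, m1_dbl hF, m2_dbl hF]
  have h2 : √2 ^ 2 = 2 := Real.sq_sqrt (by norm_num)
  have : (√2 * m0 F * m1 F / m0 F ^ 2) ^ 2 = 2 * (m1 F / m0 F) ^ 2 := by
    rw [div_pow, mul_pow, mul_pow, h2]; field_simp
  rw [this]
  field_simp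
  ring

lemma iter_vr {F : ℝ → ℝ} (hF : Nice F) (hM : 0 < m0 F) (k : ℕ) : vr (dbl^[k] F) = vr F := by
  induction k with
  | zero => rfl
  | succ k ih =>
    rw [Function.iterate_succ_apply', vr_dbl (iter_nice hF k), ih]
    rw [iter_m0 hF]; positivity

/-- the main inequality for the smoothed Gaussian vector -/
lemma main_smooth (hm : 0 < m) {ρ : Measure (Em m)} [IsGaussian ρ] (hρ : ∫ x, x ∂ρ = 0)
    (hv : ∀ i, Var[fun x : Em m => x i; ρ] = 1 - 1 / m) {F : ℝ → ℝ} (hF : Nice F)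
    {δ : ℝ} (hδ : 0 < δ) (hδ1 : δ < 1) :
    m0 F ^ m ≤ IF (γ.prod (ρ.prod (stdGaussian (Em m)))) (Ls m (√(1 - δ)) (√δ)) F := by
  set Γ := γ.prod (ρ.prod (stdGaussian (Em m))) with hΓ
  set L := Ls m (√(1 - δ)) (√δ) with hL
  have hcent : ∫ p, p ∂Γ = 0 :=
    centered_prod integral_id_γ (centered_prod hρ integral_id_stdGaussian)
  have hlaw : ∀ i, Γ.map (L i) = γ := fun i => law_Ls hm hρ hv (by
    rw [Real.sq_sqrt (by linarith), Real.sq_sqrt hδ.le]; ring) i
  have hI0 : ∀ G : ℝ → ℝ, Nice G → 0 ≤ IF Γ L G := fun G hG =>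
    integral_nonneg fun x => Finset.prod_nonneg fun i _ => hG.lc.nonneg _
  have hM0 : 0 ≤ m0 F := integral_nonneg fun x => hF.lc.nonneg _
  rcases eq_or_lt_of_le hM0 with hM | hM
  · rw [← hM, zero_pow hm.ne']
    exact hI0 F hF
  -- iterated doubling
  have hiter : ∀ k : ℕ, IF Γ L (dbl^[k] F) ≤ (IF Γ L F) ^ (2 ^ k) := by
    intro k
    induction k with
    | zero => simp
    | succ k ih =>
      rw [Function.iterate_succ_apply']
      have h1 := doubling hcent L hlaw (iter_nice hF k)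
      calc _ ≤ (IF Γ L (dbl^[k] F)) ^ 2 := h1
        _ ≤ ((IF Γ L F) ^ (2 ^ k)) ^ 2 :=
            pow_le_pow_left₀ (hI0 _ (iter_nice hF k)) ih 2
        _ = _ := by rw [← pow_mul, pow_succ]
  set c := ((√δ)⁻¹) ^ m * Real.exp (m * (vr F / 2 - vr F / (2 * δ) - (1 - δ) / (2 * δ))) with hc
  have hsδ : 0 < √δ := Real.sqrt_pos.2 hδ
  have hc0 : 0 < c := by positivity
  have hlow : ∀ k : ℕ, c * (m0 F ^ m) ^ (2 ^ k) ≤ (IF Γ L F) ^ (2 ^ k) := by
    intro k
    refine le_trans ?_ (hiter k)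
    have h1 := IF_lower hm hρ hv (iter_nice hF k) (by rw [iter_m0 hF]; positivity) hδ hδ1
    rw [iter_m0 hF, iter_vr hF hM] at h1
    refine le_trans (le_of_eq ?_) h1
    rw [hc, mul_pow, ← pow_mul, ← pow_mul, mul_comm m]
    ring
  by_contra hcon
  push Not at hcon
  have hMm : 0 < m0 F ^ m := by positivity
  set x := IF Γ L F / m0 F ^ m with hx
  have hx0 : 0 ≤ x := div_nonneg (hI0 F hF) hMm.le
  have hx1 : x < 1 := by rw [hx, div_lt_one hMm]; exact hcon
  have h2 : ∀ k : ℕ, c ≤ x ^ (2 ^ k) := by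
    intro k
    rw [hx, div_pow, le_div_iff₀ (by positivity)]
    exact hlow k
  have h3 : Filter.Tendsto (fun k : ℕ => x ^ (2 ^ k)) Filter.atTop (𝓝 0) := by
    have h4 := tendsto_pow_atTop_nhds_zero_of_lt_one hx0 hx1
    exact h4.comp (tendsto_pow_atTop_atTop_of_one_lt (by norm_num : 1 < 2))
  have h4 := ge_of_tendsto' h3 h2
  linarith

end Pool.Agent.H98.Gauss
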