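import Mathlib
import Pool.Agent.H98.Lower

open scoped ENNReal NNReal Topology RealInnerProductSpace MatrixOrder
open MeasureTheory Set ProbabilityTheory Filter

namespace Pool.Agent.H98.Gauss

variable {m : ℕ}

/-- main inequality for continuous functions, in the factor representation -/
lemma main_cont (hm : 0 < m) {ρ : Measure (Em m)} [IsGaussian ρ] (hρ : ∫ x, x ∂ρ = 0)
    (hv : ∀ i, Var[fun x : Em m => x i; ρ] = 1 - 1 / m) {F : ℝ → ℝ} (hF : Nice F)
    (hFc : Continuous F) :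
    m0 F ^ m ≤ ∫ p : ℝ × Em m, ∏ i, F ((√m)⁻¹ * p.1 + p.2 i) ∂(γ.prod ρ) := by
  set Γ := γ.prod (ρ.prod (stdGaussian (Em m))) with hΓ
  set dl : ℕ → ℝ := fun n => 1 / ((n:ℝ) + 2) with hdl
  have hd0 : ∀ n, 0 < dl n := fun n => by simp only [hdl]; positivity
  have hd1 : ∀ n, dl n < 1 := fun n => by
    simp only [hdl]
    rw [div_lt_one (by positivity)]
    have : (0:ℝ) ≤ n := Nat.cast_nonneg n
    linarith
  have hdlim : Tendsto dl atTop (𝓝 0) := by
    have h1 := tendsto_one_div_add_atTop_nhds_zero_nat (𝕜 := ℝ)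
    have h2 := (tendsto_add_atTop_iff_nat 1).2 h1
    refine h2.congr fun n => ?_
    simp only [hdl]; push_cast; ring
  have hlow : ∀ n, m0 F ^ m ≤ IF Γ (Ls m (√(1 - dl n)) (√(dl n))) F := fun n =>
    main_smooth hm hρ hv hF (hd0 n) (hd1 n)
  have hlim : Tendsto (fun n => IF Γ (Ls m (√(1 - dl n)) (√(dl n))) F) atTop
      (𝓝 (∫ p : ℝ × (Em m × Em m), ∏ i, F ((√m)⁻¹ * p.1 + p.2.1 i) ∂Γ)) := by
    unfold IF
    refine tendsto_integral_of_dominated_convergence (fun _ => (1:ℝ)) ?_ (integrable_const _) ?_ ?_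
    · intro n
      exact (measurable_prodF _ hF.meas).aestronglyMeasurable
    · intro n
      refine Eventually.of_forall fun p => ?_
      rw [Real.norm_eq_abs, Finset.abs_prod]
      exact Finset.prod_le_one (fun i _ => abs_nonneg _) (fun i _ => hF.abs_le _)
    · refine Eventually.of_forall fun p => ?_
      refine tendsto_finsetProd _ fun i _ => ?_
      refine (hFc.tendsto _).comp ?_
      simp_rw [Ls_apply]
      have h1 : Tendsto (fun n => √(1 - dl n)) atTop (𝓝 1) := by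
        have h2 : Tendsto (fun n => 1 - dl n) atTop (𝓝 (1 - 0)) := tendsto_const_nhds.sub hdlim
        have h3 := (Real.continuous_sqrt.tendsto (1 - 0)).comp h2
        rw [sub_zero, Real.sqrt_one] at h3
        exact h3
      have h4 : Tendsto (fun n => √(dl n)) atTop (𝓝 0) := by
        have h3 := (Real.continuous_sqrt.tendsto 0).comp hdlim
        rw [Real.sqrt_zero] at h3
        exact h3
      have h5 := (h1.mul_const ((√m)⁻¹ * p.1 + p.2.1 i)).add (h4.mul_const (p.2.2 i))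
      simpa using h5
  have h1 := ge_of_tendsto' hlim hlow
  refine le_trans h1 (le_of_eq ?_)
  -- integrate out the dummy variable
  have hΨm : Measurable (fun p : ℝ × (Em m × Em m) => ∏ i, F ((√m)⁻¹ * p.1 + p.2.1 i)) := by
    refine Finset.measurable_fun_prod _ fun i _ => ?_
    exact hF.meas.comp (by fun_prop)
  have hb : ∀ (z : ℝ) (y : Em m), |∏ i, F ((√m)⁻¹ * z + y i)| ≤ 1 := fun z y => by
    rw [Finset.abs_prod]
    exact Finset.prod_le_one (fun i _ => abs_nonneg _) (fun i _ => hF.abs_le _)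
  rw [integral_prod _ (integrable_bdd hΨm (C := 1) (fun p => hb _ _))]
  have hΦm : Measurable (fun p : ℝ × Em m => ∏ i, F ((√m)⁻¹ * p.1 + p.2 i)) := by
    refine Finset.measurable_fun_prod _ fun i _ => ?_
    exact hF.meas.comp (by fun_prop)
  rw [integral_prod _ (integrable_bdd hΦm (C := 1) (fun p => hb _ _))]
  congr 1
  funext z
  have h2 := integral_fun_fst (μ := ρ) (ν := stdGaussian (Em m))
    (fun y : Em m => ∏ i, F ((√m)⁻¹ * z + y i))
  simpa using h2

/-- quadratic form of a matrix minus the rank-one averaging matrix -/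
lemma quad_sub (R : Matrix (Fin m) (Fin m) ℝ) (x : Fin m → ℝ) :
    x ⬝ᵥ (R - (1 / (m:ℝ)) • Matrix.of (fun _ _ => (1:ℝ))).mulVec x
      = x ⬝ᵥ R.mulVec x - (∑ i, x i) ^ 2 / m := by
  rw [Matrix.sub_mulVec, dotProduct_sub]
  congr 1
  rw [Matrix.smul_mulVec, dotProduct_smul]
  simp only [dotProduct, Matrix.mulVec, Matrix.of_apply, one_mul, smul_eq_mul]
  rw [← Finset.sum_mul]
  ring

/-- factor representation of the Gaussian vector -/
lemma factor_law (hm : 0 < m) {R : Matrix (Fin m) (Fin m) ℝ} (hR : R.PosSemidef)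
    (hR' : (R - (1 / (m:ℝ)) • Matrix.of (fun _ _ => (1:ℝ))).PosSemidef) :
    (γ.prod (multivariateGaussian 0 (R - (1 / (m:ℝ)) • Matrix.of (fun _ _ => (1:ℝ))))).map
      (fun p : ℝ × Em m => WithLp.toLp 2 (fun i => (√m)⁻¹ * p.1 + p.2 i))
      = multivariateGaussian 0 R := by
  have hm' : (0:ℝ) < m := by exact_mod_cast hm
  set ρ := multivariateGaussian (0 : Em m) (R - (1 / (m:ℝ)) • Matrix.of (fun _ _ => (1:ℝ))) with hρ
  have hTm : Measurable (fun p : ℝ × Em m => (WithLp.toLp 2 (fun i => (√m)⁻¹ * p.1 + p.2 i) : Em m)) := by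
    fun_prop
  have : IsProbabilityMeasure ((γ.prod ρ).map
      (fun p : ℝ × Em m => (WithLp.toLp 2 (fun i => (√m)⁻¹ * p.1 + p.2 i) : Em m))) :=
    Measure.isProbabilityMeasure_map hTm.aemeasurable
  apply Measure.ext_of_charFun
  ext t
  rw [charFun_multivariateGaussian hR, charFun_apply, integral_map hTm.aemeasurable (by fun_prop)]
  set σ : ℝ := (√m)⁻¹ * ∑ i, t i with hσ
  have h1 : ∀ p : ℝ × Em m, Complex.exp (((⟪(WithLp.toLp 2 (fun i => (√m)⁻¹ * p.1 + p.2 i) : Em m), t⟫ : ℝ) : ℂ)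
      * Complex.I)
      = Complex.exp (((p.1 * σ : ℝ) : ℂ) * Complex.I)
        * Complex.exp (((⟪p.2, t⟫ : ℝ) : ℂ) * Complex.I) := by
    intro p
    rw [← Complex.exp_add]
    congr 1
    rw [← add_mul]
    congr 1
    norm_cast
    rw [PiLp.inner_apply, PiLp.inner_apply, hσ]
    simp only [RCLike.inner_apply, conj_trivial]
    rw [Finset.mul_sum, Finset.mul_sum, ← Finset.sum_add_distrib]
    refine Finset.sum_congr rfl fun i _ => ?_
    ring
  simp_rw [h1]
  rw [integral_prod_mul (fun x : ℝ => Complex.exp (((x * σ : ℝ) : ℂ) * Complex.I))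
    (fun z : Em m => Complex.exp (((⟪z, t⟫ : ℝ) : ℂ) * Complex.I))]
  have h2 : ∫ z : Em m, Complex.exp (((⟪z, t⟫ : ℝ) : ℂ) * Complex.I) ∂ρ = charFun ρ t := by
    rw [charFun_apply]
  have h3 : ∫ x : ℝ, Complex.exp (((x * σ : ℝ) : ℂ) * Complex.I) ∂γ
      = Complex.exp (-((σ : ℝ) : ℂ) ^ 2 / 2) := by
    have := charFun_gaussianReal (μ := 0) (v := 1) σ
    rw [charFun_apply_real] at this
    have h4 : ∫ x : ℝ, Complex.exp (((x * σ : ℝ) : ℂ) * Complex.I) ∂γ
        = ∫ x : ℝ, Complex.exp ((((σ : ℝ) : ℂ) * x) * Complex.I) ∂(gaussianReal 0 1) := by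
      congr 1
      funext x
      push_cast
      ring_nf
    rw [h4]
    simp only [mul_assoc] at this ⊢
    rw [this]
    congr 1
    simp
    ring
  rw [h2, h3, hρ, charFun_multivariateGaussian hR', ← Complex.exp_add]
  congr 1
  have h5 := quad_sub R t
  have h6 : σ ^ 2 = (∑ i, t i) ^ 2 / m := by
    rw [hσ, mul_pow, inv_pow, Real.sq_sqrt hm'.le]; field_simp
  rw [h5, ← h6]
  push_cast
  simp
  ring

end Pool.Agent.H98.Gauss
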