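import Mathlib
import Pool.Agent.H98.Limit

open scoped ENNReal NNReal Topology RealInnerProductSpace MatrixOrder
open MeasureTheory Set ProbabilityTheory Filter

namespace Pool.Agent.H98.Gauss

variable {m : ℕ}

/-- coordinate functionals -/
noncomputable abbrev pr (m : ℕ) (i : Fin m) : StrongDual ℝ (Em m) := EuclideanSpace.proj i

/-- admissible correlation matrices -/
structure Adm (R : Matrix (Fin m) (Fin m) ℝ) : Prop where
  diag : ∀ i, R i i = 1
  psd : (R - (1 / (m:ℝ)) • Matrix.of (fun _ _ => (1:ℝ))).PosSemidef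

lemma psd_avg : ((1 / (m:ℝ)) • Matrix.of (fun _ _ : Fin m => (1:ℝ))).PosSemidef := by
  refine Matrix.PosSemidef.of_dotProduct_mulVec_nonneg ?_ ?_
  · ext i j
    simp [Matrix.conjTranspose_apply]
  · intro x
    have h := quad_sub (0 : Matrix (Fin m) (Fin m) ℝ) x
    simp only [zero_sub, Matrix.neg_mulVec, dotProduct_neg, Matrix.zero_mulVec, dotProduct_zero,
      neg_inj] at h
    rw [star_trivial, h]
    positivity

lemma Adm.psdR {R : Matrix (Fin m) (Fin m) ℝ} (h : Adm R) : R.PosSemidef := by
  have h1 := h.psd.add (psd_avg (m := m))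
  rwa [sub_add_cancel] at h1

lemma law_pr {R : Matrix (Fin m) (Fin m) ℝ} (hR : R.PosSemidef) (hd : ∀ i, R i i = 1) (i : Fin m) :
    (multivariateGaussian (0 : Em m) R).map (pr m i) = γ := by
  have h := (measurePreserving_eval_multivariateGaussian (μ := (0 : Em m)) hR (i := i)).map_eq
  rw [hd i] at h
  simpa using h

lemma Adm.main {R : Matrix (Fin m) (Fin m) ℝ} (h : Adm R) (hm : 0 < m) {F : ℝ → ℝ} (hF : Nice F)
    (hFc : Continuous F) : m0 F ^ m ≤ IF (multivariateGaussian (0 : Em m) R) (pr m) F := by
  have h1 := main_cont hm (ρ := multivariateGaussian (0 : Em m)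
    (R - (1 / (m:ℝ)) • Matrix.of (fun _ _ => (1:ℝ)))) (by simp) (fun i => by
      rw [variance_eval_multivariateGaussian h.psd]
      simp [h.diag i]) hF hFc
  refine le_of_le_of_eq h1 ?_
  unfold IF
  rw [← factor_law hm h.psdR h.psd, integral_map (by fun_prop)
    (measurable_prodF _ hF.meas).aestronglyMeasurable]
  rfl

/-- indicator of a half line -/
noncomputable def ic (c : ℝ) : ℝ → ℝ := (Iic c).indicator (fun _ => 1)

lemma ic_of_le {c x : ℝ} (h : x ≤ c) : ic c x = 1 := by simp [ic, h]
lemma ic_of_lt {c x : ℝ} (h : c < x) : ic c x = 0 := by simp [ic, h]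

lemma nice_ic (c : ℝ) : Nice (ic c) where
  lc := by
    refine ⟨fun x => indicator_nonneg (fun _ _ => zero_le_one) x, ?_⟩
    intro x y a b ha hb hab
    by_cases hx : x ≤ c
    · by_cases hy : y ≤ c
      · have h1 : a • x + b • y ≤ c := by
          simp only [smul_eq_mul]
          calc a * x + b * y ≤ a * c + b * c := by gcongr
            _ = c := by rw [← add_mul, hab, one_mul]
        rw [ic_of_le hx, ic_of_le hy, ic_of_le h1]
        simp
      · rw [ic_of_lt (not_le.1 hy), Real.zero_rpow hb.ne', mul_zero]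
        exact indicator_nonneg (fun _ _ => zero_le_one) _
    · rw [ic_of_lt (not_le.1 hx), Real.zero_rpow ha.ne', zero_mul]
      exact indicator_nonneg (fun _ _ => zero_le_one) _
  meas := measurable_const.indicator measurableSet_Iic
  le_one x := by
    unfold ic
    by_cases h : x ∈ Iic c <;> simp [h]

lemma ic_continuousAt {c x : ℝ} (h : x ≠ c) : ContinuousAt (ic c) x := by
  rcases lt_or_gt_of_ne h with h | h
  · refine (continuousAt_const (y := (1:ℝ))).congr ?_
    filter_upwards [Iio_mem_nhds h] with y hy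
    rw [ic_of_le (le_of_lt hy)]
  · refine (continuousAt_const (y := (0:ℝ))).congr ?_
    filter_upwards [Ioi_mem_nhds h] with y hy
    rw [ic_of_lt hy]

section general

variable {E : Type} [NormedAddCommGroup E] [NormedSpace ℝ E] [MeasurableSpace E] [BorelSpace E]
  [SecondCountableTopology E] [CompleteSpace E] {μ : Measure E} [IsGaussian μ]
  {ι : Type} [Fintype ι] [DecidableEq ι]

/-- the conditional functional is continuous -/
lemma cont_gen (L : ι → StrongDual ℝ E) (hL : ∀ i, μ.map (L i) = γ) (c : ℝ) :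
    Continuous (fun x : ι → ℝ => ∫ y, ∏ i, (ic c (√2 / 2 * (x i - L i y))
      * ic c (√2 / 2 * (x i + L i y))) ∂μ) := by
  have hs : (0:ℝ) < √2 / 2 := by positivity
  rw [continuous_iff_continuousAt]
  intro x
  refine continuousAt_of_dominated (bound := fun _ => (1:ℝ)) ?_ ?_ (integrable_const _) ?_
  · refine Eventually.of_forall fun x' => ?_
    refine (Finset.measurable_fun_prod _ fun i _ => ?_).aestronglyMeasurable
    exact ((nice_ic c).meas.comp (by fun_prop)).mul ((nice_ic c).meas.comp (by fun_prop))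
  · refine Eventually.of_forall fun x' => Eventually.of_forall fun y => ?_
    rw [Real.norm_eq_abs, Finset.abs_prod]
    refine Finset.prod_le_one (fun i _ => abs_nonneg _) (fun i _ => ?_)
    exact ((nice_ic c).pair (x' i)).abs_le (L i y)
  · have hnull : ∀ i (a : ℝ), ∀ᵐ y ∂μ, L i y ≠ a := by
      intro i a
      have h1 : ∀ᵐ t ∂(μ.map (L i)), t ≠ a := by
        rw [hL i]
        have : NullSingletonClass γ := nullSingletonClass_gaussianReal one_ne_zero
        rw [ae_iff]
        simp
      exact ae_of_ae_map (f := fun y => L i y) (p := fun t : ℝ => t ≠ a) (by fun_prop) h1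
    have h2 : ∀ᵐ y ∂μ, ∀ i, L i y ≠ x i - (√2 / 2)⁻¹ * c := ae_all_iff.2 fun i => hnull i _
    have h3 : ∀ᵐ y ∂μ, ∀ i, L i y ≠ (√2 / 2)⁻¹ * c - x i := ae_all_iff.2 fun i => hnull i _
    filter_upwards [h2, h3] with y hy2 hy3
    refine tendsto_finsetProd _ fun i _ => ?_
    refine Tendsto.mul ?_ ?_
    · have h4 : ContinuousAt (ic c) (√2 / 2 * (x i - L i y)) := ic_continuousAt (fun h => by
        apply hy2 i
        rw [← h]
        field_simp
        ring)
      have h5 : ContinuousAt (fun x' : ι → ℝ => √2 / 2 * (x' i - L i y)) x :=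
        (continuous_const.mul ((continuous_apply i).sub continuous_const)).continuousAt
      exact ContinuousAt.comp (f := fun x' : ι → ℝ => √2 / 2 * (x' i - L i y)) h4 h5
    · have h4 : ContinuousAt (ic c) (√2 / 2 * (x i + L i y)) := ic_continuousAt (fun h => by
        apply hy3 i
        rw [← h]
        field_simp
        ring)
      have h5 : ContinuousAt (fun x' : ι → ℝ => √2 / 2 * (x' i + L i y)) x :=
        (continuous_const.mul ((continuous_apply i).add continuous_const)).continuousAt
      exact ContinuousAt.comp (f := fun x' : ι → ℝ => √2 / 2 * (x' i + L i y)) h4 h5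

end general

lemma cont_dbl (c : ℝ) : Continuous (dbl (ic c)) := by
  have h1 := cont_gen (μ := γ) (ι := Fin 1) (fun _ => ContinuousLinearMap.id ℝ ℝ)
    (fun _ => by
      have : (ContinuousLinearMap.id ℝ ℝ : ℝ → ℝ) = id := rfl
      rw [this, Measure.map_id]) c
  have h2 : dbl (ic c) = (fun x : Fin 1 → ℝ => ∫ y, ∏ i, (ic c (√2 / 2 * (x i -
      (ContinuousLinearMap.id ℝ ℝ) y)) * ic c (√2 / 2 * (x i + (ContinuousLinearMap.id ℝ ℝ) y))) ∂γ)
      ∘ (fun s : ℝ => fun _ => s) := by
    funext s
    simp [dbl]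
  rw [h2]
  exact h1.comp (by fun_prop)

/-- the standard Gaussian measure charges open sets -/
instance openPos_γ : Measure.IsOpenPosMeasure γ :=
  (gaussianReal_absolutelyContinuous' 0 one_ne_zero).isOpenPosMeasure

instance openPos_std : Measure.IsOpenPosMeasure (stdGaussian (Em m)) := by
  rw [← map_pi_eq_stdGaussian]
  exact Continuous.isOpenPosMeasure_map (by fun_prop) (WithLp.toLp_surjective 2)

end Pool.Agent.H98.Gauss
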