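import Mathlib
import Pool.Agent.H98.Ineq

open scoped ENNReal NNReal Topology RealInnerProductSpace MatrixOrder
open MeasureTheory Set ProbabilityTheory Filter

namespace Pool.Agent.H98.Gauss

variable {m : ℕ}

/-- symmetric interval indicator -/
noncomputable def sy (w : ℝ) : ℝ → ℝ := (Icc (-w) w).indicator (fun _ => 1)

lemma sy_mem {w x : ℝ} (h : |x| ≤ w) : sy w x = 1 := by
  rw [abs_le] at h
  simp [sy, h.1, h.2]

lemma sy_not {w x : ℝ} (h : ¬ |x| ≤ w) : sy w x = 0 := by
  rw [abs_le] at h
  unfold sy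
  rw [indicator_of_notMem]
  exact h

lemma sy_even (w x : ℝ) : sy w (-x) = sy w x := by
  by_cases h : |x| ≤ w
  · rw [sy_mem h, sy_mem (by rwa [abs_neg])]
  · rw [sy_not h, sy_not (by rwa [abs_neg])]

lemma sy_nonneg (w x : ℝ) : 0 ≤ sy w x := indicator_nonneg (fun _ _ => zero_le_one) x

lemma nice_sy (w : ℝ) : Nice (sy w) where
  lc := by
    refine ⟨fun x => sy_nonneg w x, ?_⟩
    intro x y a b ha hb hab
    by_cases hx : |x| ≤ w
    · by_cases hy : |y| ≤ w
      · have h1 : |a • x + b • y| ≤ w := by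
          simp only [smul_eq_mul]
          calc |a * x + b * y| ≤ |a * x| + |b * y| := abs_add_le _ _
            _ = a * |x| + b * |y| := by rw [abs_mul, abs_mul, abs_of_pos ha, abs_of_pos hb]
            _ ≤ a * w + b * w := by gcongr
            _ = w := by rw [← add_mul, hab, one_mul]
        rw [sy_mem hx, sy_mem hy, sy_mem h1]
        simp
      · rw [sy_not hy, Real.zero_rpow hb.ne', mul_zero]
        exact sy_nonneg _ _
    · rw [sy_not hx, Real.zero_rpow ha.ne', zero_mul]
      exact sy_nonneg _ _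
  meas := measurable_const.indicator measurableSet_Icc
  le_one x := by
    by_cases h : |x| ≤ w
    · rw [sy_mem h]
    · rw [sy_not h]; exact zero_le_one

lemma pair_ic (c s y : ℝ) :
    ic c (√2 / 2 * (s - y)) * ic c (√2 / 2 * (s + y)) = sy (√2 * c - s) y := by
  have hs : √2 / 2 * √2 = 1 := by
    have : √2 * √2 = 2 := Real.mul_self_sqrt (by norm_num)
    linarith
  have hp : 0 < √2 / 2 := by positivity
  have key : ∀ t : ℝ, √2 / 2 * t ≤ c ↔ t ≤ √2 * c := by
    intro t
    have h1 : c = √2 / 2 * (√2 * c) := by rw [← mul_assoc, hs, one_mul]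
    constructor
    · intro h
      rw [h1] at h
      exact le_of_mul_le_mul_left h hp
    · intro h
      rw [h1]
      exact mul_le_mul_of_nonneg_left h hp.le
  by_cases h : |y| ≤ √2 * c - s
  · rw [sy_mem h]
    rw [abs_le] at h
    rw [ic_of_le ((key _).2 (by linarith)), ic_of_le ((key _).2 (by linarith)), one_mul]
  · rw [sy_not h]
    rw [abs_le, not_and_or] at h
    rcases h with h | h
    · rw [ic_of_lt (x := √2 / 2 * (s - y)), zero_mul]
      rw [← not_le, key]; intro h2; apply h; linarith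
    · rw [ic_of_lt (x := √2 / 2 * (s + y)), mul_zero]
      rw [← not_le, key]; intro h2; apply h; linarith

lemma dbl_ic (c s : ℝ) : dbl (ic c) s = m0 (sy (√2 * c - s)) := by
  unfold dbl m0
  congr 1
  funext y
  exact pair_ic c s y

/-- the comparison inequality for a half line -/
lemma Adm.half {R : Matrix (Fin m) (Fin m) ℝ} (h : Adm R) (hm : 0 < m) (c : ℝ) :
    m0 (ic c) ^ m ≤ IF (multivariateGaussian (0 : Em m) R) (pr m) (ic c) := by
  have h1 := doubling (μ := multivariateGaussian (0 : Em m) R) (by simp) (pr m)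
    (law_pr h.psdR h.diag) (nice_ic c)
  have h2 := h.main hm (nice_ic c).dbl (cont_dbl c)
  rw [m0_dbl (nice_ic c), ← pow_mul, mul_comm 2 m, pow_mul] at h2
  have h3 := h2.trans h1
  have h4 : 0 ≤ IF (multivariateGaussian (0 : Em m) R) (pr m) (ic c) :=
    integral_nonneg fun x => Finset.prod_nonneg fun i _ => (nice_ic c).lc.nonneg _
  have h5 : 0 ≤ m0 (ic c) := integral_nonneg fun x => (nice_ic c).lc.nonneg _
  exact (sq_le_sq₀ (pow_nonneg h5 m) h4).1 h3

/-- equality on a half line forces equality on all symmetric cubes -/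
lemma Adm.cube {R : Matrix (Fin m) (Fin m) ℝ} (h : Adm R) (hm : 0 < m) {c : ℝ}
    (heq : IF (multivariateGaussian (0 : Em m) R) (pr m) (ic c) = m0 (ic c) ^ m) (w : ℝ) :
    ∫ y, ∏ i, sy w (y i) ∂(multivariateGaussian (0 : Em m) R) = m0 (sy w) ^ m := by
  set μ := multivariateGaussian (0 : Em m) R with hμ
  have hcent : ∫ x, x ∂μ = 0 := by simp [hμ]
  have hlaw : ∀ i, μ.map (pr m i) = γ := law_pr h.psdR h.diag
  -- the two functionals
  set A : (Fin m → ℝ) → ℝ := fun x => ∫ y, ∏ i, (ic c (√2 / 2 * (x i - pr m i y))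
      * ic c (√2 / 2 * (x i + pr m i y))) ∂μ with hA
  set B : (Fin m → ℝ) → ℝ := fun x => ∏ i, dbl (ic c) (x i) with hB
  have hAc : Continuous A := cont_gen (pr m) hlaw c
  have hBc : Continuous B := by
    rw [hB]
    exact continuous_finsetProd _ fun i _ => (cont_dbl c).comp (continuous_apply i)
  have hle : ∀ x, B x ≤ A x := by
    intro x
    have h1 := sidak_gauss hcent (pr m) (g := fun i y => ic c (√2 / 2 * (x i - y))
        * ic c (√2 / 2 * (x i + y)))
      (fun i => (nice_ic c).pair (x i)) (fun i y => pair_even (ic c) (x i) y)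
    simp_rw [dbl_eq_of_law (hlaw _) (nice_ic c)] at h1
    exact h1
  have hB0 : ∀ x, 0 ≤ B x := fun x => Finset.prod_nonneg fun i _ => (nice_ic c).dbl.lc.nonneg _
  have hA1 : ∀ x, A x ≤ 1 := by
    intro x
    calc A x ≤ ∫ _, (1:ℝ) ∂μ := by
          apply integral_mono_of_nonneg
          · exact Eventually.of_forall fun y => Finset.prod_nonneg fun i _ =>
              mul_nonneg ((nice_ic c).lc.nonneg _) ((nice_ic c).lc.nonneg _)
          · exact integrable_const _
          · exact Eventually.of_forall fun y => Finset.prod_le_one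
              (fun i _ => mul_nonneg ((nice_ic c).lc.nonneg _) ((nice_ic c).lc.nonneg _))
              (fun i _ => ((nice_ic c).pair (x i)).le_one _)
      _ = 1 := by simp
  -- integrals of the two agree
  have hAi : Integrable (fun x : Em m => A (fun i => x i)) μ := by
    refine integrable_bdd (C := 1) ?_ (fun x => ?_)
    · exact hAc.measurable.comp (by fun_prop)
    · rw [abs_of_nonneg ((hB0 _).trans (hle _))]; exact hA1 _
  have hBi : Integrable (fun x : Em m => B (fun i => x i)) μ := by
    refine integrable_bdd (C := 1) ?_ (fun x => ?_)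
    · exact hBc.measurable.comp (by fun_prop)
    · rw [abs_of_nonneg (hB0 _)]; exact (hle _).trans (hA1 _)
  have hAB : ∫ x : Em m, (A (fun i => x i) - B (fun i => x i)) ∂μ = 0 := by
    rw [integral_sub hAi hBi]
    have h1 : ∫ x : Em m, A (fun i => x i) ∂μ = (IF μ (pr m) (ic c)) ^ 2 := by
      rw [sq_eq hcent (pr m) (nice_ic c)]
      rfl
    have h2 : ∫ x : Em m, B (fun i => x i) ∂μ = IF μ (pr m) (dbl (ic c)) := rfl
    have h3 : IF μ (pr m) (dbl (ic c)) ≤ (IF μ (pr m) (ic c)) ^ 2 :=
      doubling hcent (pr m) hlaw (nice_ic c)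
    have h4 := h.main hm (nice_ic c).dbl (cont_dbl c)
    rw [m0_dbl (nice_ic c), ← pow_mul, mul_comm 2 m, pow_mul, ← heq] at h4
    rw [h1, h2]
    linarith
  have hae : ∀ᵐ x : Em m ∂μ, A (fun i => x i) - B (fun i => x i) = 0 := by
    have h1 := (integral_eq_zero_iff_of_nonneg (fun x => sub_nonneg.2 (hle _)) (hAi.sub hBi)).1 hAB
    filter_upwards [h1] with x hx using hx
  -- transfer to the factor representation
  set S : Matrix (Fin m) (Fin m) ℝ := R - (1 / (m:ℝ)) • Matrix.of (fun _ _ => (1:ℝ)) with hS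
  set Θ : ℝ × Em m → Fin m → ℝ := fun p i => (√m)⁻¹ * p.1
    + (Matrix.toEuclideanCLM (𝕜 := ℝ) (CFC.sqrt S) p.2) i with hΘ
  have hΘc : Continuous Θ := by
    rw [hΘ]
    refine continuous_pi fun i => ?_
    fun_prop
  have hrep : μ = (γ.prod (stdGaussian (Em m))).map (fun p => WithLp.toLp 2 (Θ p)) := by
    rw [hμ, ← factor_law hm h.psdR h.psd, multivariateGaussian]
    have e1 : γ.prod ((stdGaussian (Em m)).map (fun x => (0 : Em m)
        + Matrix.toEuclideanCLM (𝕜 := ℝ) (CFC.sqrt S) x))
        = (γ.prod (stdGaussian (Em m))).map (Prod.map id (fun x => (0 : Em m)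
        + Matrix.toEuclideanCLM (𝕜 := ℝ) (CFC.sqrt S) x)) := by
      rw [← Measure.map_prod_map _ _ (by fun_prop) (by fun_prop), Measure.map_id]
    rw [e1, Measure.map_map (by fun_prop) (by fun_prop)]
    congr 1
    funext p
    ext i
    simp [hΘ]
  have hae2 : ∀ᵐ p ∂(γ.prod (stdGaussian (Em m))), A (Θ p) - B (Θ p) = 0 := by
    rw [hrep] at hae
    have h1 := ae_of_ae_map (by
      refine Continuous.aemeasurable ?_
      exact (PiLp.continuous_toLp 2 _).comp hΘc) hae
    exact h1
  have hcont : Continuous (fun p => A (Θ p) - B (Θ p)) := (hAc.comp hΘc).sub (hBc.comp hΘc)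
  have hall : (fun p => A (Θ p) - B (Θ p)) = fun _ => 0 :=
    (Continuous.ae_eq_iff_eq _ hcont continuous_const).1 hae2
  -- evaluate on the diagonal
  have hmpos : (0:ℝ) < √m := Real.sqrt_pos.2 (by exact_mod_cast hm)
  have h5 := congrFun hall (√m * (√2 * c - w), 0)
  have h6 : Θ (√m * (√2 * c - w), 0) = fun _ => √2 * c - w := by
    funext i
    simp only [hΘ, map_zero]
    rw [← mul_assoc, inv_mul_cancel₀ hmpos.ne', one_mul]
    simp
  simp only [h6] at h5
  have h7 : A (fun _ => √2 * c - w) = ∫ y, ∏ i, sy w (y i) ∂μ := by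
    simp only [hA]
    congr 1
    funext y
    refine Finset.prod_congr rfl fun i _ => ?_
    rw [pair_ic, sub_sub_cancel]
    rfl
  have h8 : B (fun _ => √2 * c - w) = m0 (sy w) ^ m := by
    simp only [hB]
    rw [Finset.prod_const, dbl_ic, sub_sub_cancel, Finset.card_univ, Fintype.card_fin]
  rw [h7, h8] at h5
  linarith

end Pool.Agent.H98.Gauss
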