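import Mathlib

set_option autoImplicit false
open MeasureTheory ENNReal

namespace Pool.Agent.H98.ExpDiag

/-- bounded sequences -/
abbrev X := BoundedContinuousFunction ℕ ℝ

/-- the weight -/
noncomputable def w : X :=
  BoundedContinuousFunction.ofNormedAddCommGroupDiscrete (fun k : ℕ => (1 / 2 : ℝ) ^ k) 1
    (fun k => by
      rw [Real.norm_eq_abs, abs_of_nonneg (by positivity)]
      exact pow_le_one₀ (by norm_num) (by norm_num))

lemma w_apply (k : ℕ) : w k = (1 / 2 : ℝ) ^ k := rfl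

/-- the diagonal operator -/
noncomputable def S : X →L[ℝ] X := ContinuousLinearMap.mul ℝ X w

lemma S_apply (f : X) (k : ℕ) : S f k = (1 / 2 : ℝ) ^ k * f k := rfl

/-- embedding of the first coordinates -/
noncomputable def T (n : ℕ) : (Fin (n + 1) → ℝ) →ₗ[ℝ] X where
  toFun c := BoundedContinuousFunction.ofNormedAddCommGroupDiscrete
    (fun k : ℕ => if h : k < n + 1 then c ⟨k, h⟩ else 0) ‖c‖
    (fun k => by
      by_cases h : k < n + 1
      · simp only [h, dite_true]; exact norm_le_pi_norm c _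
      · simp only [h, dite_false, norm_zero]; exact norm_nonneg _)
  map_add' c c' := by
    ext k
    change (if h : k < n + 1 then (c + c') ⟨k, h⟩ else 0 : ℝ)
      = (if h : k < n + 1 then c ⟨k, h⟩ else 0) + (if h : k < n + 1 then c' ⟨k, h⟩ else 0)
    by_cases h : k < n + 1
    · simp only [h, dite_true, Pi.add_apply]
    · simp only [h, dite_false, add_zero]
  map_smul' r c := by
    ext k
    change (if h : k < n + 1 then (r • c) ⟨k, h⟩ else 0 : ℝ)
      = r * (if h : k < n + 1 then c ⟨k, h⟩ else 0)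
    by_cases h : k < n + 1
    · simp only [h, dite_true, Pi.smul_apply, smul_eq_mul]
    · simp only [h, dite_false, mul_zero]

lemma T_apply_lt (n : ℕ) (c : Fin (n + 1) → ℝ) (i : Fin (n + 1)) : T n c i = c i := by
  have : (i : ℕ) < n + 1 := i.2
  change (if h : (i : ℕ) < n + 1 then c ⟨i, h⟩ else 0) = c i
  rw [dif_pos this]

lemma T_norm (n : ℕ) (c : Fin (n + 1) → ℝ) : ‖T n c‖ ≤ ‖c‖ := by
  rw [BoundedContinuousFunction.norm_le (norm_nonneg _)]
  intro k
  change ‖(if h : k < n + 1 then c ⟨k, h⟩ else 0 : ℝ)‖ ≤ ‖c‖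
  by_cases h : k < n + 1
  · simp only [h, dite_true]; exact norm_le_pi_norm c _
  · simp only [h, dite_false, norm_zero]; exact norm_nonneg _

/-- a unit vector in the kernel with large image -/
lemma exists_kernel (n : ℕ) (L : Fin n → (X →L[ℝ] ℝ)) :
    ∃ h : X, ‖h‖ ≤ 1 ∧ (∀ i, L i h = 0) ∧ (1 / 2 : ℝ) ^ n ≤ ‖S h‖ := by
  set A : (Fin (n + 1) → ℝ) →ₗ[ℝ] (Fin n → ℝ) :=
    LinearMap.pi (fun i => (L i : X →ₗ[ℝ] ℝ).comp (T n)) with hA
  have hker : LinearMap.ker A ≠ ⊥ := by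
    apply LinearMap.ker_ne_bot_of_finrank_lt
    simp
  obtain ⟨c, hc, hc0⟩ := (Submodule.ne_bot_iff _).1 hker
  have hcn : 0 < ‖c‖ := norm_pos_iff.2 hc0
  refine ⟨‖c‖⁻¹ • T n c, ?_, ?_, ?_⟩
  · rw [norm_smul, norm_inv, norm_norm]
    have := T_norm n c
    calc ‖c‖⁻¹ * ‖T n c‖ ≤ ‖c‖⁻¹ * ‖c‖ := by gcongr
      _ = 1 := inv_mul_cancel₀ hcn.ne'
  · intro i
    have h1 : A c = 0 := hc
    have h2 := congrFun h1 i
    rw [map_smul]
    have h3 : L i (T n c) = 0 := h2
    rw [h3, smul_zero]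
  · obtain ⟨i, hi⟩ : ∃ i, ‖c i‖ = ‖c‖ := by
      have hne : Nonempty (Fin (n + 1)) := ⟨0⟩
      obtain ⟨i, -, hi⟩ := Finset.exists_mem_eq_sup' (s := Finset.univ) ⟨0, Finset.mem_univ _⟩
        (fun i => ‖c i‖)
      refine ⟨i, le_antisymm (norm_le_pi_norm c i) ?_⟩
      rw [pi_norm_le_iff_of_nonneg (norm_nonneg _)]
      intro j
      rw [← hi]
      exact Finset.le_sup' (fun i => ‖c i‖) (Finset.mem_univ j)
    have h1 := BoundedContinuousFunction.norm_coe_le_norm (S (‖c‖⁻¹ • T n c)) (i : ℕ)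
    refine le_trans ?_ h1
    rw [S_apply]
    have h2 : (‖c‖⁻¹ • T n c) (i : ℕ) = ‖c‖⁻¹ * c i := by
      have := T_apply_lt n c i
      rw [← this]
      rfl
    rw [h2, norm_mul, norm_mul, hi, norm_inv, norm_norm, inv_mul_cancel₀ hcn.ne', mul_one,
      Real.norm_eq_abs, abs_of_nonneg (by positivity)]
    exact pow_le_pow_of_le_one (by norm_num) (by norm_num) (by have := i.2; omega)

lemma lower (n : ℕ) :
    ENNReal.ofReal ((1 / 2 : ℝ) ^ n) ≤
      ⨅ (L : Fin n → (X →L[ℝ] ℝ)) (φ : (Fin n → ℝ) → X),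
        ⨆ f ∈ Metric.closedBall (0 : X) 1, ‖S f - φ (fun i => L i f)‖ₑ := by
  refine le_iInf fun L => le_iInf fun φ => ?_
  obtain ⟨h, hh, hL, hS⟩ := exists_kernel n L
  have hm : h ∈ Metric.closedBall (0 : X) 1 := by rwa [mem_closedBall_zero_iff]
  have hm' : -h ∈ Metric.closedBall (0 : X) 1 := by rwa [mem_closedBall_zero_iff, norm_neg]
  have e1 : (fun i => L i h) = fun _ => 0 := funext hL
  have e2 : (fun i => L i (-h)) = fun _ => 0 := by
    funext i; rw [map_neg, hL i, neg_zero]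
  have key : ‖S h‖ ≤ ‖S h - φ (fun _ => 0)‖ ∨ ‖S h‖ ≤ ‖S (-h) - φ (fun _ => 0)‖ := by
    by_contra hcon
    push Not at hcon
    have h1 : ‖(S h - φ (fun _ => 0)) - (S (-h) - φ (fun _ => 0))‖ ≤
        ‖S h - φ (fun _ => 0)‖ + ‖S (-h) - φ (fun _ => 0)‖ := norm_sub_le _ _
    have h2 : (S h - φ (fun _ => 0)) - (S (-h) - φ (fun _ => 0)) = (2 : ℝ) • S h := by
      rw [map_neg, two_smul]; abel
    rw [h2, norm_smul, Real.norm_eq_abs, abs_of_pos (by norm_num : (0:ℝ) < 2)] at h1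
    linarith [hcon.1, hcon.2]
  rcases key with hk | hk
  · refine le_trans ?_ (le_iSup₂ (f := fun f (_ : f ∈ Metric.closedBall (0 : X) 1) =>
      ‖S f - φ (fun i => L i f)‖ₑ) h hm)
    rw [e1, ← ofReal_norm]
    exact ENNReal.ofReal_le_ofReal (hS.trans hk)
  · refine le_trans ?_ (le_iSup₂ (f := fun f (_ : f ∈ Metric.closedBall (0 : X) 1) =>
      ‖S f - φ (fun i => L i f)‖ₑ) (-h) hm')
    rw [e2, ← ofReal_norm]
    exact ENNReal.ofReal_le_ofReal (hS.trans hk)

/-- reconstruction map -/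
noncomputable def rec (k : ℕ) (y : Fin k → ℝ) : X :=
  BoundedContinuousFunction.ofNormedAddCommGroupDiscrete
    (fun i : ℕ => if h : i < k then (1 / 2 : ℝ) ^ i * y ⟨i, h⟩ else 0) ‖y‖
    (fun i => by
      by_cases h : i < k
      · simp only [h, dite_true, norm_mul]
        have h1 : ‖(1 / 2 : ℝ) ^ i‖ ≤ 1 := by
          rw [Real.norm_eq_abs, abs_of_nonneg (by positivity)]
          exact pow_le_one₀ (by norm_num) (by norm_num)
        calc ‖(1 / 2 : ℝ) ^ i‖ * ‖y ⟨i, h⟩‖ ≤ 1 * ‖y‖ := by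
              gcongr
              exact norm_le_pi_norm y _
          _ = ‖y‖ := one_mul _
      · simp only [h, dite_false, norm_zero]; exact norm_nonneg _)

/-- coordinate functionals -/
noncomputable def co (k : ℕ) : Fin k → (X →L[ℝ] ℝ) :=
  fun i => BoundedContinuousFunction.evalCLM ℝ (i : ℕ)

lemma upper (k : ℕ) (f : X) (hf : f ∈ Metric.closedBall (0 : X) 1) :
    ‖S f - rec k (fun i => co k i f)‖ ≤ (1 / 2 : ℝ) ^ k := by
  rw [mem_closedBall_zero_iff] at hf
  rw [BoundedContinuousFunction.norm_le (by positivity)]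
  intro i
  have h1 : (S f - rec k (fun i => co k i f)) i
      = (1 / 2 : ℝ) ^ i * f i - (if h : i < k then (1 / 2 : ℝ) ^ i * f i else 0) := rfl
  rw [h1]
  by_cases h : i < k
  · simp only [h, dite_true, sub_self, norm_zero]; positivity
  · simp only [h, dite_false, sub_zero, norm_mul]
    have h2 : ‖f i‖ ≤ 1 := (BoundedContinuousFunction.norm_coe_le_norm f i).trans hf
    rw [Real.norm_eq_abs, abs_of_nonneg (by positivity : (0:ℝ) ≤ (1 / 2) ^ i)]
    calc (1 / 2 : ℝ) ^ i * ‖f i‖ ≤ (1 / 2 : ℝ) ^ k * 1 := by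
          gcongr ?_ * ?_
          exact pow_le_pow_of_le_one (by norm_num) (by norm_num) (by omega)
      _ = _ := mul_one _

end Pool.Agent.H98.ExpDiag
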