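import Mathlib
import Pool.Agent.H98.Equal

open scoped ENNReal NNReal Topology RealInnerProductSpace MatrixOrder
open MeasureTheory Set ProbabilityTheory Filter

namespace Pool.Agent.H98.Gauss

section general

set_option linter.unusedSectionVars false

variable {E : Type} [NormedAddCommGroup E] [NormedSpace ℝ E] [MeasurableSpace E] [BorelSpace E]
  [SecondCountableTopology E] [CompleteSpace E] {μ : Measure E} [IsGaussian μ]
  {ι : Type} [Fintype ι] [DecidableEq ι]

/-- Sidak's inequality keeping a pair together -/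
lemma sidak_pair (hμ : ∫ x, x ∂μ = 0) (L : ι → StrongDual ℝ E) {g : ι → ℝ → ℝ}
    (hg : ∀ i, Nice (g i)) (hge : ∀ i x, g i (-x) = g i x) {i j : ι} (hij : i ≠ j) :
    (∏ k ∈ (Finset.univ.erase i).erase j, ∫ x, g k (L k x) ∂μ)
        * ∫ x, g i (L i x) * g j (L j x) ∂μ
      ≤ ∫ x, ∏ k, g k (L k x) ∂μ := by
  obtain ⟨b, hb⟩ := exists_rep' hμ L
  have hm : Measurable (fun z : EuclideanSpace ℝ ι => toE (fun i => innerSL ℝ (b i)) z) := by
    fun_prop
  have e1 : ∀ G : EuclideanSpace ℝ ι → ℝ, Measurable G →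
      ∫ x, G (toE L x) ∂μ = ∫ z, G (toE (fun i => innerSL ℝ (b i)) z)
        ∂(stdGaussian (EuclideanSpace ℝ ι)) := by
    intro G hG
    rw [← integral_map (f := G) (by fun_prop) hG.aestronglyMeasurable, hb,
      integral_map hm.aemeasurable hG.aestronglyMeasurable]
  have e2 : ∫ x, ∏ i, g i (L i x) ∂μ
      = ∫ z, ∏ i, g i ⟪b i, z⟫ ∂(stdGaussian (EuclideanSpace ℝ ι)) := by
    have := e1 (fun u => ∏ i, g i (u i)) (by
      refine Finset.measurable_fun_prod _ fun i _ => ?_
      exact (hg i).meas.comp (by fun_prop))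
    simpa [toE_apply] using this
  have e3 : ∀ i, ∫ x, g i (L i x) ∂μ
      = ∫ z, g i ⟪b i, z⟫ ∂(stdGaussian (EuclideanSpace ℝ ι)) := by
    intro i
    have := e1 (fun u => g i (u i)) ((hg i).meas.comp (by fun_prop))
    simpa [toE_apply] using this
  have e4 : ∫ x, g i (L i x) * g j (L j x) ∂μ
      = ∫ z, g i ⟪b i, z⟫ * g j ⟪b j, z⟫ ∂(stdGaussian (EuclideanSpace ℝ ι)) := by
    have := e1 (fun u => g i (u i) * g j (u j)) (((hg i).meas.comp (by fun_prop)).mul
      ((hg j).meas.comp (by fun_prop)))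
    simpa [toE_apply] using this
  rw [e2, e4]
  simp_rw [e3]
  have hlin : ∀ k, LC (fun z : EuclideanSpace ℝ ι => g k ⟪b k, z⟫) := fun k =>
    (hg k).lc.comp (T := fun x => ⟪b k, x⟫) (fun x y p q _ => by
        simp [inner_add_right, real_inner_smul_right])
  have := sidak_std ((Finset.univ.erase i).erase j) b (g := g) (fun i _ => hg i) (fun i _ => hge i)
    (K := fun z => g i ⟪b i, z⟫ * g j ⟪b j, z⟫)
    ⟨(hlin i).mul (hlin j), ((hg i).meas.comp (by fun_prop)).mul ((hg j).meas.comp (by fun_prop)),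
      fun z => mul_le_one₀ ((hg i).le_one _) ((hg j).lc.nonneg _) ((hg j).le_one _)⟩
    (fun z => by rw [inner_neg_right, inner_neg_right, hge, hge])
  refine this.trans (le_of_eq ?_)
  congr 1
  funext z
  have h1 : j ∈ Finset.univ.erase i := Finset.mem_erase.2 ⟨hij.symm, Finset.mem_univ _⟩
  have h2 : i ∈ (Finset.univ : Finset ι) := Finset.mem_univ _
  rw [← Finset.mul_prod_erase Finset.univ _ h2, ← Finset.mul_prod_erase _ _ h1]
  ring

end general

variable {m : ℕ}

/-- cube equality forces pair equality -/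
lemma pair_of_cube {R : Matrix (Fin m) (Fin m) ℝ} (hR : R.PosSemidef) (hd : ∀ i, R i i = 1)
    {w : ℝ} (hc : ∫ y, ∏ i, sy w (y i) ∂(multivariateGaussian (0 : Em m) R) = m0 (sy w) ^ m)
    {i j : Fin m} (hij : i ≠ j) :
    ∫ y, sy w (y i) * sy w (y j) ∂(multivariateGaussian (0 : Em m) R) = m0 (sy w) ^ 2 := by
  set μ := multivariateGaussian (0 : Em m) R with hμ
  have hcent : ∫ x, x ∂μ = 0 := by simp [hμ]
  have hlaw : ∀ i, μ.map (pr m i) = γ := law_pr hR hd
  have hone : ∀ k : Fin m, ∫ y, sy w (pr m k y) ∂μ = m0 (sy w) := by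
    intro k
    unfold m0
    rw [← hlaw k, integral_map (by fun_prop) (nice_sy w).meas.aestronglyMeasurable]
  have hq0 : 0 ≤ m0 (sy w) := integral_nonneg fun x => sy_nonneg w x
  have hP0 : 0 ≤ ∫ y, sy w (y i) * sy w (y j) ∂μ :=
    integral_nonneg fun x => mul_nonneg (sy_nonneg _ _) (sy_nonneg _ _)
  have hlow : m0 (sy w) ^ 2 ≤ ∫ y, sy w (y i) * sy w (y j) ∂μ := by
    have h1 := sidak_gauss hcent (![pr m i, pr m j]) (g := fun _ => sy w)
      (fun _ => nice_sy w) (fun _ => sy_even w)
    simp only [Fin.prod_univ_two, Matrix.cons_val_zero, Matrix.cons_val_one] at h1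
    rw [hone i, hone j] at h1
    rw [sq]
    exact h1
  refine le_antisymm ?_ hlow
  rcases hq0.eq_or_lt with hq | hq
  · have h1 : ∫ y, sy w (y i) * sy w (y j) ∂μ ≤ ∫ y, sy w (pr m i y) ∂μ := by
      apply integral_mono_of_nonneg
      · exact Eventually.of_forall fun y => mul_nonneg (sy_nonneg _ _) (sy_nonneg _ _)
      · refine integrable_bdd (C := 1) ((nice_sy w).meas.comp (by fun_prop))
          (fun y => (nice_sy w).abs_le _)
      · refine Eventually.of_forall fun y => ?_
        exact mul_le_of_le_one_right (sy_nonneg _ _) ((nice_sy w).le_one _)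
    rw [hone i, ← hq] at h1
    exact h1.trans (by positivity)
  · have h1 := sidak_pair hcent (pr m) (g := fun _ => sy w) (fun _ => nice_sy w)
      (fun _ => sy_even w) hij
    simp_rw [hone] at h1
    rw [Finset.prod_const] at h1
    have h2 : ∫ y, ∏ k, sy w (pr m k y) ∂μ = m0 (sy w) ^ m := hc
    have h3 : ((Finset.univ.erase i).erase j).card = m - 2 := by
      rw [Finset.card_erase_of_mem, Finset.card_erase_of_mem (Finset.mem_univ _),
        Finset.card_univ, Fintype.card_fin]
      · omega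
      · exact Finset.mem_erase.2 ⟨hij.symm, Finset.mem_univ _⟩
    have hm2 : 2 ≤ m := by
      have hi := i.2
      have hj := j.2
      have : (i : ℕ) ≠ j := fun h => hij (Fin.ext h)
      omega
    rw [h2, h3] at h1
    have h4 : m0 (sy w) ^ m = m0 (sy w) ^ (m - 2) * m0 (sy w) ^ 2 := by
      rw [← pow_add]
      congr 1
      omega
    rw [h4] at h1
    exact le_of_mul_le_mul_left h1 (by positivity)

/-- the standard Gaussian measure has the product property on cubes -/
lemma cube_one (w : ℝ) :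
    ∫ y, ∏ i, sy w (y i) ∂(multivariateGaussian (0 : Em m) 1) = m0 (sy w) ^ m := by
  rw [multivariateGaussian_zero_one, ← map_pi_eq_stdGaussian, integral_map (by fun_prop)]
  · have := integral_fintype_prod_eq_prod (fun (_ : Fin m) z => sy w z)
      (μ := fun _ => γ)
    simp only [Finset.prod_const, Finset.card_univ, Fintype.card_fin] at this
    exact this
  · refine (Finset.measurable_fun_prod _ fun i _ => ?_).aestronglyMeasurable
    exact (nice_sy w).meas.comp (by fun_prop)

/-- first absolute moment of the standard Gaussian -/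
noncomputable def Cabs : ℝ := ∫ t, |t| ∂γ

lemma Cabs_pos : 0 < Cabs := by
  have h0 : 0 ≤ Cabs := integral_nonneg fun t => abs_nonneg t
  rcases h0.eq_or_lt with h | h
  · exfalso
    have h1 := (integral_eq_zero_iff_of_nonneg (fun t => abs_nonneg t) integrable_id_γ.abs).1 h.symm
    have h2 : ∫ x : ℝ, x ^ 2 ∂γ = 0 := by
      rw [integral_eq_zero_of_ae]
      filter_upwards [h1] with t ht
      simp only [Pi.zero_apply, abs_eq_zero] at ht ⊢
      rw [ht]; norm_num
    rw [integral_sq_γ] at h2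
    exact one_ne_zero h2
  · exact h

lemma abs_law {v : ℝ} (hv : 0 ≤ v) : ∫ t, |t| ∂(gaussianReal 0 v.toNNReal) = √v * Cabs := by
  have h1 : gaussianReal 0 v.toNNReal = γ.map (fun t => √v * t) := by
    have h2 := gaussianReal_map_const_mul (μ := 0) (v := 1) (√v)
    rw [h2, mul_zero, mul_one]
    congr 1
    apply NNReal.eq
    rw [Real.coe_toNNReal _ hv]
    simp [Real.sq_sqrt hv]
  rw [h1, integral_map (by fun_prop) (by fun_prop)]
  unfold Cabs
  rw [← integral_const_mul]
  congr 1
  funext t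
  rw [abs_mul, abs_of_nonneg (Real.sqrt_nonneg v)]

lemma max_abs (a b : ℝ) : max |a| |b| = (|a + b| + |a - b|) / 2 := by
  rcases le_total |a| |b| with h | h
  · rw [max_eq_right h]
    rcases abs_cases a with ⟨h1, h2⟩ | ⟨h1, h2⟩ <;> rcases abs_cases b with ⟨h3, h4⟩ | ⟨h3, h4⟩ <;>
    rcases abs_cases (a + b) with ⟨h5, h6⟩ | ⟨h5, h6⟩ <;>
    rcases abs_cases (a - b) with ⟨h7, h8⟩ | ⟨h7, h8⟩ <;> linarith
  · rw [max_eq_left h]
    rcases abs_cases a with ⟨h1, h2⟩ | ⟨h1, h2⟩ <;> rcases abs_cases b with ⟨h3, h4⟩ | ⟨h3, h4⟩ <;>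
    rcases abs_cases (a + b) with ⟨h5, h6⟩ | ⟨h5, h6⟩ <;>
    rcases abs_cases (a - b) with ⟨h7, h8⟩ | ⟨h7, h8⟩ <;> linarith

lemma memLp_coord (μ : Measure (Em m)) [IsGaussian μ] (i : Fin m) :
    MemLp (fun y : Em m => y i) 2 μ :=
  IsGaussian.memLp_dual μ (EuclideanSpace.proj i : Em m →L[ℝ] ℝ) 2 (by simp)

lemma exp_max {R : Matrix (Fin m) (Fin m) ℝ} (hR : R.PosSemidef) (hd : ∀ i, R i i = 1)
    (i j : Fin m) : 0 ≤ 2 + 2 * R i j ∧ 0 ≤ 2 - 2 * R i j ∧
    ∫ y, max |y i| |y j| ∂(multivariateGaussian (0 : Em m) R)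
      = Cabs * (√(2 + 2 * R i j) + √(2 - 2 * R i j)) / 2 := by
  set μ := multivariateGaussian (0 : Em m) R with hμ
  have hcent : ∫ x, x ∂μ = 0 := by simp [hμ]
  have hi := memLp_coord μ i
  have hj := memLp_coord μ j
  have hvar1 : Var[(pr m i + pr m j : StrongDual ℝ (Em m)); μ] = 2 + 2 * R i j := by
    have h1 : ((pr m i + pr m j : StrongDual ℝ (Em m)) : Em m → ℝ) = fun y => y i + y j := rfl
    rw [h1, variance_fun_add hi hj, covariance_eval_multivariateGaussian hR,
      variance_eval_multivariateGaussian hR, variance_eval_multivariateGaussian hR, hd, hd]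
    ring
  have hvar2 : Var[(pr m i - pr m j : StrongDual ℝ (Em m)); μ] = 2 - 2 * R i j := by
    have h1 : ((pr m i - pr m j : StrongDual ℝ (Em m)) : Em m → ℝ) = fun y => y i - y j := rfl
    rw [h1, variance_fun_sub hi hj, covariance_eval_multivariateGaussian hR,
      variance_eval_multivariateGaussian hR, variance_eval_multivariateGaussian hR, hd, hd]
    ring
  have hn1 : 0 ≤ 2 + 2 * R i j := by rw [← hvar1]; exact variance_nonneg _ _
  have hn2 : 0 ≤ 2 - 2 * R i j := by rw [← hvar2]; exact variance_nonneg _ _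
  have hmean : ∀ L : StrongDual ℝ (Em m), μ[L] = 0 := by
    intro L
    rw [L.integral_comp_id_comm IsGaussian.integrable_id]
    simp only [hcent, map_zero]
  have hl1 : ∫ y, |y i + y j| ∂μ = √(2 + 2 * R i j) * Cabs := by
    rw [← abs_law hn1]
    have h2 := IsGaussian.map_eq_gaussianReal (μ := μ) (pr m i + pr m j : StrongDual ℝ (Em m))
    rw [hmean, hvar1] at h2
    rw [← h2, integral_map (by fun_prop) (by fun_prop)]
    rfl
  have hl2 : ∫ y, |y i - y j| ∂μ = √(2 - 2 * R i j) * Cabs := by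
    rw [← abs_law hn2]
    have h2 := IsGaussian.map_eq_gaussianReal (μ := μ) (pr m i - pr m j : StrongDual ℝ (Em m))
    rw [hmean, hvar2] at h2
    rw [← h2, integral_map (by fun_prop) (by fun_prop)]
    rfl
  refine ⟨hn1, hn2, ?_⟩
  simp_rw [max_abs]
  rw [integral_div, integral_add, hl1, hl2]
  · ring
  · exact ((hi.integrable (by norm_num)).add (hj.integrable (by norm_num))).abs
  · exact ((hi.integrable (by norm_num)).sub (hj.integrable (by norm_num))).abs

/-- product of two interval indicators as an event -/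
lemma pair_event (μ : Measure (Em m)) [IsProbabilityMeasure μ] (i j : Fin m) (w : ℝ) :
    (μ.map (fun y => max |y i| |y j|)) (Iic w)
      = ENNReal.ofReal (∫ y, sy w (y i) * sy w (y j) ∂μ) := by
  have hmeas : Measurable (fun y : Em m => max |y i| |y j|) := by fun_prop
  rw [Measure.map_apply hmeas measurableSet_Iic]
  have h1 : (fun y : Em m => sy w (y i) * sy w (y j))
      = ((fun y : Em m => max |y i| |y j|) ⁻¹' Iic w).indicator (fun _ => (1:ℝ)) := by
    funext y
    by_cases h : max |y i| |y j| ≤ w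
    · rw [indicator_of_mem (by exact h)]
      rw [max_le_iff] at h
      rw [sy_mem h.1, sy_mem h.2, one_mul]
    · rw [indicator_of_notMem (by exact h)]
      rw [max_le_iff, not_and_or] at h
      rcases h with h | h
      · rw [sy_not h, zero_mul]
      · rw [sy_not h, mul_zero]
  rw [h1, integral_indicator (hmeas measurableSet_Iic)]
  simp

/-- cube equality for all side lengths forces independence -/
lemma eq_one_of_cube {R : Matrix (Fin m) (Fin m) ℝ} (hR : R.PosSemidef) (hd : ∀ i, R i i = 1)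
    (hc : ∀ w, ∫ y, ∏ i, sy w (y i) ∂(multivariateGaussian (0 : Em m) R) = m0 (sy w) ^ m) :
    R = 1 := by
  ext i j
  by_cases hij : i = j
  · subst hij
    rw [hd, Matrix.one_apply_eq]
  rw [Matrix.one_apply_ne hij]
  have hd1 : ∀ i, (1 : Matrix (Fin m) (Fin m) ℝ) i i = 1 := fun i => Matrix.one_apply_eq i
  have h1 : (multivariateGaussian (0 : Em m) R).map (fun y => max |y i| |y j|)
      = (multivariateGaussian (0 : Em m) 1).map (fun y => max |y i| |y j|) := by
    have : IsProbabilityMeasure ((multivariateGaussian (0 : Em m) R).map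
      (fun y => max |y i| |y j|)) := Measure.isProbabilityMeasure_map (by fun_prop)
    apply Measure.ext_of_Iic
    intro w
    rw [pair_event, pair_event, pair_of_cube hR hd (hc w) hij,
      pair_of_cube Matrix.PosSemidef.one hd1 (cube_one w) hij]
  have h2 : ∫ y, max |y i| |y j| ∂(multivariateGaussian (0 : Em m) R)
      = ∫ y, max |y i| |y j| ∂(multivariateGaussian (0 : Em m) 1) := by
    have e1 : ∀ μ : Measure (Em m), ∫ y, max |y i| |y j| ∂μ
        = ∫ t, t ∂(μ.map (fun y => max |y i| |y j|)) := by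
      intro μ
      rw [integral_map (by fun_prop) (by fun_prop)]
    rw [e1, e1, h1]
  obtain ⟨hn1, hn2, h3⟩ := exp_max hR hd i j
  obtain ⟨-, -, h4⟩ := exp_max (Matrix.PosSemidef.one (n := Fin m) (R := ℝ)) hd1 i j
  rw [h3, h4, Matrix.one_apply_ne hij] at h2
  have hC := Cabs_pos
  have h5 : √(2 + 2 * R i j) + √(2 - 2 * R i j) = 2 * √2 := by
    have h6 : Cabs * (√(2 + 2 * R i j) + √(2 - 2 * R i j)) = Cabs * (2 * √2) := by
      have : (2:ℝ) + 2 * 0 = 2 := by norm_num
      have h7 : (2:ℝ) - 2 * 0 = 2 := by norm_num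
      rw [this, h7] at h2
      linarith
    exact mul_left_cancel₀ hC.ne' h6
  have s1 := Real.sq_sqrt hn1
  have s2 := Real.sq_sqrt hn2
  have s3 : √2 ^ 2 = 2 := Real.sq_sqrt (by norm_num)
  have h8 : (√(2 + 2 * R i j) + √(2 - 2 * R i j)) ^ 2 = 8 := by
    rw [h5, mul_pow, s3]; norm_num
  have h9 : √(2 + 2 * R i j) * √(2 - 2 * R i j) = 2 := by nlinarith
  have h10 : (2 + 2 * R i j) * (2 - 2 * R i j) = 4 := by
    rw [← s1, ← s2, ← mul_pow, h9]; norm_num
  have h11 : R i j ^ 2 = 0 := by nlinarith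
  exact pow_eq_zero_iff (two_ne_zero) |>.1 h11

end Pool.Agent.H98.Gauss
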