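import Mathlib
import Pool.Agent.H98.Pair

open scoped ENNReal NNReal Topology RealInnerProductSpace MatrixOrder
open MeasureTheory Set ProbabilityTheory Filter

namespace Pool.Agent.H98.Gauss

variable {m : ℕ}

lemma m0_ic (c : ℝ) : m0 (ic c) = (gaussianReal 0 1).real (Iic c) := by
  unfold m0 ic
  rw [integral_indicator measurableSet_Iic]
  simp

lemma IF_ic (μ : Measure (Em m)) [IsProbabilityMeasure μ] (c : ℝ) :
    IF μ (pr m) (ic c) = μ.real {x | ∀ i, x i ≤ c} := by
  have hs : MeasurableSet {x : Em m | ∀ i, x i ≤ c} := by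
    have : {x : Em m | ∀ i, x i ≤ c} = ⋂ i, {x : Em m | x i ≤ c} := by ext x; simp
    rw [this]
    exact MeasurableSet.iInter fun i => measurableSet_le (by fun_prop) measurable_const
  unfold IF
  have h1 : (fun x : Em m => ∏ i, ic c (pr m i x))
      = {x : Em m | ∀ i, x i ≤ c}.indicator (fun _ => (1:ℝ)) := by
    funext x
    by_cases h : ∀ i, x i ≤ c
    · rw [indicator_of_mem (by exact h)]
      exact Finset.prod_eq_one fun i _ => ic_of_le (h i)
    · rw [indicator_of_notMem (by exact h)]
      push Not at h
      obtain ⟨i, hi⟩ := h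
      exact Finset.prod_eq_zero (Finset.mem_univ i) (ic_of_lt hi)
  rw [h1, integral_indicator hs]
  simp

lemma IF_ic_one (c : ℝ) :
    IF (multivariateGaussian (0 : Em m) 1) (pr m) (ic c) = m0 (ic c) ^ m := by
  unfold IF
  rw [multivariateGaussian_zero_one, ← map_pi_eq_stdGaussian, integral_map (by fun_prop)]
  · have := integral_fintype_prod_eq_prod (fun (_ : Fin m) z => ic c z)
      (μ := fun _ => γ)
    simp only [Finset.prod_const, Finset.card_univ, Fintype.card_fin] at this
    exact this
  · exact (measurable_prodF _ (nice_ic c).meas).aestronglyMeasurable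

/-- equality on a half line characterises the identity matrix -/
theorem Adm.eq_iff {R : Matrix (Fin m) (Fin m) ℝ} (h : Adm R) (hm : 0 < m) (c : ℝ) :
    (multivariateGaussian (0 : Em m) R).real {x | ∀ i, x i ≤ c}
      = (gaussianReal 0 1).real (Iic c) ^ m ↔ R = 1 := by
  rw [← IF_ic, ← m0_ic]
  constructor
  · intro heq
    exact eq_one_of_cube h.psdR h.diag (h.cube hm heq)
  · rintro rfl
    exact IF_ic_one c

end Pool.Agent.H98.Gauss
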