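import Mathlib
import Pool.Agent.H98.Final

open scoped ENNReal NNReal Topology RealInnerProductSpace MatrixOrder
open MeasureTheory Set ProbabilityTheory Filter

namespace Pool.Agent.H98.Gauss

variable {m : ℕ}

/-- averaging matrix -/
noncomputable abbrev Jm (m : ℕ) : Matrix (Fin m) (Fin m) ℝ :=
  (1 / (m:ℝ)) • Matrix.of (fun _ _ => (1:ℝ))

/-- largest coordinate -/
noncomputable def mx (x : Em m) : ℝ := ⨆ i, x i

lemma mx_le_iff (hm : 0 < m) (x : Em m) (s : ℝ) : mx x ≤ s ↔ ∀ i, x i ≤ s := by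
  have : Nonempty (Fin m) := ⟨⟨0, hm⟩⟩
  unfold mx
  exact ciSup_le_iff (Set.finite_range _).bddAbove

lemma le_mx (x : Em m) (i : Fin m) : x i ≤ mx x :=
  le_ciSup (f := fun i => x i) (Set.finite_range _).bddAbove i

lemma mx_affine (hm : 0 < m) (x : Em m) {a : ℝ} (ha : 0 ≤ a) (z : ℝ) :
    mx (WithLp.toLp 2 (fun i => z + a * x i) : Em m) = z + a * mx x := by
  have hne : Nonempty (Fin m) := ⟨⟨0, hm⟩⟩
  apply le_antisymm
  · rw [mx_le_iff hm]
    intro i
    have := le_mx x i
    simp only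
    gcongr
  · obtain ⟨i, hi⟩ : ∃ i, x i = mx x := by
      unfold mx
      exact exists_eq_ciSup_of_finite (f := fun i => x i)
    rw [← hi]
    exact le_mx (WithLp.toLp 2 (fun i => z + a * x i) : Em m) i

lemma measurable_mx : Measurable (mx : Em m → ℝ) := by
  unfold mx
  exact Measurable.iSup fun i => by fun_prop

lemma scale_law {G : Matrix (Fin m) (Fin m) ℝ} (hG : G.PosSemidef) {a : ℝ} (ha : 0 ≤ a) :
    multivariateGaussian (0 : Em m) (a • G)
      = (multivariateGaussian (0 : Em m) G).map (fun x => √a • x) := by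
  have hm1 : Measurable (fun x : Em m => √a • x) := by fun_prop
  have : IsProbabilityMeasure ((multivariateGaussian (0 : Em m) G).map (fun x => √a • x)) :=
    Measure.isProbabilityMeasure_map hm1.aemeasurable
  apply Measure.ext_of_charFun
  ext t
  rw [charFun_multivariateGaussian (hG.smul ha), charFun_map_smul,
    charFun_multivariateGaussian hG]
  congr 1
  have h1 : (√a * √a : ℝ) = a := Real.mul_self_sqrt ha
  have h2 : (WithLp.ofLp (√a • t)) ⬝ᵥ G.mulVec (WithLp.ofLp (√a • t)) = a * (t ⬝ᵥ G.mulVec t) := by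
    rw [WithLp.ofLp_smul, Matrix.mulVec_smul, smul_dotProduct, dotProduct_smul, smul_eq_mul,
      smul_eq_mul, ← mul_assoc, h1]
  rw [h2, Matrix.smul_mulVec, dotProduct_smul]
  simp

/-- admissible matrix attached to a correlation matrix -/
noncomputable def toR (G : Matrix (Fin m) (Fin m) ℝ) : Matrix (Fin m) (Fin m) ℝ :=
  (((m:ℝ) - 1) / m) • G + Jm m

lemma toR_sub (G : Matrix (Fin m) (Fin m) ℝ) : toR G - Jm m = (((m:ℝ) - 1) / m) • G := by
  unfold toR; rw [add_sub_cancel_right]

lemma toR_adm (hm : 2 ≤ m) {G : Matrix (Fin m) (Fin m) ℝ} (hG : G.PosSemidef)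
    (hd : ∀ i, G i i = 1) : Adm (toR G) where
  diag i := by
    have hm' : (2:ℝ) ≤ m := by exact_mod_cast hm
    simp only [toR, Matrix.add_apply, Matrix.smul_apply, smul_eq_mul, hd, Matrix.of_apply, mul_one]
    field_simp
    ring
  psd := by
    have hm' : (2:ℝ) ≤ m := by exact_mod_cast hm
    have h := toR_sub G
    unfold Jm at h
    rw [h]
    exact hG.smul (div_nonneg (by linarith) (by linarith))

lemma integral_exp_mx (hm : 2 ≤ m) {G : Matrix (Fin m) (Fin m) ℝ} (hG : G.PosSemidef)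
    (hd : ∀ i, G i i = 1) (l : ℝ) :
    ∫ x, Real.exp (l * mx x) ∂(multivariateGaussian (0 : Em m) (toR G))
      = (∫ z, Real.exp (l * ((√m)⁻¹ * z)) ∂γ)
        * ∫ x, Real.exp (l * (√(((m:ℝ) - 1) / m) * mx x)) ∂(multivariateGaussian (0 : Em m) G) := by
  have hm' : (2:ℝ) ≤ m := by exact_mod_cast hm
  have hm0 : 0 < m := by omega
  set a : ℝ := ((m:ℝ) - 1) / m with ha
  have ha0 : 0 ≤ a := div_nonneg (by linarith) (by linarith)
  have hA := toR_adm hm hG hd
  have hlaw := factor_law hm0 hA.psdR hA.psd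
  have hmeas : Measurable (fun x : Em m => Real.exp (l * mx x)) :=
    (measurable_mx.const_mul l).exp
  rw [← hlaw, integral_map (by fun_prop) hmeas.aestronglyMeasurable]
  have h1 : toR G - (1 / (m:ℝ)) • Matrix.of (fun _ _ => (1:ℝ)) = a • G := toR_sub G
  rw [h1, scale_law hG ha0]
  have e1 : γ.prod ((multivariateGaussian (0 : Em m) G).map (fun x => √a • x))
      = (γ.prod (multivariateGaussian (0 : Em m) G)).map (Prod.map id (fun x => √a • x)) := by
    rw [← Measure.map_prod_map _ _ (by fun_prop) (by fun_prop), Measure.map_id]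
  have hmeas2 : Measurable (fun p : ℝ × Em m => Real.exp (l * mx
      (WithLp.toLp 2 (fun i => (√m)⁻¹ * p.1 + p.2 i) : Em m))) := hmeas.comp (by fun_prop)
  rw [e1, integral_map (by fun_prop) hmeas2.aestronglyMeasurable]
  rw [← integral_prod_mul]
  congr 1
  funext p
  have h2 : (WithLp.toLp 2 (fun i => (√m)⁻¹ * (Prod.map id (fun x : Em m => √a • x) p).1
      + (Prod.map id (fun x : Em m => √a • x) p).2 i) : Em m)
      = WithLp.toLp 2 (fun i => ((√m)⁻¹ * p.1) + √a * p.2 i) := by
    ext i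
    simp
  rw [h2, mx_affine hm0 p.2 (Real.sqrt_nonneg a), mul_add, Real.exp_add]

lemma integrable_exp_mx (hm : 0 < m) {G : Matrix (Fin m) (Fin m) ℝ} (hG : G.PosSemidef)
    (hd : ∀ i, G i i = 1) (l : ℝ) :
    Integrable (fun x => Real.exp (l * mx x)) (multivariateGaussian (0 : Em m) G) := by
  have hne : Nonempty (Fin m) := ⟨⟨0, hm⟩⟩
  set μ := multivariateGaussian (0 : Em m) G with hμ
  have h1 : ∀ i, Integrable (fun x : Em m => Real.exp (l * x i)) μ := by
    intro i
    have h2 : Integrable (fun t : ℝ => Real.exp (l * t)) (μ.map (pr m i)) := by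
      rw [law_pr hG hd i]; exact integrable_exp_mul_gaussianReal l
    exact h2.comp_measurable (f := pr m i) (by fun_prop)
  have h3 : Integrable (fun x : Em m => ∑ i, Real.exp (l * x i)) μ :=
    integrable_finsetSum _ fun i _ => h1 i
  refine h3.mono' (measurable_mx.const_mul l).exp.aestronglyMeasurable ?_
  refine Eventually.of_forall fun x => ?_
  obtain ⟨i, hi⟩ : ∃ i, x i = mx x := by
    unfold mx
    exact exists_eq_ciSup_of_finite (f := fun i => x i)
  rw [Real.norm_eq_abs, abs_of_pos (Real.exp_pos _), ← hi]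
  exact Finset.single_le_sum (f := fun i => Real.exp (l * x i)) (fun i _ => (Real.exp_pos _).le)
    (Finset.mem_univ i)

/-- equality of exponential moments forces the identity matrix -/
lemma Adm.exp_eq {R : Matrix (Fin m) (Fin m) ℝ} (h : Adm R) (hm : 0 < m) {l : ℝ} (hl : 0 < l)
    (heq : ∫ x, Real.exp (l * mx x) ∂(multivariateGaussian (0 : Em m) R)
      = ∫ x, Real.exp (l * mx x) ∂(multivariateGaussian (0 : Em m) 1)) : R = 1 := by
  have hd1 : ∀ i, (1 : Matrix (Fin m) (Fin m) ℝ) i i = 1 := fun i => Matrix.one_apply_eq i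
  have hI1 := integrable_exp_mx hm h.psdR h.diag l
  have hI2 := integrable_exp_mx hm Matrix.PosSemidef.one hd1 l
  have hmeas : Measurable (fun x : Em m => Real.exp (l * mx x)) :=
    (measurable_mx.const_mul l).exp
  have hev : ∀ t : ℝ, 0 < t → {x : Em m | t < Real.exp (l * mx x)}
      = {x : Em m | ∀ i, x i ≤ Real.log t / l}ᶜ := by
    intro t ht
    ext x
    simp only [mem_ofPred_eq, mem_compl_iff]
    rw [← mx_le_iff hm, not_le, ← Real.log_lt_iff_lt_exp ht, div_lt_iff₀' hl]
  have hms : ∀ c : ℝ, MeasurableSet {x : Em m | ∀ i, x i ≤ c} := by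
    intro c
    have : {x : Em m | ∀ i, x i ≤ c} = ⋂ i, {x : Em m | x i ≤ c} := by ext x; simp
    rw [this]
    exact MeasurableSet.iInter fun i => measurableSet_le (by fun_prop) measurable_const
  have hone : ∀ c : ℝ, (multivariateGaussian (0 : Em m) 1).real {x | ∀ i, x i ≤ c}
      = (gaussianReal 0 1).real (Iic c) ^ m := by
    intro c
    rw [← IF_ic, ← m0_ic, IF_ic_one]
  have hle : ∀ c : ℝ, (multivariateGaussian (0 : Em m) 1).real {x | ∀ i, x i ≤ c}
      ≤ (multivariateGaussian (0 : Em m) R).real {x | ∀ i, x i ≤ c} := by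
    intro c
    rw [hone, ← IF_ic, ← m0_ic]
    exact h.half hm c
  have hnn : ∀ μ : Measure (Em m), 0 ≤ᵐ[μ] (fun x : Em m => Real.exp (l * mx x)) := fun μ =>
    Eventually.of_forall fun x => (Real.exp_pos _).le
  set f : ℝ → ℝ≥0∞ := fun t => (multivariateGaussian (0 : Em m) R)
    {x : Em m | t < Real.exp (l * mx x)} with hf
  set g : ℝ → ℝ≥0∞ := fun t => (multivariateGaussian (0 : Em m) 1)
    {x : Em m | t < Real.exp (l * mx x)} with hg
  have hlf : ENNReal.ofReal (∫ x, Real.exp (l * mx x) ∂(multivariateGaussian (0 : Em m) R))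
      = ∫⁻ t in Ioi 0, f t := by
    rw [ofReal_integral_eq_lintegral_ofReal hI1 (hnn _),
      lintegral_eq_lintegral_meas_lt _ (hnn _) hmeas.aemeasurable]
  have hlg : ENNReal.ofReal (∫ x, Real.exp (l * mx x) ∂(multivariateGaussian (0 : Em m) 1))
      = ∫⁻ t in Ioi 0, g t := by
    rw [ofReal_integral_eq_lintegral_ofReal hI2 (hnn _),
      lintegral_eq_lintegral_meas_lt _ (hnn _) hmeas.aemeasurable]
  have hfg : f ≤ᵐ[volume.restrict (Ioi (0:ℝ))] g := by
    rw [EventuallyLE, ae_restrict_iff' measurableSet_Ioi]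
    refine Eventually.of_forall fun t ht => ?_
    simp only [hf, hg]
    rw [hev t ht, prob_compl_eq_one_sub (hms _), prob_compl_eq_one_sub (hms _)]
    refine tsub_le_tsub_left ?_ 1
    have h1 := hle (Real.log t / l)
    exact (ENNReal.toReal_le_toReal (measure_ne_top _ _) (measure_ne_top _ _)).1 h1
  have hgm : AEMeasurable g (volume.restrict (Ioi (0:ℝ))) := by
    have : Antitone g := by
      intro s t hst
      simp only [hg]
      exact measure_mono fun x hx => lt_of_le_of_lt hst hx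
    exact this.measurable.aemeasurable
  have hae := ae_eq_of_ae_le_of_lintegral_le hfg (by rw [← hlf]; exact ENNReal.ofReal_ne_top) hgm
    (by rw [← hlf, ← hlg, heq])
  have : (volume.restrict (Ioi (0:ℝ))) ≠ 0 := by
    intro h0
    have h1 := congrArg (fun μ : Measure ℝ => μ univ) h0
    simp at h1
  have hne : (ae (volume.restrict (Ioi (0:ℝ)))).NeBot := ae_neBot.2 this
  obtain ⟨t, ht1, ht2⟩ := (hae.and (ae_restrict_mem measurableSet_Ioi)).exists
  simp only [hf, hg] at ht1
  rw [hev t ht2] at ht1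
  have h3 : (multivariateGaussian (0 : Em m) R).real {x | ∀ i, x i ≤ Real.log t / l}
      = (multivariateGaussian (0 : Em m) 1).real {x | ∀ i, x i ≤ Real.log t / l} := by
    have e1 := congrArg ENNReal.toReal ht1
    have e2 : ∀ μ : Measure (Em m), IsProbabilityMeasure μ →
        (μ {x : Em m | ∀ i, x i ≤ Real.log t / l}ᶜ).toReal
          = 1 - μ.real {x : Em m | ∀ i, x i ≤ Real.log t / l} := by
      intro μ _
      exact probReal_compl_eq_one_sub (hms _)
    rw [e2 _ inferInstance, e2 _ inferInstance] at e1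
    linarith
  rw [hone] at h3
  exact (h.eq_iff hm _).1 h3

/-- correlation matrix of the regular simplex -/
noncomputable def Gtri (m : ℕ) : Matrix (Fin m) (Fin m) ℝ :=
  ((m:ℝ) / (m - 1)) • (1 - (1 / (m:ℝ)) • Matrix.of (fun _ _ => (1:ℝ)))

lemma toR_Gtri (hm : 2 ≤ m) : toR (Gtri m) = 1 := by
  have hm' : (2:ℝ) ≤ m := by exact_mod_cast hm
  unfold toR Gtri
  rw [smul_smul]
  have : ((m:ℝ) - 1) / m * (m / (m - 1)) = 1 := by
    have h1 : (m:ℝ) - 1 ≠ 0 := by linarith
    have h2 : (m:ℝ) ≠ 0 := by linarith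
    field_simp
  rw [this, one_smul, sub_add_cancel]

lemma Gtri_diag (hm : 2 ≤ m) (i : Fin m) : Gtri m i i = 1 := by
  have hm' : (2:ℝ) ≤ m := by exact_mod_cast hm
  have h1 : (m:ℝ) - 1 ≠ 0 := by linarith
  have h2 : (m:ℝ) ≠ 0 := by linarith
  simp only [Gtri, Matrix.smul_apply, Matrix.sub_apply, Matrix.one_apply_eq, Matrix.of_apply,
    smul_eq_mul, mul_one]
  field_simp

lemma Gtri_psd (hm : 2 ≤ m) : (Gtri m).PosSemidef := by
  have hm' : (2:ℝ) ≤ m := by exact_mod_cast hm
  unfold Gtri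
  refine Matrix.PosSemidef.smul ?_ (div_nonneg (by linarith) (by linarith))
  refine Matrix.PosSemidef.of_dotProduct_mulVec_nonneg ?_ ?_
  · refine Matrix.IsHermitian.sub Matrix.isHermitian_one ?_
    ext i j
    simp [Matrix.conjTranspose_apply]
  · intro x
    rw [star_trivial, quad_sub, Matrix.one_mulVec]
    have h2 : (∑ i, x i) ^ 2 ≤ (Finset.univ : Finset (Fin m)).card * ∑ i, x i ^ 2 :=
      sq_sum_le_card_mul_sum_sq
    rw [Finset.card_univ, Fintype.card_fin] at h2
    have h3 : x ⬝ᵥ x = ∑ i, x i ^ 2 := by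
      simp [dotProduct, sq]
    rw [h3, sub_nonneg, div_le_iff₀ (by linarith)]
    linarith

theorem exp_iff (hm : 2 ≤ m) {G : Matrix (Fin m) (Fin m) ℝ} (hG : G.PosSemidef)
    (hd : ∀ i, G i i = 1) {l : ℝ} (hl : 0 < l) :
    ∫ x, Real.exp (l * mx x) ∂(multivariateGaussian (0 : Em m) G)
      = ∫ x, Real.exp (l * mx x) ∂(multivariateGaussian (0 : Em m) (Gtri m)) ↔ G = Gtri m := by
  constructor
  swap
  · rintro rfl; rfl
  intro heq
  have hm' : (2:ℝ) ≤ m := by exact_mod_cast hm
  set a : ℝ := ((m:ℝ) - 1) / m with ha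
  have ha0 : 0 < a := div_pos (by linarith) (by linarith)
  have hsa : 0 < √a := Real.sqrt_pos.2 ha0
  have h1 := integral_exp_mx hm hG hd (l / √a)
  have h2 := integral_exp_mx hm (Gtri_psd hm) (Gtri_diag hm) (l / √a)
  have h3 : ∀ t : ℝ, l / √a * (√a * t) = l * t := by
    intro t; field_simp
  rw [← ha] at h1 h2
  simp_rw [h3] at h1 h2
  rw [toR_Gtri hm] at h2
  have h4 := (toR_adm hm hG hd).exp_eq (by omega) (div_pos hl hsa) (by rw [h1, h2, heq])
  have h5 : toR G - Jm m = toR (Gtri m) - Jm m := by rw [h4, toR_Gtri hm]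
  rw [toR_sub, toR_sub] at h5
  have h6 := congrArg (fun M : Matrix (Fin m) (Fin m) ℝ => a⁻¹ • M) h5
  simp only [smul_smul] at h6
  rw [← ha, inv_mul_cancel₀ ha0.ne', one_smul, one_smul] at h6
  exact h6

end Pool.Agent.H98.Gauss
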